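import Pool.Agent.W5h26.AO.Mean

/-! # Boxes are Følner sequences -/

set_option autoImplicit false

open Filter Topology Finset

namespace Pool.Agent.W5h26.AO

variable {ι : Type} [Fintype ι] [DecidableEq ι]

/-- the box `[0, N] ^ ι` -/
noncomputable def box (ι : Type) [Fintype ι] [DecidableEq ι] (N : ℕ) : Finset (ι → ℤ) :=
  Fintype.piFinset fun _ => Finset.Ico 0 ((N : ℤ) + 1)

theorem box_card (N : ℕ) : (box ι N).card = (N + 1) ^ Fintype.card ι := by
  unfold box
  rw [Fintype.card_piFinset]
  simp only [Int.card_Ico, sub_zero, prod_const, card_univ]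
  congr 1

theorem ico_shift (N : ℕ) (a : ℤ) :
    ((Finset.Ico 0 ((N : ℤ) + 1)).filter fun x => x + a ∉ Finset.Ico 0 ((N : ℤ) + 1)).card ≤
      a.natAbs := by
  rcases le_total 0 a with ha | ha
  · have h : (Finset.Ico 0 ((N : ℤ) + 1)).filter (fun x => x + a ∉ Finset.Ico 0 ((N : ℤ) + 1)) ⊆
        Finset.Ico ((N : ℤ) + 1 - a) ((N : ℤ) + 1) := by
      intro x hx
      rw [mem_filter, Finset.mem_Ico, Finset.mem_Ico] at hx
      rw [Finset.mem_Ico]
      omega
    refine (card_le_card h).trans ?_
    rw [Int.card_Ico]
    omega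
  · have h : (Finset.Ico 0 ((N : ℤ) + 1)).filter (fun x => x + a ∉ Finset.Ico 0 ((N : ℤ) + 1)) ⊆
        Finset.Ico 0 (-a) := by
      intro x hx
      rw [mem_filter, Finset.mem_Ico, Finset.mem_Ico] at hx
      rw [Finset.mem_Ico]
      omega
    refine (card_le_card h).trans ?_
    rw [Int.card_Ico]
    omega

theorem box_shift (N : ℕ) (a : ι → ℤ) :
    ((box ι N).filter fun x => x + a ∉ box ι N).card ≤
      ∑ i, (a i).natAbs * (N + 1) ^ (Fintype.card ι - 1) := by
  have h : (box ι N).filter (fun x => x + a ∉ box ι N) ⊆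
      univ.biUnion fun i => Fintype.piFinset (Function.update
        (fun _ : ι => Finset.Ico 0 ((N : ℤ) + 1)) i
        ((Finset.Ico 0 ((N : ℤ) + 1)).filter fun x => x + a i ∉ Finset.Ico 0 ((N : ℤ) + 1))) := by
    intro x hx
    obtain ⟨h1, h2⟩ := mem_filter.1 hx
    unfold box at h1 h2
    rw [Fintype.mem_piFinset] at h1 h2
    push Not at h2
    obtain ⟨i, hi⟩ := h2
    rw [mem_biUnion]
    refine ⟨i, mem_univ i, ?_⟩
    rw [Fintype.mem_piFinset]
    intro j
    by_cases hj : j = i
    · subst hj
      rw [Function.update_self]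
      exact mem_filter.2 ⟨h1 j, hi⟩
    · rw [Function.update_of_ne hj]
      exact h1 j
  refine (card_le_card h).trans (card_biUnion_le.trans (sum_le_sum fun i _ => ?_))
  rw [Fintype.card_piFinset]
  have h3 : ∀ j, (Function.update (fun _ : ι => Finset.Ico 0 ((N : ℤ) + 1)) i
      ((Finset.Ico 0 ((N : ℤ) + 1)).filter fun x => x + a i ∉ Finset.Ico 0 ((N : ℤ) + 1)) j).card =
      Function.update (fun _ : ι => N + 1) i
        (((Finset.Ico 0 ((N : ℤ) + 1)).filter fun x => x + a i ∉ Finset.Ico 0 ((N : ℤ) + 1)).card)
        j := by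
    intro j
    by_cases hj : j = i
    · subst hj
      rw [Function.update_self, Function.update_self]
    · rw [Function.update_of_ne hj, Function.update_of_ne hj, Int.card_Ico]
      omega
  rw [prod_congr rfl fun j _ => h3 j, prod_update_of_mem (mem_univ i), prod_const,
    card_sdiff_of_subset (by simp), card_singleton, card_univ]
  exact Nat.mul_le_mul_right _ (ico_shift N (a i))

theorem box_folner : IsFolner fun N => box ι N := by
  classical
  constructor
  · intro N
    rw [← card_pos, box_card]
    positivity
  · intro a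
    rcases isEmpty_or_nonempty ι with h0 | h0
    · have h1 : ∀ N, ((box ι N).filter fun x => x + a ∉ box ι N) = ∅ := by
        intro N
        rw [filter_eq_empty_iff]
        intro x hx h2
        exact h2 (by rwa [Subsingleton.elim (x + a) x])
      have h2 : ∀ N, (((box ι N).filter fun x => x + a ∉ box ι N).card : ℝ) /
          ((box ι N).card : ℝ) = 0 := fun N => by rw [h1]; simp
      refine (tendsto_const_nhds (x := (0 : ℝ))).congr fun N => ?_
      rw [← h2 N]
      congr
    · set c : ℝ := ∑ i, ((a i).natAbs : ℝ) with hc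
      have hk : 1 ≤ Fintype.card ι := Fintype.card_pos
      have h3 : Tendsto (fun N : ℕ => c * (1 / ((N : ℝ) + 1))) atTop (𝓝 0) := by
        have := (tendsto_one_div_add_atTop_nhds_zero_nat (𝕜 := ℝ)).const_mul c
        rwa [mul_zero] at this
      refine squeeze_zero (fun N => by positivity) (fun N => ?_) h3
      have h4 : (((box ι N).filter fun x => x + a ∉ box ι N).card : ℝ) ≤
          c * ((N : ℝ) + 1) ^ (Fintype.card ι - 1) := by
        have h5 := box_shift N a
        have h6 : (((box ι N).filter fun x => x + a ∉ box ι N).card : ℝ) ≤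
            ((∑ i, (a i).natAbs * (N + 1) ^ (Fintype.card ι - 1) : ℕ) : ℝ) := by exact_mod_cast h5
        refine h6.trans (le_of_eq ?_)
        push_cast
        rw [hc, sum_mul]
      have hN : (0 : ℝ) < (N : ℝ) + 1 := by positivity
      rw [box_card]
      push_cast
      rw [div_le_iff₀ (by positivity)]
      refine le_trans (le_of_eq ?_) (h4.trans (le_of_eq ?_))
      · congr
      · obtain ⟨k, hk'⟩ : ∃ k, Fintype.card ι = k + 1 := ⟨Fintype.card ι - 1, by omega⟩
        rw [hk', Nat.add_sub_cancel, pow_succ]
        field_simp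

/-- transport -/
theorem folner_map {A B : Type} [AddCommGroup A] [AddCommGroup B] (e : A ≃+ B)
    {F : ℕ → Finset A} (hF : IsFolner F) : IsFolner fun j => (F j).map e.toEquiv.toEmbedding := by
  classical
  constructor
  · intro j
    exact (hF.nonempty j).map
  · intro b
    refine (hF.shift (e.symm b)).congr fun j => ?_
    congr 1
    · congr 1
      rw [filter_map, card_map]
      congr 1
      ext x
      rw [mem_filter, mem_filter]
      refine and_congr_right fun _ => not_congr ?_
      simp only [Equiv.coe_toEmbedding, mem_map_equiv]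
      have : e.toEquiv.symm (e.toEquiv x + b) = x + e.symm b := by
        show e.symm (e x + b) = _
        rw [map_add, e.symm_apply_apply]
      rw [this]
    · rw [card_map]

/-- Følner sequences exist -/
theorem exists_folner (A : Type) [AddCommGroup A] [Module.Free ℤ A] [Module.Finite ℤ A] :
    ∃ F : ℕ → Finset A, IsFolner F := by
  classical
  let b := Module.Free.chooseBasis ℤ A
  exact ⟨_, folner_map b.equivFun.symm.toAddEquiv (box_folner (ι := Module.Free.ChooseBasisIndex ℤ A))⟩

end Pool.Agent.W5h26.AO
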