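import Pool.Agent.W5h26.AO.Loc

/-!
# The members of the family are the curves through the given points
-/

set_option autoImplicit false

open Polynomial Finset

namespace Pool.Agent.W5h26.AO

variable {R : Type} [CommRing R] [IsDomain R] {r n g : ℕ}

theorem prod_dvd {α : Fin r → R} (hα : Function.Injective α) {p : R[X]} (hp : p ≠ 0)
    (h : ∀ j, p.eval (α j) = 0) : (∏ j, (X - C (α j))) ∣ p := by
  have h1 : ((univ.val.map α).map fun a => X - C a).prod ∣ p := by
    rw [Multiset.prod_X_sub_C_dvd_iff_le_roots hp]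
    rw [Multiset.le_iff_subset (univ.nodup.map hα)]
    intro x hx
    obtain ⟨j, -, rfl⟩ := Multiset.mem_map.1 hx
    exact (mem_roots hp).2 (h j)
  rwa [Multiset.map_map] at h1

theorem mem_iff {a f : R[X]} {α : Fin r → R} (ha : a.Monic) (hd : a.natDegree = 2 * g + 1)
    (hn : n + r = 2 * g + 1) (hα : Function.Injective α) :
    (f.Monic ∧ f.natDegree = 2 * g + 1 ∧ ∀ j, f.eval (α j) = a.eval (α j)) ↔
      ∃ h : Fin n → R, f = mem a α h := by
  constructor
  · rintro ⟨h1, h2, h3⟩
    by_cases h0 : f - a = 0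
    · refine ⟨0, ?_⟩
      unfold mem
      simp only [Pi.zero_apply, map_zero, zero_mul, sum_const_zero, add_zero]
      exact sub_eq_zero.1 h0
    · obtain ⟨Q, hQ⟩ := prod_dvd hα h0 fun j => by rw [eval_sub, h3, sub_self]
      have hP1 : (∏ j, (X - C (α j)) : R[X]).Monic := monic_prod_of_monic _ _ fun j _ => monic_X_sub_C _
      have hP2 : (∏ j, (X - C (α j)) : R[X]).natDegree = r := by
        rw [natDegree_prod_of_monic _ _ fun j _ => monic_X_sub_C _]
        simp
      have hQ0 : Q ≠ 0 := by
        rintro rfl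
        rw [mul_zero] at hQ
        exact h0 hQ
      have h4 : (f - a).natDegree < 2 * g + 1 := by
        have h5 : (f - a).degree < f.degree := degree_sub_lt_left
          (by rw [degree_eq_natDegree h1.ne_zero, degree_eq_natDegree ha.ne_zero, h2, hd])
          h1.ne_zero (by rw [h1.leadingCoeff, ha.leadingCoeff])
        rw [degree_eq_natDegree h0, degree_eq_natDegree h1.ne_zero, h2] at h5
        exact_mod_cast h5
      have h5 : Q.natDegree < n := by
        rw [hQ, natDegree_mul hP1.ne_zero hQ0, hP2] at h4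
        omega
      refine ⟨fun i => Q.coeff i, ?_⟩
      have h6 : (∑ i : Fin n, C (Q.coeff i) * X ^ (i : ℕ) : R[X]) = Q := by
        rw [Fin.sum_univ_eq_sum_range (fun i => C (Q.coeff i) * X ^ i) n]
        simp only [C_mul_X_pow_eq_monomial]
        exact (as_sum_range' Q n h5).symm
      unfold mem
      rw [h6, mul_comm Q, ← hQ]
      ring
  · rintro ⟨h, rfl⟩
    obtain ⟨h1, h2⟩ := mem_monic ha hd hn.le α h
    refine ⟨h1, h2, fun j => ?_⟩
    rw [mem_eval, prod_eq_zero (mem_univ j) (sub_self _), mul_zero, add_zero]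

end Pool.Agent.W5h26.AO
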