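import Pool.Agent.W5h26.AO.Loc
import Pool.Agent.Y707.PC.AlgTop

/-!
# The rank of the generic member of the family
-/

set_option autoImplicit false
set_option maxHeartbeats 400000

open Polynomial Finset

namespace Pool.Agent.W5h26.AO

open Pool.Agent.Y707.PC

section

variable {R E M : Type} [CommRing R] [Field E] [CharZero E] [Algebra R E]
  [FaithfulSMul R E] [Field M] [Algebra E M] {r n g : ℕ}

/-- the coefficients in `M(w)` -/
noncomputable def toGen (R E M : Type) [CommRing R] [Field E] [Algebra R E] [Field M]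
    [Algebra E M] : R →+* RatFunc M :=
  (algebraMap M (RatFunc M)).comp ((algebraMap E M).comp (algebraMap R E))

/-- the generic member: the parameters are `w, ξ_1, …, ξ_{n+1}` -/
noncomputable def gen (a : R[X]) (α : Fin r → R) (E : Type) [Field E] [Algebra R E] {M : Type}
    [Field M] [Algebra E M] (ξ : Fin (n + 1) → M) : (RatFunc M)[X] :=
  mem (a.map (toGen R E M)) (fun j => toGen R E M (α j))
    (Fin.cons RatFunc.X (fun i => algebraMap M (RatFunc M) (ξ i)) : Fin (n + 2) → RatFunc M)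

theorem gen_class {a : R[X]} {α y : Fin r → R} (ha : a.Monic) (hd : a.natDegree = 2 * g + 1)
    (hn : n + 2 + r = 2 * g + 1) (hα : Function.Injective α) (hy : ∀ j, a.eval (α j) = y j ^ 2)
    (hy0 : ∀ j, y j ≠ 0) {ξ : Fin (n + 1) → M} (hξ : AlgebraicIndependent E ξ)
    (htop : IntermediateField.adjoin E (Set.range ξ) = ⊤) :
    (gen a α E ξ).Monic ∧ (gen a α E ξ).natDegree = 2 * g + 1 ∧ (gen a α E ξ).Separable ∧
    ∃ _ : IsDomain (AdjoinRoot (X ^ 2 - C (gen a α E ξ) : (RatFunc M)[X][X])),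
      Module.Free ℤ (Additive (ClassGroup (AdjoinRoot
        (X ^ 2 - C (gen a α E ξ) : (RatFunc M)[X][X])))) ∧
      Module.Finite ℤ (Additive (ClassGroup (AdjoinRoot
        (X ^ 2 - C (gen a α E ξ) : (RatFunc M)[X][X])))) ∧
      Module.finrank ℤ (Additive (ClassGroup (AdjoinRoot
        (X ^ 2 - C (gen a α E ξ) : (RatFunc M)[X][X])))) = r := by
  have hinj : Function.Injective (algebraMap R E) := FaithfulSMul.algebraMap_injective R E
  set ψ : R →+* MvPolynomial (Fin (n + 1)) E := MvPolynomial.C.comp (algebraMap R E) with hψ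
  have hψi : Function.Injective ψ := (MvPolynomial.C_injective _ _).comp hinj
  set a' : (MvPolynomial (Fin (n + 1)) E)[X] := mem (a.map ψ) (fun j => ψ (α j))
    (Fin.cons 0 MvPolynomial.X : Fin (n + 2) → MvPolynomial (Fin (n + 1)) E) with ha'
  obtain ⟨h1, h2⟩ : a'.Monic ∧ a'.natDegree = 2 * g + 1 :=
    mem_monic (ha.map ψ) (by rw [ha.natDegree_map, hd]) hn.le _ _
  have hev : ∀ j, a'.eval (ψ (α j)) = ψ (y j) ^ 2 := by
    intro j
    rw [ha', mem_eval, prod_eq_zero (mem_univ j) (sub_self _), mul_zero, add_zero, eval_map,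
      eval₂_at_apply, hy, map_pow]
  have hM0 : CharZero M := charZero_of_injective_algebraMap (algebraMap E M).injective
  have hgen : gen a α E ξ = ff (a'.map (MvPolynomial.aeval ξ : _ →ₐ[E] M).toRingHom)
      (hh fun j => MvPolynomial.aeval ξ (ψ (α j))) RatFunc.X := by
    have e1 : ∀ z, (MvPolynomial.aeval ξ : _ →ₐ[E] M).toRingHom (ψ z) =
        algebraMap E M (algebraMap R E z) := by
      intro z
      show MvPolynomial.aeval ξ (MvPolynomial.C (algebraMap R E z)) = _
      rw [MvPolynomial.aeval_C]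
    rw [ff_def, up_hh, up_def, ha', mem_map, mem_map]
    unfold gen mem
    rw [Fin.sum_univ_succ, Fin.sum_univ_succ (n := n + 1)]
    simp only [Fin.cons_zero, Fin.cons_succ, Fin.val_zero, pow_zero, mul_one, map_zero, zero_add]
    have e2 : ((a.map ψ).map (MvPolynomial.aeval ξ : _ →ₐ[E] M).toRingHom).map
        (algebraMap M (RatFunc M)) = a.map (toGen R E M) := by
      rw [Polynomial.map_map, Polynomial.map_map]
      congr 1
      ext z
      show algebraMap M (RatFunc M) ((MvPolynomial.aeval ξ : _ →ₐ[E] M).toRingHom (ψ z)) = _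
      rw [e1]
      rfl
    have e3 : ∀ j, algebraMap M (RatFunc M) ((MvPolynomial.aeval ξ : _ →ₐ[E] M).toRingHom
        (ψ (α j))) = toGen R E M (α j) := by
      intro j
      rw [e1]
      rfl
    have e4 : ∀ j, algebraMap M (RatFunc M) (MvPolynomial.aeval ξ (ψ (α j))) =
        toGen R E M (α j) := e3
    have e5 : ∀ i, (MvPolynomial.aeval ξ : _ →ₐ[E] M).toRingHom (MvPolynomial.X i) = ξ i := by
      intro i
      exact MvPolynomial.aeval_X _ _
    simp only [e2, e3, e4, e5]
    ring
  obtain ⟨hdom, h3, h4, h5⟩ := alg_top (E := E) (M := M) (l := 0) (g := Fin.elim0) (η := Fin.elim0)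
    h1 (by rw [h2]; exact ⟨g, rfl⟩) (α := fun j => ψ (α j)) (fun i j hij => hα (hψi hij))
    (by rw [h2]; omega) (fun j => by
      rw [hev]
      refine pow_ne_zero 2 fun h0 => hy0 j (hψi ?_)
      rw [h0, map_zero]) (fun i => i.elim0) hξ (fun i => i.elim0)
    (by
      have : Set.range (Fin.elim0 : Fin 0 → M) = ∅ := Set.range_eq_empty _
      rw [this, Set.union_empty, htop]) hgen
  obtain ⟨h6, h7⟩ : (gen a α E ξ).Monic ∧ (gen a α E ξ).natDegree = 2 * g + 1 :=
    mem_monic (ha.map _) (by rw [ha.natDegree_map, hd]) hn.le _ _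
  have hsep : (gen a α E ξ).Separable := by
    rw [hgen]
    refine sep_ff (transc_X (M := M)) (hh_coprime fun j => ?_) ?_ ?_
    · have e1 : (a'.map (MvPolynomial.aeval ξ : _ →ₐ[E] M).toRingHom).eval
          (MvPolynomial.aeval ξ (ψ (α j))) = MvPolynomial.aeval ξ (a'.eval (ψ (α j))) :=
        eval_map_apply _ _
      have hinj2 : Function.Injective (MvPolynomial.aeval ξ : MvPolynomial _ E →ₐ[E] M) := hξ
      rw [e1, hev]
      intro h0
      have e2 : ψ (y j) ^ 2 = 0 := hinj2 (by rw [h0, map_zero])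
      exact hy0 j (hψi (by rw [pow_eq_zero_iff two_ne_zero |>.1 e2, map_zero]))
    · rw [h1.natDegree_map, h2]
      omega
    · rw [← hgen]
      exact h6.ne_zero
  refine ⟨h6, h7, hsep, hdom, h3, h4, h5.trans ?_⟩
  have hall : ∀ j : Fin r, ∃ S : Finset (Fin 0), IsSquare (a'.eval (ψ (α j)) *
      ∏ i ∈ S, (Fin.elim0 i : MvPolynomial (Fin (n + 1)) E)) := by
    intro j
    refine ⟨∅, ?_⟩
    rw [prod_empty, mul_one, hev]
    exact ⟨ψ (y j), sq _⟩
  rw [Nat.card_congr (Equiv.subtypeUnivEquiv hall), Nat.card_eq_fintype_card, Fintype.card_fin]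

end

end Pool.Agent.W5h26.AO
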