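import Pool.Agent.W5h26.AO.LF

/-!
# The Euler product
-/

set_option autoImplicit false
set_option linter.unusedSectionVars false
set_option maxHeartbeats 400000

open MeasureTheory Filter Topology Complex Set Polynomial
open NumberField IsDedekindDomain Pool.Agent.H921R2.TatePole
open Pool.Agent.R409.RA (fieldQuot finiteQuot)

namespace Pool.Agent.W5h26.AO

open Pool.Agent.W5h26.EP

variable {K : Type} [Field K] [NumberField K] {f : (𝓞 K)[X]} {g : ℕ}

/-- good reduction of the equation -/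
def Gd (f : (𝓞 K)[X]) (v : HeightOneSpectrum (𝓞 K)) : Prop :=
  (2 : 𝓞 K) ∉ v.asIdeal ∧ (red v f).Separable

open Classical in
theorem lam_eq (f : (𝓞 K)[X]) (v : HeightOneSpectrum (𝓞 K)) (m : ℕ) :
    lam f v m = if Gd f v then (tr (red v f) m : ℝ) else 0 := by
  unfold lam gtr Gd
  have h := char_two v
  by_cases h1 : (2 : 𝓞 K) ∉ v.asIdeal
  · by_cases h2 : (red v f).Separable
    · rw [if_pos ⟨h.2 h1, h2⟩, if_pos ⟨h1, h2⟩]
    · rw [if_neg fun h0 => h2 h0.2, if_neg fun h0 => h2 h0.2]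
  · rw [if_neg fun h0 => h1 (h.1 h0.1), if_neg fun h0 => h1 h0.1]

/-- the Euler factor -/
noncomputable def ef (f : (𝓞 K)[X]) (v : HeightOneSpectrum (𝓞 K)) (s : ℂ) : ℂ :=
  cexp (∑' m : ℕ, (tr (red v f) (m + 1) : ℂ) * ((nm v : ℂ) ^ (-s)) ^ (m + 1) / (m + 1))

theorem lt_summable (hf : f.Monic) (hd : f.natDegree = 2 * g + 1) {s : ℂ} (hs : 3 / 2 < s.re) :
    Summable fun p => lt f p s := by
  obtain ⟨σ, h1, h2⟩ := exists_between hs
  obtain ⟨u, hu, hb⟩ := lt_bd hf hd h1
  exact Summable.of_norm_bounded hu fun p => hb p s h2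

/-- the Euler product is the exponential of `Lam` -/
theorem euler (hf : f.Monic) (hd : f.natDegree = 2 * g + 1) {s : ℂ} (hs : 3 / 2 < s.re) :
    HasProd (fun v : {v : HeightOneSpectrum (𝓞 K) // Gd f v} => ef f v.1 s) (cexp (Lam f s)) := by
  classical
  have hsum := lt_summable hf hd hs
  have h1 : HasSum (fun v : HeightOneSpectrum (𝓞 K) => ∑' m : ℕ, lt f (v, m) s) (Lam f s) :=
    hsum.hasSum.prod_fiberwise fun v => (hsum.prod_factor v).hasSum
  have h2 : Function.support (fun v : HeightOneSpectrum (𝓞 K) => ∑' m : ℕ, lt f (v, m) s) ⊆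
      {v | Gd f v} := by
    intro v hv
    by_contra h0
    apply hv
    have h0' : ¬ Gd f v := h0
    have h3 : ∀ m, lt f (v, m) s = 0 := by
      intro m
      unfold lt
      rw [lam_eq, if_neg h0']
      simp
    simp only [h3, tsum_zero]
  have h3 := (hasSum_subtype_iff_of_support_subset h2).2 h1
  have h4 := h3.cexp
  refine h4.congr_fun ?_ |> fun h => h
  rintro ⟨v, hv⟩
  have hv' : Gd f v := hv
  show ef f v s = cexp (∑' m : ℕ, lt f (v, m) s)
  unfold ef
  congr 1
  refine tsum_congr fun m => ?_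
  unfold lt
  rw [lam_eq, if_pos hv']
  push_cast
  rfl

end Pool.Agent.W5h26.AO
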