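import Pool.Agent.W5h26.AO.Bad

/-!
# The average of the traces over the members with a smooth fibre
-/

set_option autoImplicit false
set_option linter.unusedSectionVars false
set_option maxHeartbeats 400000

open Polynomial Finset

namespace Pool.Agent.W5h26.AO

variable {k : Type} [Field k] [Fintype k] {r n : ℕ}

open Classical in
/-- the trace, if the fibre is smooth, and zero otherwise -/
noncomputable def gtr (f : k[X]) (m : ℕ) : ℝ :=
  if ringChar k ≠ 2 ∧ f.Separable then (tr f m : ℝ) else 0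

/-- the average -/
noncomputable def EE (a : k[X]) (α : Fin r → k) (n m : ℕ) : ℝ :=
  (∑ h : Fin n → k, gtr (mem a α h) m) / (Fintype.card k : ℝ) ^ n

variable {a : k[X]} {α : Fin r → k} {y : Fin r → k} {g m : ℕ}

theorem gtr_bd {f : k[X]} (hd : f.natDegree = 2 * g + 1) (hm : 1 ≤ m) :
    |gtr f m| ≤ 2 * g * √(Fintype.card k : ℝ) ^ m := by
  unfold gtr
  split_ifs with h
  · exact tr_weil h.1 hd hm
  · rw [abs_zero]
    positivity

theorem ee_bd (ha : a.Monic) (hd : a.natDegree = 2 * g + 1) (hn : n + r ≤ 2 * g + 1) (hm : 1 ≤ m) :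
    |EE a α n m| ≤ 2 * g * √(Fintype.card k : ℝ) ^ m := by
  have hq : (0 : ℝ) < (Fintype.card k : ℝ) ^ n := by
    have : (0 : ℝ) < Fintype.card k := by exact_mod_cast Fintype.card_pos
    positivity
  unfold EE
  rw [abs_div, abs_of_pos hq, div_le_iff₀ hq]
  refine (abs_sum_le_sum_abs _ _).trans ((sum_le_card_nsmul _ _ _ fun h _ =>
    gtr_bd (mem_monic ha hd hn α h).2 hm).trans (le_of_eq ?_))
  rw [card_univ, Fintype.card_fun, Fintype.card_fin, nsmul_eq_mul]
  push_cast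
  ring

/-- the difference between the sums over all and over the smooth members -/
theorem bad_diff (hF : ringChar k ≠ 2) (ha : a.Monic) (hd : a.natDegree = 2 * g + 1)
    (hn : n + 1 + r = 2 * g + 1) (hk : ((n + 1 : ℕ) : k) ≠ 0) (hy : ∀ j, a.eval (α j) = y j ^ 2)
    (hy0 : ∀ j, y j ≠ 0) (hm : 1 ≤ m) :
    |∑ h : Fin (n + 1) → k, (tr (mem a α h) m : ℝ) - ∑ h : Fin (n + 1) → k, gtr (mem a α h) m| ≤
      2 * g * √(Fintype.card k : ℝ) ^ m * ((2 * g + r) * (Fintype.card k : ℝ) ^ n) := by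
  classical
  rw [← sum_sub_distrib]
  have h1 : ∀ h : Fin (n + 1) → k, (tr (mem a α h) m : ℝ) - gtr (mem a α h) m =
      if ¬ (mem a α h).Separable then (tr (mem a α h) m : ℝ) else 0 := by
    intro h
    unfold gtr
    by_cases hs : (mem a α h).Separable
    · rw [if_pos ⟨hF, hs⟩, if_neg (not_not.2 hs), sub_self]
    · rw [if_neg (fun h0 => hs h0.2), if_pos hs, sub_zero]
  rw [sum_congr rfl fun h _ => h1 h, ← sum_filter]
  refine (abs_sum_le_sum_abs _ _).trans ((sum_le_card_nsmul _ _ _ fun h _ =>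
    tr_weil hF (mem_monic ha hd hn.le α h).2 hm).trans ?_)
  rw [nsmul_eq_mul, mul_comm]
  refine mul_le_mul_of_nonneg_left ?_ (by positivity)
  have h2 := bad_card ha hd hn hk hy hy0
  have h3 : ((univ.filter fun h : Fin (n + 1) → k => ¬ (mem a α h).Separable).card : ℝ) ≤
      (((2 * g + r) * Fintype.card k ^ n : ℕ) : ℝ) := by exact_mod_cast h2
  refine le_trans (le_of_eq ?_) (h3.trans (le_of_eq ?_))
  · congr
  · push_cast
    ring

theorem ee_one (hF : ringChar k ≠ 2) (ha : a.Monic) (hd : a.natDegree = 2 * g + 1)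
    (hn : n + 1 + r = 2 * g + 1) (hk : ((n + 1 : ℕ) : k) ≠ 0) (hα : Function.Injective α)
    (hy : ∀ j, a.eval (α j) = y j ^ 2) (hy0 : ∀ j, y j ≠ 0) :
    |EE a α (n + 1) 1 + r| ≤ 2 * g * (2 * g + r) * (Fintype.card k : ℝ) ^ (-(1 / 2) : ℝ) := by
  classical
  have hq : (0 : ℝ) < Fintype.card k := by exact_mod_cast Fintype.card_pos
  have h1 := bad_diff (m := 1) hF ha hd hn hk hy hy0 le_rfl
  have h2 : ∑ h : Fin (n + 1) → k, (tr (mem a α h) 1 : ℝ) = -(r * (Fintype.card k : ℝ) ^ (n + 1)) := by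
    rw [← avg_one hF hα hy hy0, ← sum_neg_distrib]
    refine sum_congr rfl fun h _ => ?_
    rw [tr_eq (RingHom.id k) hF (by rw [pow_one]), Polynomial.map_id]
  rw [h2] at h1
  have h3 : EE a α (n + 1) 1 + r = -((-(r * (Fintype.card k : ℝ) ^ (n + 1)) -
      ∑ h : Fin (n + 1) → k, gtr (mem a α h) 1) / (Fintype.card k : ℝ) ^ (n + 1)) := by
    unfold EE
    field_simp
    ring
  rw [h3, abs_neg, abs_div, abs_of_pos (by positivity : (0 : ℝ) < (Fintype.card k : ℝ) ^ (n + 1)),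
    div_le_iff₀ (by positivity)]
  refine h1.trans (le_of_eq ?_)
  have h4 : (Fintype.card k : ℝ) ^ (-(1 / 2) : ℝ) * (Fintype.card k : ℝ) = √(Fintype.card k : ℝ) := by
    rw [Real.sqrt_eq_rpow]
    nth_rw 2 [← Real.rpow_one (Fintype.card k : ℝ)]
    rw [← Real.rpow_add hq]
    norm_num
  rw [pow_one, pow_succ, ← h4]
  ring

theorem ee_two (hF : ringChar k ≠ 2) (ha : a.Monic) (hd : a.natDegree = 2 * g + 1)
    (hn : n + 2 + r = 2 * g + 1) (hk : ((n + 2 : ℕ) : k) ≠ 0) (hα : Function.Injective α)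
    (hy : ∀ j, a.eval (α j) = y j ^ 2) (hy0 : ∀ j, y j ≠ 0) :
    |EE a α (n + 2) 2 + Fintype.card k| ≤ 2 * g * (2 * g + r) + 1 + r := by
  classical
  obtain ⟨κ, _, _, _, φ, hc⟩ := exists_ext k (m := 2) (by norm_num)
  have hq : (0 : ℝ) < Fintype.card k := by exact_mod_cast Fintype.card_pos
  have hq1 : (1 : ℝ) ≤ Fintype.card k := by exact_mod_cast Fintype.card_pos (α := k)
  have h1 := bad_diff (m := 2) (n := n + 1) hF ha hd hn hk hy hy0 (by norm_num)
  have h2 : ∑ h : Fin (n + 2) → k, (tr (mem a α h) 2 : ℝ) =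
      -((Fintype.card k : ℝ) ^ (n + 1) * ((Fintype.card k : ℝ) ^ 2 - Fintype.card k + r)) := by
    rw [← avg_two φ hF hc hα hy hy0, ← sum_neg_distrib]
    exact sum_congr rfl fun h _ => tr_eq φ hF hc _
  rw [h2, Real.sq_sqrt hq.le] at h1
  have h3 : EE a α (n + 2) 2 + Fintype.card k = (1 - r / Fintype.card k) -
      ((-((Fintype.card k : ℝ) ^ (n + 1) * ((Fintype.card k : ℝ) ^ 2 - Fintype.card k + r)) -
      ∑ h : Fin (n + 2) → k, gtr (mem a α h) 2) / (Fintype.card k : ℝ) ^ (n + 2)) := by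
    unfold EE
    field_simp
    ring
  have h4 : |(-((Fintype.card k : ℝ) ^ (n + 1) * ((Fintype.card k : ℝ) ^ 2 - Fintype.card k + r)) -
      ∑ h : Fin (n + 2) → k, gtr (mem a α h) 2) / (Fintype.card k : ℝ) ^ (n + 2)| ≤
      2 * g * (2 * g + r) := by
    rw [abs_div, abs_of_pos (by positivity : (0 : ℝ) < (Fintype.card k : ℝ) ^ (n + 2)),
      div_le_iff₀ (by positivity)]
    refine h1.trans (le_of_eq ?_)
    ring
  have h5 : |(1 : ℝ) - r / Fintype.card k| ≤ 1 + r := by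
    have h6 : (r : ℝ) / Fintype.card k ≤ r := div_le_self (Nat.cast_nonneg r) hq1
    have h7 : (0 : ℝ) ≤ (r : ℝ) / Fintype.card k := by positivity
    rw [abs_le]
    constructor <;> linarith
  rw [h3]
  refine (abs_sub _ _).trans ?_
  linarith

end Pool.Agent.W5h26.AO
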