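import Pool.Agent.W5h26.AO.Loc

/-!
# The members of the family with a singular fibre; the traces of Frobenius
-/

set_option autoImplicit false
set_option linter.unusedSectionVars false
set_option maxHeartbeats 400000

open Polynomial Finset

namespace Pool.Agent.W5h26.AO

section bad

variable {k : Type} [Field k] [Fintype k] [DecidableEq k] {r n : ℕ}

open Classical in
/-- a pencil has few singular members -/
theorem bad_one {F P : k[X]} (hD : derivative F * P - F * derivative P ≠ 0)
    (hcop : ∀ x : AlgebraicClosure k, aeval x P = 0 → aeval x F ≠ 0) :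
    (univ.filter fun h : k => ¬ (F + C h * P).Separable).card ≤
      (derivative F * P - F * derivative P).natDegree := by
  set D := derivative F * P - F * derivative P with hDd
  have hex : ∀ h ∈ univ.filter (fun h : k => ¬ (F + C h * P).Separable),
      ∃ x : AlgebraicClosure k, aeval x (F + C h * P) = 0 ∧
        aeval x (derivative (F + C h * P)) = 0 := by
    intro h hh
    have h1 := (mem_filter.1 hh).2
    unfold Polynomial.Separable at h1
    rw [Polynomial.isCoprime_iff_aeval_ne_zero_of_isAlgClosed k (AlgebraicClosure k)] at h1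
    push Not at h1
    exact h1
  choose! x hx using hex
  have hcard : (univ.filter fun h : k => ¬ (F + C h * P).Separable).card ≤
      (D.aroots (AlgebraicClosure k)).toFinset.card := by
    refine card_le_card_of_injOn x (fun h hh => ?_) ?_
    · obtain ⟨h1, h2⟩ := hx h hh
      rw [mem_coe, Multiset.mem_toFinset, mem_aroots]
      refine ⟨hD, ?_⟩
      rw [derivative_add, derivative_C_mul, map_add, map_mul, aeval_C] at h2
      rw [map_add, map_mul, aeval_C] at h1
      rw [hDd, map_sub, map_mul, map_mul]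
      linear_combination (aeval (x h) P) * h2 - (aeval (x h) (derivative P)) * h1
    · intro h hh h' hh' he
      obtain ⟨h1, -⟩ := hx h hh
      obtain ⟨h1', -⟩ := hx h' hh'
      rw [← he] at h1'
      rw [map_add, map_mul, aeval_C] at h1 h1'
      have h2 : (algebraMap k (AlgebraicClosure k) h - algebraMap k (AlgebraicClosure k) h') *
          aeval (x h) P = 0 := by linear_combination h1 - h1'
      rcases mul_eq_zero.1 h2 with h3 | h3
      · exact (algebraMap k (AlgebraicClosure k)).injective (sub_eq_zero.1 h3)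
      · rw [h3, mul_zero, add_zero] at h1
        exact (hcop _ h3 h1).elim
  refine hcard.trans ((Multiset.toFinset_card_le _).trans ?_)
  refine (card_roots' _).trans ?_
  exact natDegree_map_le

variable {a : k[X]} {α : Fin r → k} {y : Fin r → k} {g m : ℕ}

theorem prodP_monic (α : Fin r → k) : (∏ j, (X - C (α j)) : k[X]).Monic ∧
    (∏ j, (X - C (α j)) : k[X]).natDegree = r := by
  have h1 : ∀ j ∈ (univ : Finset (Fin r)), (X - C (α j) : k[X]).Monic := fun j _ => monic_X_sub_C _
  refine ⟨monic_prod_of_monic _ _ h1, ?_⟩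
  rw [natDegree_prod_of_monic _ _ h1]
  simp

theorem mem_cons (a : k[X]) (α : Fin r → k) (h : k) (h' : Fin m → k) :
    mem a α (Fin.cons h h' : Fin (m + 1) → k) =
      mem a α (Fin.cons 0 h' : Fin (m + 1) → k) + C h * ∏ j, (X - C (α j)) := by
  unfold mem
  rw [Fin.sum_univ_succ, Fin.sum_univ_succ]
  simp only [Fin.cons_zero, Fin.cons_succ, Fin.val_zero, pow_zero, mul_one, map_zero]
  ring

theorem disc_ne {F P : k[X]} (hF : F.Monic) (hFd : F.natDegree = 2 * g + 1) (hP : P.Monic)
    (hPd : P.natDegree = r) (hn : m + 1 + r = 2 * g + 1) (hm : ((m + 1 : ℕ) : k) ≠ 0) :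
    derivative F * P - F * derivative P ≠ 0 ∧
      (derivative F * P - F * derivative P).natDegree ≤ 2 * g + r := by
  have hF1 : F.coeff (2 * g + 1) = 1 := by
    rw [← hFd]
    exact hF.coeff_natDegree
  have hP1 : P.coeff r = 1 := by
    rw [← hPd]
    exact hP.coeff_natDegree
  have h1 : (derivative F).coeff (2 * g) = ((2 * g + 1 : ℕ) : k) := by
    rw [coeff_derivative, hF1]
    push_cast
    ring
  have h2 : (derivative F).natDegree ≤ 2 * g := by
    refine (natDegree_derivative_le F).trans ?_
    omega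
  have h3 : (derivative F * P).coeff (2 * g + r) = ((2 * g + 1 : ℕ) : k) := by
    rw [coeff_mul_add_eq_of_natDegree_le h2 hPd.le, h1, hP1, mul_one]
  have h4 : (F * derivative P).coeff (2 * g + r) = (r : k) ∧
      (F * derivative P).natDegree ≤ 2 * g + r := by
    rcases Nat.eq_zero_or_pos r with h0 | h0
    · have hP2 : P = 1 := hP.natDegree_eq_zero.1 (by rw [hPd, h0])
      rw [hP2, derivative_one, mul_zero, coeff_zero, h0]
      simp
    · obtain ⟨r', rfl⟩ : ∃ r', r = r' + 1 := ⟨r - 1, by omega⟩
      have h5 : (derivative P).natDegree ≤ r' := by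
        refine (natDegree_derivative_le P).trans ?_
        omega
      have h6 : (derivative P).coeff r' = ((r' + 1 : ℕ) : k) := by
        rw [coeff_derivative, hP1, one_mul]
        push_cast
        ring
      have h7 : 2 * g + (r' + 1) = (2 * g + 1) + r' := by ring
      constructor
      · rw [h7, coeff_mul_add_eq_of_natDegree_le hFd.le h5, h6, hF1, one_mul]
      · refine natDegree_mul_le.trans ?_
        rw [hFd]
        omega
  have h8 : (derivative F * P - F * derivative P).coeff (2 * g + r) = ((m + 1 : ℕ) : k) := by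
    rw [coeff_sub, h3, h4.1, ← hn]
    push_cast
    ring
  constructor
  · intro h0
    rw [h0, coeff_zero] at h8
    exact hm h8.symm
  · refine (natDegree_sub_le _ _).trans (max_le ?_ h4.2)
    refine natDegree_mul_le.trans ?_
    omega

open Classical in
/-- the number of the members of the family with a singular fibre -/
theorem bad_card (ha : a.Monic) (hd : a.natDegree = 2 * g + 1) (hn : m + 1 + r = 2 * g + 1)
    (hm : ((m + 1 : ℕ) : k) ≠ 0) (hy : ∀ j, a.eval (α j) = y j ^ 2) (hy0 : ∀ j, y j ≠ 0) :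
    (univ.filter fun h : Fin (m + 1) → k => ¬ (mem a α h).Separable).card ≤
      (2 * g + r) * Fintype.card k ^ m := by
  have h1 : (univ.filter fun h : Fin (m + 1) → k => ¬ (mem a α h).Separable).card =
      ∑ h' : Fin m → k, (univ.filter fun h : k =>
        ¬ (mem a α (Fin.cons h h' : Fin (m + 1) → k)).Separable).card := by
    rw [card_filter, ← (Fin.consEquiv fun _ : Fin (m + 1) => k).sum_comp, Fintype.sum_prod_type_right]
    refine sum_congr rfl fun h' _ => ?_
    rw [card_filter]
    rfl
  rw [h1]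
  have h2 : ∀ h' ∈ (univ : Finset (Fin m → k)), (univ.filter fun h : k =>
        ¬ (mem a α (Fin.cons h h' : Fin (m + 1) → k)).Separable).card ≤ 2 * g + r := by
    intro h' _
    have e0 : (univ.filter fun h : k =>
        ¬ (mem a α (Fin.cons h h' : Fin (m + 1) → k)).Separable) = univ.filter fun h : k =>
        ¬ (mem a α (Fin.cons 0 h' : Fin (m + 1) → k) + C h * ∏ j, (X - C (α j))).Separable :=
      filter_congr fun h _ => by rw [mem_cons a α h h']
    rw [e0]
    obtain ⟨e1, e2⟩ := mem_monic ha hd hn.le α (Fin.cons 0 h' : Fin (m + 1) → k)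
    obtain ⟨e3, e4⟩ := prodP_monic α
    obtain ⟨e5, e6⟩ := disc_ne e1 e2 e3 e4 hn hm
    refine (bad_one e5 ?_).trans e6
    intro x hx
    rw [map_prod, prod_eq_zero_iff] at hx
    obtain ⟨j, -, hj⟩ := hx
    rw [map_sub, aeval_X, aeval_C] at hj
    have hxj : x = algebraMap k (AlgebraicClosure k) (α j) := sub_eq_zero.1 hj
    rw [hxj, aeval_algebraMap_apply, coe_aeval_eq_eval]
    refine (_root_.map_ne_zero _).2 ?_
    rw [mem_eval, prod_eq_zero (mem_univ j) (sub_self _), mul_zero, add_zero, hy]
    exact pow_ne_zero 2 (hy0 j)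
  refine (sum_le_card_nsmul _ _ _ h2).trans (le_of_eq ?_)
  rw [card_univ, Fintype.card_fun, Fintype.card_fin, smul_eq_mul, mul_comm]

end bad

/-! ### The traces -/

/-- `q ^ m` minus the number of the points over the field with `q ^ m` elements of the curve
`y ^ 2 = f(x)` over the field `k` with `q` elements -/
noncomputable def tr {k : Type} [Field k] (f : k[X]) (m : ℕ) : ℤ :=
  (Nat.card k : ℤ) ^ m - Nat.card {P : AlgebraicClosure k × AlgebraicClosure k //
    P.1 ^ (Nat.card k ^ m) = P.1 ∧ P.2 ^ (Nat.card k ^ m) = P.2 ∧ P.2 ^ 2 = aeval P.1 f}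

section tr

variable {k κ : Type} [Field k] [Fintype k] [Field κ] [Fintype κ] [DecidableEq κ]

theorem lift_range (φ : k →+* κ) {m : ℕ} (hc : Fintype.card κ = Fintype.card k ^ m) :
    ∃ ι : κ →+* AlgebraicClosure k, ι.comp φ = algebraMap k (AlgebraicClosure k) ∧
      ∀ z : AlgebraicClosure k, z ^ (Fintype.card k ^ m) = z ↔ ∃ x, ι x = z := by
  classical
  algebraize [φ]
  have : Module.Finite k κ := Module.Finite.of_finite
  obtain ⟨ι0⟩ : Nonempty (κ →ₐ[k] AlgebraicClosure k) := ⟨IsAlgClosed.lift⟩
  obtain ⟨ι, hι⟩ : ∃ ι : κ →+* AlgebraicClosure k, ι = ι0.toRingHom := ⟨_, rfl⟩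
  refine ⟨ι, ?_, ?_⟩
  · ext x
    rw [hι]
    exact ι0.commutes x
  set q := Fintype.card k ^ m with hq
  have hq1 : 1 < q := by
    rw [← hc]
    exact Fintype.one_lt_card
  have h1 : ∀ x : κ, ι x ^ q = ι x := by
    intro x
    rw [← map_pow, ← hc, FiniteField.pow_card]
  set p : (AlgebraicClosure k)[X] := X ^ q - X with hp
  have hp0 : p ≠ 0 := FiniteField.X_pow_card_sub_X_ne_zero _ hq1
  have hpd : p.natDegree = q := FiniteField.X_pow_card_sub_X_natDegree_eq _ hq1
  have h2 : univ.image ι ⊆ p.roots.toFinset := by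
    intro z hz
    obtain ⟨x, -, rfl⟩ := mem_image.1 hz
    rw [Multiset.mem_toFinset, mem_roots hp0, IsRoot, hp, eval_sub, eval_pow, eval_X, h1, sub_self]
  have h3 : univ.image ι = p.roots.toFinset := by
    apply eq_of_subset_of_card_le h2
    rw [card_image_of_injective _ ι.injective, card_univ, hc]
    refine (Multiset.toFinset_card_le _).trans ((card_roots' _).trans hpd.le)
  intro z
  constructor
  · intro hz
    have : z ∈ p.roots.toFinset := by
      rw [Multiset.mem_toFinset, mem_roots hp0, IsRoot, hp, eval_sub, eval_pow, eval_X, hz, sub_self]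
    rw [← h3] at this
    obtain ⟨x, -, hx⟩ := mem_image.1 this
    exact ⟨x, hx⟩
  · rintro ⟨x, rfl⟩
    exact h1 x

theorem card_points (hF : ringChar κ ≠ 2) (f : κ[X]) :
    (Nat.card {P : κ × κ // P.2 ^ 2 = f.eval P.1} : ℝ) = Fintype.card κ + cs f := by
  classical
  have h1 : Nat.card {P : κ × κ // P.2 ^ 2 = f.eval P.1} =
      ∑ x : κ, {z : κ | z ^ 2 = f.eval x}.toFinset.card := by
    rw [Nat.card_eq_fintype_card, Fintype.card_subtype, card_filter, Fintype.sum_prod_type]
    refine sum_congr rfl fun x _ => ?_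
    rw [← card_filter]
    congr 1
    ext z
    simp
  rw [h1]
  unfold cs
  push_cast
  have h2 : ∀ x : κ, (({z : κ | z ^ 2 = f.eval x}.toFinset.card : ℕ) : ℝ) =
      (quadraticChar κ (f.eval x) : ℝ) + 1 := by
    intro x
    have := quadraticChar_card_sqrts hF (f.eval x)
    exact_mod_cast congrArg (Int.cast : ℤ → ℝ) this
  rw [sum_congr rfl fun x _ => h2 x, sum_add_distrib, sum_const, card_univ, nsmul_eq_mul, mul_one]
  ring

theorem tr_eq (φ : k →+* κ) (hF : ringChar k ≠ 2) {m : ℕ}
    (hc : Fintype.card κ = Fintype.card k ^ m) (f : k[X]) : (tr f m : ℝ) = -cs (f.map φ) := by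
  obtain ⟨ι, h1, h2⟩ := lift_range φ hc
  have hev : ∀ x : κ, aeval (ι x) f = ι ((f.map φ).eval x) := by
    intro x
    rw [aeval_def, ← h1, eval_map, hom_eval₂]
  have h3 : Nat.card {P : AlgebraicClosure k × AlgebraicClosure k //
      P.1 ^ (Nat.card k ^ m) = P.1 ∧ P.2 ^ (Nat.card k ^ m) = P.2 ∧ P.2 ^ 2 = aeval P.1 f} =
      Nat.card {P : κ × κ // P.2 ^ 2 = (f.map φ).eval P.1} := by
    rw [Nat.card_eq_fintype_card (α := k)]
    symm
    refine Nat.card_eq_of_bijective (fun P => ⟨(ι P.1.1, ι P.1.2), ?_, ?_, ?_⟩) ⟨?_, ?_⟩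
    · exact (h2 _).2 ⟨_, rfl⟩
    · exact (h2 _).2 ⟨_, rfl⟩
    · show ι P.1.2 ^ 2 = aeval (ι P.1.1) f
      rw [hev, ← map_pow, P.2]
    · intro P Q h
      have h4 := congrArg Subtype.val h
      simp only [Prod.mk.injEq] at h4
      exact Subtype.ext (Prod.ext (ι.injective h4.1) (ι.injective h4.2))
    · rintro ⟨⟨x, z⟩, hx, hz, hxz⟩
      obtain ⟨x, rfl⟩ := (h2 _).1 hx
      obtain ⟨z, rfl⟩ := (h2 _).1 hz
      refine ⟨⟨(x, z), ι.injective ?_⟩, rfl⟩
      have hxz' : ι z ^ 2 = aeval (ι x) f := hxz
      rw [hev] at hxz'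
      rw [map_pow, hxz']
  unfold tr
  rw [h3]
  push_cast
  rw [card_points (char_ne φ hF), Nat.card_eq_fintype_card (α := k), hc]
  push_cast
  ring

/-- an extension of degree `m` -/
theorem exists_ext (k : Type) [Field k] [Fintype k] {m : ℕ} (hm : 1 ≤ m) :
    ∃ (κ : Type) (_ : Field κ) (_ : Fintype κ) (_ : DecidableEq κ) (_ : k →+* κ),
      Fintype.card κ = Fintype.card k ^ m := by
  classical
  obtain ⟨p, hp⟩ := CharP.exists k
  have hpp : Fact p.Prime := ⟨CharP.char_is_prime k p⟩
  have : NeZero m := ⟨by omega⟩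
  let _ : Fintype (FiniteField.Extension k p m) := Fintype.ofFinite _
  refine ⟨FiniteField.Extension k p m, inferInstance, inferInstance, Classical.decEq _,
    algebraMap k _, ?_⟩
  rw [← Nat.card_eq_fintype_card, ← Nat.card_eq_fintype_card]
  exact FiniteField.natCard_extension k p m

/-- the bound of Weil -/
theorem tr_weil (hF : ringChar k ≠ 2) {f : k[X]} {g : ℕ} (hd : f.natDegree = 2 * g + 1) {m : ℕ}
    (hm : 1 ≤ m) : |(tr f m : ℝ)| ≤ 2 * g * √(Fintype.card k : ℝ) ^ m := by
  obtain ⟨κ, _, _, _, φ, hc⟩ := exists_ext k hm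
  rw [tr_eq φ hF hc, abs_neg]
  have h := cs_weil (char_ne φ hF) (f := f.map φ) (g := g) (by rw [natDegree_map, hd])
  rwa [hc, Nat.cast_pow, Real.sqrt_eq_rpow, ← Real.rpow_natCast, ← Real.rpow_mul (by positivity),
    mul_comm (m : ℝ), Real.rpow_mul (by positivity), ← Real.sqrt_eq_rpow, Real.rpow_natCast] at h

end tr

end Pool.Agent.W5h26.AO
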