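import Pool.Agent.W5h26.AO.Zeta
import Pool.Agent.Y773.NV.Zb

/-!
# The continuation of the sum of `log N v / N v ^ s`
-/

set_option autoImplicit false

open MeasureTheory Filter Topology Complex Set
open NumberField IsDedekindDomain Pool.Agent.H921R2.TatePole

namespace Pool.Agent.W5h26.AO

open Pool.Agent.W5h26.EP

section

variable {K : Type} [Field K] [NumberField K]

/-- the function `(s - 1) ζ_K(s)` -/
theorem exists_Z (K : Type) [Field K] [NumberField K] : ∃ Z : ℂ → ℂ,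
    DifferentiableOn ℂ Z {s | (1 / 2 : ℝ) < s.re} ∧
    (∀ s : ℂ, 1 < s.re → Z s = (s - 1) * cexp (Zl K s)) ∧
    (∀ s : ℂ, 1 ≤ s.re → Z s ≠ 0) ∧ ∃ c : ℝ, 0 < c ∧ Z 1 = c := by
  obtain ⟨A, C, Z, hA, hC, h1, h2, -, h3, h4⟩ := Pool.Agent.Y773.NV.t_zb K
  have hone : ∀ 𝔞 : Ideal (𝓞 K), Pool.Agent.Y773.NV.ch (⊤ : Ideal (𝓞 K)) 𝔞 =
      Pool.Agent.Y772.NZ.one K 𝔞 := by
    intro 𝔞
    by_cases h : 𝔞 = ⊥
    · rw [h]
      have e1 : Pool.Agent.Y773.NV.ch (⊤ : Ideal (𝓞 K)) (⊥ : Ideal (𝓞 K)) = 0 := map_zero _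
      have e2 : Pool.Agent.Y772.NZ.one K (⊥ : Ideal (𝓞 K)) = 0 := map_zero _
      rw [e1, e2]
    · rw [Pool.Agent.Y773.NV.ch_pos h (Pool.Agent.Y773.NV.cop_top _), Pool.Agent.Y772.NZ.one_ne K h]
  have hone' : Pool.Agent.Y773.NV.ch (⊤ : Ideal (𝓞 K)) = Pool.Agent.Y772.NZ.one K := by
    ext 𝔞
    exact hone 𝔞
  have hZ : ∀ s : ℂ, 1 < s.re → Z s = (s - 1) * cexp (Zl K s) := by
    intro s hs
    rw [h2 s hs, hone', Pool.Agent.Y772.DK.LI_eq_exp _ (Pool.Agent.Y772.NZ.one_norm K) hs]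
    rfl
  refine ⟨Z, h1, hZ, ?_, _, h4, h3⟩
  intro s hs
  rcases hs.eq_or_lt with h | h
  · by_cases ht : s.im = 0
    · have : s = 1 := Complex.ext (by simpa using h.symm) (by simpa using ht)
      rw [this, h3]
      exact_mod_cast h4.ne'
    · obtain ⟨l, hl⟩ := zl_lim K ht
      have hse : s = 1 + s.im * I := by
        apply Complex.ext <;> simp [← h]
      have hpath : Tendsto (fun σ : ℝ => 1 + pt σ s.im) (𝓝[>] 0) (𝓝 s) := by
        have h5 : Continuous fun σ : ℝ => 1 + pt σ s.im := by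
          unfold pt
          fun_prop
        have h6 := h5.tendsto 0
        have h7 : (1 : ℂ) + pt 0 s.im = s := by
          rw [hse]
          simp [pt]
        rw [h7] at h6
        exact h6.mono_left nhdsWithin_le_nhds
      have hopen : IsOpen {s : ℂ | (1 / 2 : ℝ) < s.re} :=
        isOpen_lt continuous_const Complex.continuous_re
      have hc : ContinuousAt Z s :=
        (h1.differentiableAt (hopen.mem_nhds (by show (1 / 2 : ℝ) < s.re; rw [← h]; norm_num))).continuousAt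
      have h8 : Tendsto (fun σ : ℝ => Z (1 + pt σ s.im)) (𝓝[>] 0) (𝓝 (Z s)) := hc.tendsto.comp hpath
      have h9 : Tendsto (fun σ : ℝ => (1 + pt σ s.im - 1) * cexp (Zl K (1 + pt σ s.im))) (𝓝[>] 0)
          (𝓝 ((s - 1) * cexp l)) :=
        (hpath.sub_const 1).mul (Complex.continuous_exp.continuousAt.tendsto.comp hl)
      have h10 : Z s = (s - 1) * cexp l := by
        refine tendsto_nhds_unique (h8.congr' ?_) h9
        filter_upwards [self_mem_nhdsWithin] with σ hσ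
        exact hZ _ (by simpa using hσ)
      rw [h10]
      refine mul_ne_zero ?_ (Complex.exp_ne_zero _)
      intro h0
      apply ht
      have := congrArg Complex.im (sub_eq_zero.1 h0)
      simpa using this
  · rw [hZ s h]
    refine mul_ne_zero ?_ (Complex.exp_ne_zero _)
    intro h0
    have := congrArg Complex.re (sub_eq_zero.1 h0)
    rw [Complex.one_re] at this
    linarith

/-- the sum of `log N v / N v ^ s`, continued to `Re s > 1/2` -/
theorem exists_D (K : Type) [Field K] [NumberField K] : ∃ D : ℂ → ℂ,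
    MeromorphicOn D {s | (1 / 2 : ℝ) < s.re} ∧
    (∀ s : ℂ, 1 ≤ s.re → s ≠ 1 → AnalyticAt ℂ D s) ∧
    (∃ H : ℂ → ℂ, AnalyticAt ℂ H 1 ∧ ∀ s, D s = 1 / (s - 1) + H s) ∧
    ∀ s : ℂ, 1 < s.re → HasSum (fun v : HeightOneSpectrum (𝓞 K) =>
      (Real.log (nm v) : ℂ) * (nm v : ℂ) ^ (-s)) (D s) := by
  obtain ⟨Z, hZ, hZe, hZ0, -⟩ := exists_Z K
  have hopen : IsOpen {s : ℂ | (1 / 2 : ℝ) < s.re} := isOpen_lt continuous_const Complex.continuous_re
  have hopen1 : IsOpen {s : ℂ | 1 < s.re} := isOpen_lt continuous_const Complex.continuous_re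
  have hZa : ∀ s : ℂ, 1 / 2 < s.re → AnalyticAt ℂ Z s := fun s hs =>
    hZ.analyticAt (hopen.mem_nhds hs)
  have hRa : ∀ s : ℂ, 1 / 2 < s.re → AnalyticAt ℂ (RK K) s := fun s hs =>
    rk_hol.analyticAt (hopen.mem_nhds hs)
  have hHa : ∀ s : ℂ, 1 ≤ s.re → AnalyticAt ℂ (fun s => -(deriv Z s / Z s) - RK K s) s := by
    intro s hs
    have hs2 : (1 / 2 : ℝ) < s.re := by linarith
    exact ((hZa s hs2).deriv.div (hZa s hs2) (hZ0 s hs)).neg.sub (hRa s hs2)
  have hinv : ∀ s : ℂ, s ≠ 1 → AnalyticAt ℂ (fun s : ℂ => 1 / (s - 1)) s := fun s hs =>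
    analyticAt_const.div (analyticAt_id.sub analyticAt_const) (sub_ne_zero.2 hs)
  refine ⟨fun s => 1 / (s - 1) + (-(deriv Z s / Z s) - RK K s), ?_, ?_, ?_, ?_⟩
  · intro s hs
    have h1 : MeromorphicAt (fun s : ℂ => 1 / (s - 1)) s :=
      (MeromorphicAt.const 1 s).div ((MeromorphicAt.id s).sub (MeromorphicAt.const 1 s))
    exact h1.add ((((hZa s hs).deriv.meromorphicAt).div (hZa s hs).meromorphicAt).neg.sub
      (hRa s hs).meromorphicAt)
  · exact fun s hs hne => (hinv s hne).add (hHa s hs)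
  · exact ⟨_, hHa 1 (by simp), fun s => rfl⟩
  · intro s hs
    convert pk_sum (K := K) hs using 1
    have hne : s - 1 ≠ 0 := by
      intro h0
      have := congrArg Complex.re (sub_eq_zero.1 h0)
      rw [Complex.one_re] at this
      linarith
    have h1 : Z =ᶠ[𝓝 s] fun s => (s - 1) * cexp (Zl K s) := by
      filter_upwards [hopen1.mem_nhds hs] with z hz
      exact hZe z hz
    have hd : DifferentiableAt ℂ (Zl K) s :=
      (Pool.Agent.Y772.DK.LA_diff (Pool.Agent.Y772.DK.ee_zero _)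
        (Pool.Agent.Y772.DK.ee_le _ (Pool.Agent.Y772.NZ.one_norm K)) hs).1
    have h2 : HasDerivAt (fun s => (s - 1) * cexp (Zl K s))
        (1 * cexp (Zl K s) + (s - 1) * (cexp (Zl K s) * deriv (Zl K) s)) s :=
      ((hasDerivAt_id s).sub_const 1).mul hd.hasDerivAt.cexp
    have h3 : deriv Z s = 1 * cexp (Zl K s) + (s - 1) * (cexp (Zl K s) * deriv (Zl K) s) := by
      rw [h1.deriv_eq]
      exact h2.deriv
    show 1 / (s - 1) + (-(deriv Z s / Z s) - RK K s) = -deriv (Zl K) s - RK K s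
    rw [h3, hZe s hs]
    have h4 := Complex.exp_ne_zero (Zl K s)
    field_simp
    ring

end

end Pool.Agent.W5h26.AO
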