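import Pool.Agent.W5h26.AO.LF

/-!
# Mean values of products over the places
-/

set_option autoImplicit false
set_option linter.unusedSectionVars false
set_option maxHeartbeats 400000

open Filter Topology Complex
open NumberField IsDedekindDomain Pool.Agent.H921R2.TatePole
open Pool.Agent.R409.RA (fieldQuot finiteQuot)

namespace Pool.Agent.W5h26.AO

section crt

variable {K : Type} [Field K] [NumberField K] {n : ℕ}

/-- the reductions at the places of a finite set -/
noncomputable def rhoT (T : Finset (HeightOneSpectrum (𝓞 K))) (n : ℕ) :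
    (Fin n → 𝓞 K) →+ ((v : T) → Fin n → 𝓞 K ⧸ v.1.asIdeal) :=
  AddMonoidHom.pi fun v : T => rho v.1 n

theorem rhoT_surj (T : Finset (HeightOneSpectrum (𝓞 K))) (n : ℕ) :
    Function.Surjective (rhoT T n) := by
  classical
  intro q
  choose z hz using fun (v : T) (i : Fin n) => Ideal.Quotient.mk_surjective (q v i)
  have h1 : ∀ i : Fin n, ∃ x : 𝓞 K, ∀ (v : HeightOneSpectrum (𝓞 K)) (hv : v ∈ T),
      x - z ⟨v, hv⟩ i ∈ v.asIdeal ^ 1 := by
    intro i
    exact IsDedekindDomain.exists_forall_sub_mem_ideal (s := T) (fun v => v.asIdeal) (fun _ => 1)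
      (fun v _ => v.prime) (fun v _ v' _ hvv' h => hvv' (HeightOneSpectrum.ext h))
      (fun v => z v i)
  choose x hx using h1
  refine ⟨x, ?_⟩
  ext v i
  show Ideal.Quotient.mk v.1.asIdeal (x i) = q v i
  rw [← hz v i, Ideal.Quotient.mk_eq_mk_iff_sub_mem]
  have := hx i v.1 v.2
  rwa [pow_one] at this

theorem mean_prod {F : ℕ → Finset (Fin n → 𝓞 K)} (hF : IsFolner F)
    (T : Finset (HeightOneSpectrum (𝓞 K)))
    (ψ : ∀ v : HeightOneSpectrum (𝓞 K), (Fin n → 𝓞 K ⧸ v.asIdeal) → ℂ) :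
    Tendsto (fun j => mean (F j) fun h => ∏ v ∈ T, ψ v (rho v n h)) atTop
      (𝓝 (∏ v ∈ T, (∑ h', ψ v h') / (nm v : ℂ) ^ n)) := by
  classical
  have h1 := mean_periodic hF (rhoT T n) (rhoT_surj T n) (fun q => ∏ v : T, ψ v.1 (q v))
  have h2 : ∀ h : Fin n → 𝓞 K, ∏ v : T, ψ v.1 (rhoT T n h v) = ∏ v ∈ T, ψ v (rho v n h) := by
    intro h
    exact Finset.prod_coe_sort T fun v => ψ v (rho v n h)
  simp only [h2] at h1
  have h3 : (∑ q : (v : T) → Fin n → 𝓞 K ⧸ v.1.asIdeal, ∏ v : T, ψ v.1 (q v)) /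
      (Fintype.card ((v : T) → Fin n → 𝓞 K ⧸ v.1.asIdeal) : ℂ) =
      ∏ v ∈ T, (∑ h', ψ v h') / (nm v : ℂ) ^ n := by
    have e1 : ∑ q : (v : T) → Fin n → 𝓞 K ⧸ v.1.asIdeal, ∏ v : T, ψ v.1 (q v) =
        ∏ v : T, ∑ h', ψ v.1 h' := by
      rw [Finset.prod_univ_sum, Fintype.piFinset_univ]
    rw [e1, Fintype.card_pi]
    push_cast
    rw [← Finset.prod_div_distrib, ← Finset.prod_coe_sort T fun v => (∑ h', ψ v h') / (nm v : ℂ) ^ n]
    refine Finset.prod_congr rfl fun v _ => ?_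
    rw [Fintype.card_fun, Fintype.card_fin, card_q]
    push_cast
    rfl
  rw [h3] at h1
  exact h1

end crt

/-- mean values of exponentials of absolutely convergent series -/
theorem mean_exp {A V : Type} [AddCommGroup A] {F : ℕ → Finset A} (w : ℂ) {S : V → A → ℂ}
    {b : V → ℝ} (hb : Summable b) (hS : ∀ v h, ‖S v h‖ ≤ b v) {e : V → ℂ}
    (he : ∀ T : Finset V, Tendsto (fun j => mean (F j) fun h => ∏ v ∈ T, cexp (w * S v h)) atTop
      (𝓝 (∏ v ∈ T, e v))) {L : ℂ} (hL : HasProd e L) :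
    Tendsto (fun j => mean (F j) fun h => cexp (w * ∑' v, S v h)) atTop (𝓝 L) := by
  classical
  rcases isEmpty_or_nonempty V with hV | ⟨⟨v₀⟩⟩
  · have h1 := he ∅
    simp only [Finset.prod_empty] at h1
    have h2 : L = 1 := hL.unique hasProd_empty
    simp only [tsum_empty, mul_zero, Complex.exp_zero]
    rw [h2]
    exact h1
  have hb0 : ∀ v, 0 ≤ b v := fun v => (norm_nonneg _).trans (hS v 0)
  have hsum : ∀ h, Summable fun v => S v h := fun h => Summable.of_norm_bounded hb fun v => hS v h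
  set Bd : ℝ := Real.exp (‖w‖ * ∑' v, b v) with hBd
  -- the tails
  have htail : Tendsto (fun T : Finset V => ‖w‖ * ∑' v : {v // v ∉ T}, b v) atTop (𝓝 0) := by
    have := (tendsto_tsum_compl_atTop_zero b).const_mul ‖w‖
    rwa [mul_zero] at this
  have hclose : ∀ᶠ T : Finset V in atTop, ∀ h, ‖cexp (w * ∑' v, S v h) -
      ∏ v ∈ T, cexp (w * S v h)‖ ≤ Bd * (2 * (‖w‖ * ∑' v : {v // v ∉ T}, b v)) := by
    filter_upwards [htail.eventually (gt_mem_nhds one_pos)] with T hT h
    have h1 : ∑' v, S v h = ∑ v ∈ T, S v h + ∑' v : {v // v ∉ T}, S v h :=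
      ((hsum h).sum_add_tsum_subtype_compl T).symm
    have h2 : ‖w * ∑' v : {v // v ∉ T}, S v h‖ ≤ ‖w‖ * ∑' v : {v // v ∉ T}, b v := by
      rw [norm_mul]
      refine mul_le_mul_of_nonneg_left ?_ (norm_nonneg w)
      exact tsum_of_norm_bounded ((hb.subtype _).hasSum) fun v => hS v h
    have h3 : ∏ v ∈ T, cexp (w * S v h) = cexp (w * ∑ v ∈ T, S v h) := by
      rw [← Complex.exp_sum, ← Finset.mul_sum]
    have h4 : cexp (w * ∑' v, S v h) - ∏ v ∈ T, cexp (w * S v h) =
        cexp (w * ∑ v ∈ T, S v h) * (cexp (w * ∑' v : {v // v ∉ T}, S v h) - 1) := by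
      rw [h3, h1, mul_add, Complex.exp_add]
      ring
    rw [h4, norm_mul]
    refine mul_le_mul ?_ ?_ (norm_nonneg _) (Real.exp_pos _).le
    · rw [Complex.norm_exp]
      refine Real.exp_le_exp.2 ((Complex.re_le_norm _).trans ?_)
      rw [norm_mul]
      refine mul_le_mul_of_nonneg_left ?_ (norm_nonneg w)
      exact (norm_sum_le _ _).trans ((Finset.sum_le_sum fun v _ => hS v h).trans
        (hb.sum_le_tsum T fun v _ => hb0 v))
    · exact (Complex.norm_exp_sub_one_le (h2.trans hT.le)).trans (by linarith)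
  rw [Metric.tendsto_nhds]
  intro ε hε
  have h1 : ∀ᶠ T : Finset V in atTop, Bd * (2 * (‖w‖ * ∑' v : {v // v ∉ T}, b v)) < ε / 3 := by
    have h2 := ((htail.const_mul 2).const_mul Bd)
    rw [mul_zero, mul_zero] at h2
    exact h2.eventually (gt_mem_nhds (by positivity))
  have h2 : ∀ᶠ T : Finset V in atTop, dist (∏ v ∈ T, e v) L < ε / 3 := by
    have h3 : Tendsto (fun T : Finset V => ∏ v ∈ T, e v) atTop (𝓝 L) := by
      simpa [HasProd] using hL
    exact Metric.tendsto_nhds.1 h3 (ε / 3) (by positivity)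
  obtain ⟨T, hT1, hT2, hT3⟩ := (h1.and (h2.and hclose)).exists
  filter_upwards [Metric.tendsto_nhds.1 (he T) (ε / 3) (by positivity)] with j hj
  have h4 : dist (mean (F j) fun h => cexp (w * ∑' v, S v h))
      (mean (F j) fun h => ∏ v ∈ T, cexp (w * S v h)) < ε / 3 := by
    refine lt_of_le_of_lt ?_ hT1
    rw [dist_eq_norm]
    have h5 : (mean (F j) fun h => cexp (w * ∑' v, S v h)) -
        (mean (F j) fun h => ∏ v ∈ T, cexp (w * S v h)) =
        mean (F j) fun h => (cexp (w * ∑' v, S v h) - ∏ v ∈ T, cexp (w * S v h)) := by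
      unfold mean
      rw [Finset.sum_sub_distrib, sub_div]
    rw [h5]
    exact mean_bound ((norm_nonneg _).trans (hT3 0)) fun h _ => hT3 h
  calc dist (mean (F j) fun h => cexp (w * ∑' v, S v h)) L
      ≤ dist (mean (F j) fun h => cexp (w * ∑' v, S v h))
          (mean (F j) fun h => ∏ v ∈ T, cexp (w * S v h)) +
        dist (mean (F j) fun h => ∏ v ∈ T, cexp (w * S v h)) (∏ v ∈ T, e v) +
        dist (∏ v ∈ T, e v) L := dist_triangle4 _ _ _ _
    _ < ε / 3 + ε / 3 + ε / 3 := by gcongr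
    _ = ε := by ring

end Pool.Agent.W5h26.AO
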