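import Mathlib

/-!
# Expansion of the powers of an Euler factor
-/

set_option autoImplicit false
set_option maxHeartbeats 400000

open Complex

namespace Pool.Agent.W5h26.AO

/-- the logarithm of an Euler factor -/
noncomputable def SS (τ : ℕ → ℝ) (z : ℂ) : ℂ := ∑' m : ℕ, (τ m : ℂ) * z ^ (m + 1) / (m + 1)

theorem ss_term {B : ℝ} {τ : ℕ → ℝ} (hτ : ∀ m, |τ m| ≤ B) (z : ℂ) (m : ℕ) :
    ‖(τ m : ℂ) * z ^ (m + 1) / (m + 1)‖ ≤ B * ‖z‖ ^ (m + 1) := by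
  rw [norm_div, norm_mul, norm_pow, Complex.norm_real, Real.norm_eq_abs]
  have h4 : (1 : ℝ) ≤ ‖((m : ℂ) + 1)‖ := by
    have : ((m : ℂ) + 1) = ((m + 1 : ℕ) : ℂ) := by push_cast; rfl
    rw [this, Complex.norm_natCast]
    exact_mod_cast Nat.succ_pos m
  refine (div_le_self (by positivity) h4).trans ?_
  exact mul_le_mul_of_nonneg_right (hτ m) (by positivity)

theorem geo_sum {x : ℝ} (h0 : 0 ≤ x) (h1 : x < 1) (j : ℕ) :
    HasSum (fun m : ℕ => x ^ (m + j)) (x ^ j / (1 - x)) := by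
  have h := (hasSum_geometric_of_lt_one h0 h1).mul_left (x ^ j)
  refine (h.congr_fun fun m => ?_)
  rw [pow_add, mul_comm]

theorem ss_summable {B : ℝ} {τ : ℕ → ℝ} (hτ : ∀ m, |τ m| ≤ B) {z : ℂ} (hz : ‖z‖ < 1) :
    Summable fun m : ℕ => (τ m : ℂ) * z ^ (m + 1) / (m + 1) :=
  Summable.of_norm_bounded (((geo_sum (norm_nonneg z) hz 1).summable).mul_left B) (ss_term hτ z)

theorem ss_bd {B : ℝ} {τ : ℕ → ℝ} (hτ : ∀ m, |τ m| ≤ B) {z : ℂ} (hz : ‖z‖ < 1) :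
    ‖SS τ z‖ ≤ B * (‖z‖ / (1 - ‖z‖)) := by
  have h := tsum_of_norm_bounded (((geo_sum (norm_nonneg z) hz 1)).mul_left B) (ss_term hτ z)
  rwa [pow_one] at h

/-- the expansion of the logarithm -/
theorem ss_one {B : ℝ} {τ : ℕ → ℝ} (hτ : ∀ m, |τ m| ≤ B) {z : ℂ} (hz : ‖z‖ < 1) :
    ‖SS τ z - τ 0 * z‖ ≤ B * (‖z‖ ^ 2 / (1 - ‖z‖)) := by
  have h1 := (ss_summable hτ hz).sum_add_tsum_nat_add 1
  have h2 : SS τ z - τ 0 * z = ∑' m : ℕ, (τ (m + 1) : ℂ) * z ^ (m + 1 + 1) / ((m + 1 : ℕ) + 1) := by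
    unfold SS
    rw [← h1, Finset.sum_range_one]
    simp
  rw [h2]
  refine tsum_of_norm_bounded (((geo_sum (norm_nonneg z) hz 2)).mul_left B) fun m => ?_
  have := ss_term hτ z (m + 1)
  exact this

theorem ss_two {B : ℝ} {τ : ℕ → ℝ} (hτ : ∀ m, |τ m| ≤ B) {z : ℂ} (hz : ‖z‖ < 1) :
    ‖SS τ z - τ 0 * z - τ 1 * z ^ 2 / 2‖ ≤ B * (‖z‖ ^ 3 / (1 - ‖z‖)) := by
  have h1 := (ss_summable hτ hz).sum_add_tsum_nat_add 2
  have h2 : SS τ z - τ 0 * z - τ 1 * z ^ 2 / 2 =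
      ∑' m : ℕ, (τ (m + 2) : ℂ) * z ^ (m + 2 + 1) / ((m + 2 : ℕ) + 1) := by
    unfold SS
    rw [← h1, Finset.sum_range_succ, Finset.sum_range_one]
    have : ((1 : ℕ) : ℂ) + 1 = 2 := by norm_num
    rw [this]
    simp
    ring
  rw [h2]
  refine tsum_of_norm_bounded (((geo_sum (norm_nonneg z) hz 3)).mul_left B) fun m => ?_
  have := ss_term hτ z (m + 2)
  exact this

/-- **The expansion of the powers of an Euler factor.** -/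
theorem exp_expand {B ρ : ℝ} (hB : 0 ≤ B) (hρ : ρ < 1) (w : ℂ) : ∃ C : ℝ, 0 ≤ C ∧
    ∀ (τ : ℕ → ℝ), (∀ m, |τ m| ≤ B) → ∀ z : ℂ, ‖z‖ ≤ ρ →
      ‖cexp (w * SS τ z) - 1 - w * τ 0 * z - w / 2 * (τ 1 + w * τ 0 ^ 2) * z ^ 2‖ ≤
        C * ‖z‖ ^ 3 := by
  have h1ρ : 0 < 1 - ρ := by linarith
  set b : ℝ := B / (1 - ρ) with hb
  have hb0 : 0 ≤ b := div_nonneg hB h1ρ.le
  refine ⟨‖w‖ * b + ‖w‖ ^ 2 / 2 * (b * (2 * b)) + (‖w‖ * b) ^ 3 * Real.exp (‖w‖ * b),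
    by positivity, fun τ hτ z hz => ?_⟩
  have hz0 : 0 ≤ ‖z‖ := norm_nonneg z
  have hz1 : ‖z‖ < 1 := hz.trans_lt hρ
  have hdiv : ∀ j : ℕ, B * (‖z‖ ^ j / (1 - ‖z‖)) ≤ b * ‖z‖ ^ j := by
    intro j
    rw [hb, mul_div_assoc', div_mul_eq_mul_div]
    exact div_le_div_of_nonneg_left (by positivity) h1ρ (by linarith)
  have e0 : ‖SS τ z‖ ≤ b * ‖z‖ := by
    have := hdiv 1
    rw [pow_one] at this
    exact (ss_bd hτ hz1).trans this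
  have e1 : ‖SS τ z - τ 0 * z‖ ≤ b * ‖z‖ ^ 2 := (ss_one hτ hz1).trans (hdiv 2)
  have e2 : ‖SS τ z - τ 0 * z - τ 1 * z ^ 2 / 2‖ ≤ b * ‖z‖ ^ 3 := (ss_two hτ hz1).trans (hdiv 3)
  have e3 : ‖SS τ z + τ 0 * z‖ ≤ 2 * b * ‖z‖ := by
    have hBb : B ≤ b := by
      rw [hb, le_div_iff₀ h1ρ]
      have : 0 ≤ ρ := hz0.trans hz
      nlinarith
    have h5 : ‖(τ 0 : ℂ) * z‖ ≤ b * ‖z‖ := by
      rw [norm_mul, Complex.norm_real, Real.norm_eq_abs]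
      exact mul_le_mul_of_nonneg_right ((hτ 0).trans hBb) hz0
    refine (norm_add_le _ _).trans ?_
    linarith
  -- the exponential
  have e4 := Complex.norm_exp_sub_sum_le_norm_mul_exp (w * SS τ z) 3
  have hsum : ∑ m ∈ Finset.range 3, (w * SS τ z) ^ m / (m.factorial : ℂ) =
      1 + w * SS τ z + (w * SS τ z) ^ 2 / 2 := by
    simp [Finset.sum_range_succ, Nat.factorial]
  rw [hsum] at e4
  have hwS : ‖w * SS τ z‖ ≤ ‖w‖ * b * ‖z‖ := by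
    rw [norm_mul, mul_assoc]
    exact mul_le_mul_of_nonneg_left e0 (norm_nonneg w)
  have e5 : ‖w * SS τ z‖ ^ 3 * Real.exp ‖w * SS τ z‖ ≤
      (‖w‖ * b) ^ 3 * Real.exp (‖w‖ * b) * ‖z‖ ^ 3 := by
    have h6 : ‖w * SS τ z‖ ≤ ‖w‖ * b := hwS.trans
      (mul_le_of_le_one_right (by positivity) hz1.le)
    have h7 : ‖w * SS τ z‖ ^ 3 ≤ (‖w‖ * b * ‖z‖) ^ 3 := pow_le_pow_left₀ (norm_nonneg _) hwS 3
    calc ‖w * SS τ z‖ ^ 3 * Real.exp ‖w * SS τ z‖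
        ≤ (‖w‖ * b * ‖z‖) ^ 3 * Real.exp (‖w‖ * b) :=
          mul_le_mul h7 (Real.exp_le_exp.2 h6) (Real.exp_pos _).le (by positivity)
      _ = _ := by ring
  have key : cexp (w * SS τ z) - 1 - w * τ 0 * z - w / 2 * (τ 1 + w * τ 0 ^ 2) * z ^ 2 =
      (cexp (w * SS τ z) - (1 + w * SS τ z + (w * SS τ z) ^ 2 / 2)) +
      w * (SS τ z - τ 0 * z - τ 1 * z ^ 2 / 2) +
      w ^ 2 / 2 * ((SS τ z - τ 0 * z) * (SS τ z + τ 0 * z)) := by ring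
  rw [key]
  have e6 : ‖w * (SS τ z - τ 0 * z - τ 1 * z ^ 2 / 2)‖ ≤ ‖w‖ * b * ‖z‖ ^ 3 := by
    rw [norm_mul, mul_assoc]
    exact mul_le_mul_of_nonneg_left e2 (norm_nonneg w)
  have e7 : ‖w ^ 2 / 2 * ((SS τ z - τ 0 * z) * (SS τ z + τ 0 * z))‖ ≤
      ‖w‖ ^ 2 / 2 * (b * (2 * b)) * ‖z‖ ^ 3 := by
    rw [norm_mul, norm_mul, norm_div, norm_pow, Complex.norm_ofNat]
    have h8 : ‖SS τ z - τ 0 * z‖ * ‖SS τ z + τ 0 * z‖ ≤ (b * ‖z‖ ^ 2) * (2 * b * ‖z‖) :=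
      mul_le_mul e1 e3 (norm_nonneg _) (by positivity)
    calc ‖w‖ ^ 2 / 2 * (‖SS τ z - τ 0 * z‖ * ‖SS τ z + τ 0 * z‖)
        ≤ ‖w‖ ^ 2 / 2 * ((b * ‖z‖ ^ 2) * (2 * b * ‖z‖)) := by gcongr
      _ = _ := by ring
  refine (norm_add₃_le).trans ?_
  have := e4.trans e5
  linarith

/-- the correction by an exponential -/
theorem corr {D : ℝ} (hD : 0 ≤ D) : ∃ C : ℝ, 0 ≤ C ∧ ∀ (A u : ℂ), ‖u‖ ≤ D → ‖A - 1 + u‖ ≤ D →
    ‖A * cexp u - 1‖ ≤ C * (‖u‖ ^ 2 + ‖A - 1 + u‖) := by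
  refine ⟨1 + Real.exp D * (1 + D) + (1 + D) + Real.exp D * D, by positivity, fun A u hu he => ?_⟩
  have hexp : ‖cexp u - (1 + u)‖ ≤ ‖u‖ ^ 2 * Real.exp D := by
    have h1 := Complex.norm_exp_sub_sum_le_norm_mul_exp u 2
    have hsum : ∑ m ∈ Finset.range 2, u ^ m / (m.factorial : ℂ) = 1 + u := by
      simp [Finset.sum_range_succ, Nat.factorial]
    rw [hsum] at h1
    exact h1.trans (mul_le_mul_of_nonneg_left (Real.exp_le_exp.2 hu) (by positivity))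
  set e := A - 1 + u with hedef
  have hA : A = 1 - u + e := by rw [hedef]; ring
  have key : A * cexp u - 1 = (1 - u + e) * (cexp u - (1 + u)) + (-u ^ 2) + e * (1 + u) := by
    rw [hA]
    ring
  rw [key]
  have h2 : ‖(1 - u + e) * (cexp u - (1 + u))‖ ≤ (1 + D + D) * (‖u‖ ^ 2 * Real.exp D) := by
    rw [norm_mul]
    refine mul_le_mul ?_ hexp (norm_nonneg _) (by positivity)
    refine (norm_add_le _ _).trans (add_le_add ((norm_sub_le _ _).trans ?_) he)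
    rw [norm_one]
    linarith
  have h3 : ‖-u ^ 2‖ = ‖u‖ ^ 2 := by rw [norm_neg, norm_pow]
  have h4 : ‖e * (1 + u)‖ ≤ ‖e‖ * (1 + D) := by
    rw [norm_mul]
    refine mul_le_mul_of_nonneg_left ?_ (norm_nonneg _)
    refine (norm_add_le _ _).trans ?_
    rw [norm_one]
    linarith
  refine (norm_add₃_le).trans ?_
  rw [h3]
  have h5 : 0 ≤ ‖u‖ ^ 2 := by positivity
  have h6 : 0 ≤ ‖e‖ := norm_nonneg e
  have h7 : 0 < Real.exp D := Real.exp_pos D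
  have : (1 + Real.exp D * (1 + D) + (1 + D) + Real.exp D * D) * (‖u‖ ^ 2 + ‖e‖) -
      ((1 + D + D) * (‖u‖ ^ 2 * Real.exp D) + ‖u‖ ^ 2 + ‖e‖ * (1 + D)) =
      (1 + D) * ‖u‖ ^ 2 + (1 + Real.exp D * (1 + D) + Real.exp D * D) * ‖e‖ := by ring
  have h8 : 0 ≤ (1 + D) * ‖u‖ ^ 2 + (1 + Real.exp D * (1 + D) + Real.exp D * D) * ‖e‖ := by positivity
  linarith

end Pool.Agent.W5h26.AO
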