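import Mathlib

/-! # Means along Følner sequences of an abelian group -/

set_option autoImplicit false
set_option linter.unusedSectionVars false

open Filter Topology

namespace Pool.Agent.W5h26.AO

variable {A : Type} [AddCommGroup A]

open Classical in
/-- `F` is a Følner sequence of the abelian group `A`: a sequence of nonempty finite sets such that for
every `a` the proportion of the `x` in `F j` for which `x + a` is not in `F j` tends to `0`. -/
structure IsFolner (F : ℕ → Finset A) : Prop where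
  nonempty : ∀ j, (F j).Nonempty
  shift : ∀ a : A, Tendsto (fun j =>
    (((F j).filter fun x => x + a ∉ F j).card : ℝ) / ((F j).card : ℝ)) atTop (𝓝 0)

/-- the mean value of `φ` over the finite set `F` -/
noncomputable def mean (F : Finset A) (φ : A → ℂ) : ℂ := (∑ x ∈ F, φ x) / (F.card : ℂ)

theorem mean_congr {F : Finset A} {φ ψ : A → ℂ} (h : ∀ x ∈ F, φ x = ψ x) : mean F φ = mean F ψ := by
  unfold mean
  rw [Finset.sum_congr rfl h]

theorem mean_bound {F : Finset A} {φ : A → ℂ} {B : ℝ} (hB : 0 ≤ B) (h : ∀ x ∈ F, ‖φ x‖ ≤ B) :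
    ‖mean F φ‖ ≤ B := by
  unfold mean
  rcases F.eq_empty_or_nonempty with rfl | hne
  · simpa using hB
  have hc : (0 : ℝ) < F.card := by exact_mod_cast Finset.card_pos.2 hne
  rw [norm_div, Complex.norm_natCast, div_le_iff₀ hc]
  refine (norm_sum_le _ _).trans ((Finset.sum_le_card_nsmul _ _ B h).trans (le_of_eq ?_))
  rw [nsmul_eq_mul, mul_comm]

open Classical in
theorem sum_shift (F : Finset A) (a : A) {φ : A → ℂ} {B : ℝ} (h : ∀ x, ‖φ x‖ ≤ B) :
    ‖(∑ x ∈ F, φ (x + a)) - ∑ x ∈ F, φ x‖ ≤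
      2 * B * ((F.filter fun x => x + a ∉ F).card : ℝ) := by
  set G : Finset A := F.map (addRightEmbedding a) with hG
  have h1 : ∑ x ∈ F, φ (x + a) = ∑ y ∈ G, φ y := by
    rw [hG, Finset.sum_map]
    rfl
  have hc : G.card = F.card := Finset.card_map _
  have h2 : (G \ F).card = (F.filter fun x => x + a ∉ F).card := by
    have : G \ F = (F.filter fun x => x + a ∉ F).map (addRightEmbedding a) := by
      ext y
      simp only [hG, Finset.mem_sdiff, Finset.mem_map, Finset.mem_filter, addRightEmbedding_apply]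
      constructor
      · rintro ⟨⟨x, hx, rfl⟩, hy⟩
        exact ⟨x, ⟨hx, hy⟩, rfl⟩
      · rintro ⟨x, ⟨hx, hy⟩, rfl⟩
        exact ⟨⟨x, hx, rfl⟩, hy⟩
    rw [this, Finset.card_map]
  have h3 : (F \ G).card = (G \ F).card := Finset.card_sdiff_comm hc.symm
  rw [h1, ← Finset.sum_sdiff_sub_sum_sdiff]
  refine (norm_sub_le _ _).trans ?_
  have e1 : ‖∑ x ∈ G \ F, φ x‖ ≤ B * ((G \ F).card : ℝ) := by
    refine (norm_sum_le _ _).trans ((Finset.sum_le_card_nsmul _ _ B fun x _ => h x).trans
      (le_of_eq ?_))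
    rw [nsmul_eq_mul, mul_comm]
  have e2 : ‖∑ x ∈ F \ G, φ x‖ ≤ B * ((F \ G).card : ℝ) := by
    refine (norm_sum_le _ _).trans ((Finset.sum_le_card_nsmul _ _ B fun x _ => h x).trans
      (le_of_eq ?_))
    rw [nsmul_eq_mul, mul_comm]
  rw [h3] at e2
  rw [h2] at e1 e2
  linarith

open Classical in
theorem mean_shift (F : Finset A) (hF : F.Nonempty) (a : A) {φ : A → ℂ} {B : ℝ}
    (h : ∀ x, ‖φ x‖ ≤ B) :
    ‖mean F (fun x => φ (x + a)) - mean F φ‖ ≤
      2 * B * (((F.filter fun x => x + a ∉ F).card : ℝ) / (F.card : ℝ)) := by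
  have hc : (0 : ℝ) < F.card := by exact_mod_cast Finset.card_pos.2 hF
  unfold mean
  rw [← sub_div, norm_div, Complex.norm_natCast, div_le_iff₀ hc, mul_assoc, div_mul_cancel₀ _ hc.ne']
  exact sum_shift F a h

/-- the mean value of a periodic function -/
theorem mean_periodic {F : ℕ → Finset A} (hF : IsFolner F) {Q : Type} [AddCommGroup Q] [Fintype Q]
    (π : A →+ Q) (hπ : Function.Surjective π) (ψ : Q → ℂ) :
    Tendsto (fun j => mean (F j) fun x => ψ (π x)) atTop
      (𝓝 ((∑ q, ψ q) / (Fintype.card Q : ℂ))) := by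
  classical
  obtain ⟨s, hs⟩ := hπ.hasRightInverse
  set B : ℝ := ∑ q, ‖ψ q‖ with hB
  have hb : ∀ x : A, ‖ψ (π x)‖ ≤ B := fun x =>
    Finset.single_le_sum (f := fun q => ‖ψ q‖) (fun _ _ => norm_nonneg _) (Finset.mem_univ (π x))
  have hQ : (Fintype.card Q : ℂ) ≠ 0 := by
    have : Nonempty Q := ⟨0⟩
    exact_mod_cast Fintype.card_ne_zero
  -- the sum over the shifts
  have h1 : ∀ j, ∑ q, mean (F j) (fun x => ψ (π (x + s q))) = ∑ q, ψ q := by
    intro j
    have hc : ((F j).card : ℂ) ≠ 0 := by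
      exact_mod_cast (Finset.card_pos.2 (hF.nonempty j)).ne'
    unfold mean
    rw [← Finset.sum_div, Finset.sum_comm, div_eq_iff hc]
    have : ∀ x ∈ F j, ∑ q, ψ (π (x + s q)) = ∑ q, ψ q := by
      intro x _
      have e : ∀ q, ψ (π (x + s q)) = ψ (π x + q) := fun q => by rw [map_add, hs q]
      simp only [e]
      exact Fintype.sum_equiv (Equiv.addLeft (π x)) _ _ fun _ => rfl
    rw [Finset.sum_congr rfl this, Finset.sum_const, nsmul_eq_mul, mul_comm]
  have h2 : ∀ q, Tendsto (fun j => mean (F j) (fun x => ψ (π (x + s q))) -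
      mean (F j) fun x => ψ (π x)) atTop (𝓝 0) := by
    intro q
    rw [tendsto_zero_iff_norm_tendsto_zero]
    have h6 := (hF.shift (s q)).const_mul (2 * B)
    rw [mul_zero] at h6
    refine squeeze_zero (fun _ => norm_nonneg _) (fun j => ?_) h6
    convert mean_shift (F j) (hF.nonempty j) (s q) hb
  have h3 := tendsto_finsetSum (Finset.univ : Finset Q) fun q _ => h2 q
  simp only [Finset.sum_const_zero] at h3
  have h4 : ∀ j, mean (F j) (fun x => ψ (π x)) = ((∑ q, ψ q) - ∑ q : Q, (mean (F j) (fun x =>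
      ψ (π (x + s q))) - mean (F j) fun x => ψ (π x))) / (Fintype.card Q : ℂ) := by
    intro j
    rw [Finset.sum_sub_distrib, h1 j, Finset.sum_const, Finset.card_univ, nsmul_eq_mul]
    field_simp
    ring
  have h5 := (tendsto_const_nhds (x := ∑ q, ψ q)).sub h3
  rw [sub_zero] at h5
  exact (h5.div_const _).congr fun j => (h4 j).symm

/-- the mean value of a dominated series -/
theorem mean_tsum {F : ℕ → Finset A} {ι : Type} {φ : ι → A → ℂ} {b : ι → ℝ} (hb : Summable b)
    (h : ∀ i x, ‖φ i x‖ ≤ b i) {μ : ι → ℂ}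
    (hμ : ∀ i, Tendsto (fun j => mean (F j) (φ i)) atTop (𝓝 (μ i))) :
    Tendsto (fun j => mean (F j) fun x => ∑' i, φ i x) atTop (𝓝 (∑' i, μ i)) := by
  have hs : ∀ x, Summable fun i => φ i x := fun x => Summable.of_norm_bounded hb fun i => h i x
  have h1 : ∀ j, mean (F j) (fun x => ∑' i, φ i x) = ∑' i, mean (F j) (φ i) := by
    intro j
    unfold mean
    rw [← Summable.tsum_finsetSum fun x _ => hs x, tsum_div_const]
  simp_rw [h1]
  refine tendsto_tsum_of_dominated_convergence hb hμ (Eventually.of_forall fun j i => ?_)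
  exact mean_bound ((norm_nonneg _).trans (h i 0)) fun x _ => h i x

end Pool.Agent.W5h26.AO
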