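import Pool.Agent.W5h26.AO.Ser
import Pool.Agent.W5h26.AO.Avg
import Pool.Agent.W5h26.AO.Mean
import Pool.Agent.R409.RA.Loc

/-!
# The L-functions of the members of the family, and their mean value
-/

set_option autoImplicit false
set_option linter.unusedSectionVars false
set_option maxHeartbeats 400000

open MeasureTheory Filter Topology Complex Set Polynomial
open NumberField IsDedekindDomain Pool.Agent.H921R2.TatePole
open Pool.Agent.R409.RA (fieldQuot finiteQuot)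

namespace Pool.Agent.W5h26.AO

open Pool.Agent.W5h26.EP

section

variable {K : Type} [Field K] [NumberField K]

/-- the reduction -/
noncomputable def red (v : HeightOneSpectrum (𝓞 K)) (f : (𝓞 K)[X]) : (𝓞 K ⧸ v.asIdeal)[X] :=
  f.map (Ideal.Quotient.mk v.asIdeal)

/-- the trace, or zero -/
noncomputable def lam (f : (𝓞 K)[X]) (v : HeightOneSpectrum (𝓞 K)) (m : ℕ) : ℝ := gtr (red v f) m

noncomputable instance fintypeQuot (v : HeightOneSpectrum (𝓞 K)) : Fintype (𝓞 K ⧸ v.asIdeal) :=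
  Fintype.ofFinite _

theorem card_q (v : HeightOneSpectrum (𝓞 K)) : Fintype.card (𝓞 K ⧸ v.asIdeal) = nm v := by
  rw [← Nat.card_eq_fintype_card]
  rfl

variable {f : (𝓞 K)[X]} {g : ℕ}

theorem red_deg (hf : f.Monic) (hd : f.natDegree = 2 * g + 1) (v : HeightOneSpectrum (𝓞 K)) :
    (red v f).Monic ∧ (red v f).natDegree = 2 * g + 1 := by
  refine ⟨hf.map _, ?_⟩
  unfold red
  rw [hf.natDegree_map, hd]

theorem lam_bd (hf : f.Monic) (hd : f.natDegree = 2 * g + 1) (v : HeightOneSpectrum (𝓞 K)) {m : ℕ}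
    (hm : 1 ≤ m) : |lam f v m| ≤ 2 * g * √(nm v : ℝ) ^ m := by
  have h := gtr_bd (red_deg hf hd v).2 hm
  rwa [card_q] at h

/-- the terms of the logarithm -/
noncomputable def lt (f : (𝓞 K)[X]) (p : HeightOneSpectrum (𝓞 K) × ℕ) (s : ℂ) : ℂ :=
  (lam f p.1 (p.2 + 1) : ℂ) * ((nm p.1 : ℂ) ^ (-s)) ^ (p.2 + 1) / (p.2 + 1)

/-- the logarithm of the L-function -/
noncomputable def Lam (f : (𝓞 K)[X]) (s : ℂ) : ℂ :=
  ∑' p : HeightOneSpectrum (𝓞 K) × ℕ, lt f p s

theorem lt_bd (hf : f.Monic) (hd : f.natDegree = 2 * g + 1) {σ : ℝ} (hσ : 3 / 2 < σ) :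
    ∃ u : HeightOneSpectrum (𝓞 K) × ℕ → ℝ, Summable u ∧ ∀ p (s : ℂ), σ < s.re →
      ‖lt f p s‖ ≤ u p := by
  have hl2 : 0 < Real.log 2 := Real.log_pos (by norm_num)
  refine ⟨_, ((sum_geo (K := K) (τ := σ - 1 / 2) (j := 1) (by linarith)
    (by push_cast; linarith)).mul_left (2 * (g : ℝ))).mul_left (1 / Real.log 2), fun p s hs => ?_⟩
  have h1 := tm_le (c := lam f p.1 (p.2 + 1)) (B := 2 * g) p.1 p.2 1 (by linarith) hs.le
    (lam_bd hf hd p.1 (by omega))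
  have h2 : ‖lt f p s‖ ≤ 1 / Real.log 2 * ‖tm (lam f p.1 (p.2 + 1)) p.1 (p.2 + 1) s‖ := by
    have h3 : Real.log 2 ≤ Real.log (nm p.1) := Real.log_le_log (by norm_num) (nm2 p.1)
    unfold lt tm
    rw [norm_div, norm_mul, norm_mul, norm_mul, Complex.norm_real (Real.log _), Real.norm_eq_abs,
      abs_of_nonneg (log_nonneg p.1)]
    have h4 : (1 : ℝ) ≤ ‖((p.2 : ℂ) + 1)‖ := by
      have : ((p.2 : ℂ) + 1) = ((p.2 + 1 : ℕ) : ℂ) := by push_cast; rfl
      rw [this, Complex.norm_natCast]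
      exact_mod_cast Nat.succ_pos p.2
    set A := ‖(lam f p.1 (p.2 + 1) : ℂ)‖ * ‖((nm p.1 : ℂ) ^ (-s)) ^ (p.2 + 1)‖ with hA
    have hA0 : 0 ≤ A := by positivity
    have h5 : A / ‖((p.2 : ℂ) + 1)‖ ≤ A := div_le_self hA0 h4
    refine h5.trans ?_
    have h6 : 1 / Real.log 2 * (‖(lam f p.1 (p.2 + 1) : ℂ)‖ * Real.log (nm p.1) *
        ‖((nm p.1 : ℂ) ^ (-s)) ^ (p.2 + 1)‖) = (Real.log (nm p.1) / Real.log 2) * A := by
      rw [hA]
      ring
    rw [h6]
    exact le_mul_of_one_le_left hA0 ((one_le_div hl2).2 h3)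
  exact h2.trans (mul_le_mul_of_nonneg_left h1 (by positivity))

theorem lt_deriv (f : (𝓞 K)[X]) (p : HeightOneSpectrum (𝓞 K) × ℕ) (s : ℂ) :
    HasDerivAt (lt f p) (-tm (lam f p.1 (p.2 + 1)) p.1 (p.2 + 1) s) s := by
  have h1 := (((hasDeriv_cpow p.1 s).pow (p.2 + 1)).const_mul (lam f p.1 (p.2 + 1) : ℂ)).div_const
    ((p.2 : ℂ) + 1)
  refine h1.congr_deriv ?_
  have h2 : ((p.2 : ℂ) + 1) ≠ 0 := by exact_mod_cast Nat.succ_ne_zero p.2
  unfold tm
  rw [Nat.add_sub_cancel, pow_succ]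
  push_cast
  field_simp

theorem lam_hasDeriv (hf : f.Monic) (hd : f.natDegree = 2 * g + 1) {s : ℂ} (hs : 3 / 2 < s.re) :
    HasDerivAt (Lam f) (-∑' p : HeightOneSpectrum (𝓞 K) × ℕ,
      tm (lam f p.1 (p.2 + 1)) p.1 (p.2 + 1) s) s := by
  have hopen : IsOpen {s : ℂ | (3 / 2 : ℝ) < s.re} := isOpen_lt continuous_const Complex.continuous_re
  have h1 := hol_tsum (f := lt f) (σ₀ := 3 / 2) (fun p s _ => (lt_deriv f p s).differentiableAt)
    fun σ hσ => lt_bd hf hd hσ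
  have h2 := deriv_tsum (f := lt f) (σ₀ := 3 / 2) (fun p s _ => (lt_deriv f p s).differentiableAt)
    (fun σ hσ => lt_bd hf hd hσ) hs
  have h3 : DifferentiableAt ℂ (Lam f) s := h1.differentiableAt (hopen.mem_nhds hs)
  have h4 := h3.hasDerivAt
  refine h4.congr_deriv ?_
  have h5 : deriv (fun s => ∑' p, lt f p s) s = deriv (Lam f) s := rfl
  rw [h5] at h2
  rw [← tsum_neg, ← h2.tsum_eq]
  exact tsum_congr fun p => (lt_deriv f p s).deriv

/-- an L-function whose logarithm is `Lam f` -/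
theorem logDeriv_eq (hf : f.Monic) (hd : f.natDegree = 2 * g + 1) {F : ℂ → ℂ}
    (hF : ∀ s : ℂ, 3 / 2 < s.re → F s = cexp (Lam f s)) {s : ℂ} (hs : 3 / 2 < s.re) :
    logDeriv F s = -∑' p : HeightOneSpectrum (𝓞 K) × ℕ,
      tm (lam f p.1 (p.2 + 1)) p.1 (p.2 + 1) s := by
  have hopen : IsOpen {s : ℂ | (3 / 2 : ℝ) < s.re} := isOpen_lt continuous_const Complex.continuous_re
  have h1 : F =ᶠ[𝓝 s] fun s => cexp (Lam f s) := by
    filter_upwards [hopen.mem_nhds hs] with z hz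
    exact hF z hz
  have h2 := (lam_hasDeriv hf hd hs).cexp
  rw [logDeriv_apply, h1.deriv_eq, h2.deriv, hF s hs, mul_div_cancel_left₀ _ (Complex.exp_ne_zero _)]

/-! ### The mean value -/

variable {r n : ℕ} {a : (𝓞 K)[X]} {α : Fin r → 𝓞 K}

/-- the average trace at `v` -/
noncomputable def Ev (a : (𝓞 K)[X]) (α : Fin r → 𝓞 K) (n : ℕ) (v : HeightOneSpectrum (𝓞 K))
    (m : ℕ) : ℝ := EE (red v a) (fun j => Ideal.Quotient.mk v.asIdeal (α j)) n m

theorem red_mem (v : HeightOneSpectrum (𝓞 K)) (h : Fin n → 𝓞 K) :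
    red v (mem a α h) = mem (red v a) (fun j => Ideal.Quotient.mk v.asIdeal (α j))
      (fun i => Ideal.Quotient.mk v.asIdeal (h i)) := mem_map _ _ _ _

/-- reduction of the parameters -/
noncomputable def rho (v : HeightOneSpectrum (𝓞 K)) (n : ℕ) :
    (Fin n → 𝓞 K) →+ (Fin n → 𝓞 K ⧸ v.asIdeal) where
  toFun h i := Ideal.Quotient.mk v.asIdeal (h i)
  map_zero' := by
    ext i
    exact map_zero _
  map_add' h h' := by
    ext i
    exact map_add _ _ _

theorem rho_surj (v : HeightOneSpectrum (𝓞 K)) (n : ℕ) : Function.Surjective (rho v n) := by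
  intro h
  choose u hu using fun i => Ideal.Quotient.mk_surjective (h i)
  exact ⟨u, funext hu⟩

theorem mean_term {F : ℕ → Finset (Fin n → 𝓞 K)} (hF : IsFolner F)
    (v : HeightOneSpectrum (𝓞 K)) (m : ℕ) (s : ℂ) :
    Tendsto (fun j => mean (F j) fun h => tm (lam (mem a α h) v m) v m s) atTop
      (𝓝 (tm (Ev a α n v m) v m s)) := by
  have h1 := mean_periodic hF (rho v n) (rho_surj v n) (fun h' =>
    tm (gtr (mem (red v a) (fun j => Ideal.Quotient.mk v.asIdeal (α j)) h') m) v m s)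
  have h2 : ∀ h : Fin n → 𝓞 K, tm (gtr (mem (red v a) (fun j => Ideal.Quotient.mk v.asIdeal (α j))
      (rho v n h)) m) v m s = tm (lam (mem a α h) v m) v m s := by
    intro h
    unfold lam
    rw [red_mem]
    rfl
  simp only [h2] at h1
  convert h1 using 2
  unfold Ev EE tm
  rw [Fintype.card_fun, Fintype.card_fin, ← Finset.sum_mul, ← Finset.sum_mul]
  push_cast
  ring

theorem mean_lim (ha : a.Monic) (hd : a.natDegree = 2 * g + 1) (hn : n + r ≤ 2 * g + 1)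
    {F : ℕ → Finset (Fin n → 𝓞 K)} (hF : IsFolner F) {s : ℂ} (hs : 3 / 2 < s.re) :
    Tendsto (fun j => mean (F j) fun h => ∑' p : HeightOneSpectrum (𝓞 K) × ℕ,
      tm (lam (mem a α h) p.1 (p.2 + 1)) p.1 (p.2 + 1) s) atTop
      (𝓝 (∑' p : HeightOneSpectrum (𝓞 K) × ℕ, tm (Ev a α n p.1 (p.2 + 1)) p.1 (p.2 + 1) s)) := by
  obtain ⟨σ, h1, h2⟩ := exists_between hs
  refine mean_tsum ((sum_geo (K := K) (τ := σ - 1 / 2) (j := 1) (by linarith)
    (by push_cast; linarith)).mul_left (2 * (g : ℝ))) (fun p h => ?_) fun p => mean_term hF _ _ _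
  obtain ⟨e1, e2⟩ := mem_monic ha hd hn α h
  exact tm_le p.1 p.2 1 (by linarith) h2.le (lam_bd e1 e2 p.1 (by omega))

/-! ### The average traces -/

theorem ev_bd (ha : a.Monic) (hd : a.natDegree = 2 * g + 1) (hn : n + r ≤ 2 * g + 1)
    (v : HeightOneSpectrum (𝓞 K)) {m : ℕ} (hm : 1 ≤ m) :
    |Ev a α n v m| ≤ 2 * g * √(nm v : ℝ) ^ m := by
  obtain ⟨e1, e2⟩ := red_deg ha hd v
  have h := ee_bd (α := fun j => Ideal.Quotient.mk v.asIdeal (α j)) e1 e2 hn hm
  rwa [card_q] at h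

theorem char_two (v : HeightOneSpectrum (𝓞 K)) :
    ringChar (𝓞 K ⧸ v.asIdeal) ≠ 2 ↔ (2 : 𝓞 K) ∉ v.asIdeal := by
  rw [not_iff_not, ← Ideal.Quotient.eq_zero_iff_mem]
  have e : Ideal.Quotient.mk v.asIdeal (2 : 𝓞 K) = ((2 : ℕ) : 𝓞 K ⧸ v.asIdeal) := by
    rw [map_ofNat]
    norm_num
  rw [e]
  constructor
  · intro h
    rw [← h]
    exact ringChar.Nat.cast_ringChar
  · intro h
    have h1 := ringChar.dvd h
    rcases (Nat.dvd_prime Nat.prime_two).1 h1 with h2 | h2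
    · exact (CharP.ringChar_ne_one h2).elim
    · exact h2

theorem finite_mem {d : 𝓞 K} (hd : d ≠ 0) :
    {v : HeightOneSpectrum (𝓞 K) | d ∈ v.asIdeal}.Finite := by
  have h := Ideal.finite_factors (I := Ideal.span {d}) (by
    rw [Ne, Ideal.zero_eq_bot, Ideal.span_singleton_eq_bot]
    exact hd)
  refine h.subset fun v hv => ?_
  show v.asIdeal ∣ Ideal.span {d}
  rw [Ideal.dvd_span_singleton]
  exact hv

theorem eval_red (v : HeightOneSpectrum (𝓞 K)) (x : 𝓞 K) :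
    (red v a).eval (Ideal.Quotient.mk v.asIdeal x) = Ideal.Quotient.mk v.asIdeal (a.eval x) := by
  unfold red
  rw [eval_map, eval₂_at_apply]

theorem ev_asym {y : Fin r → 𝓞 K} (ha : a.Monic) (hd : a.natDegree = 2 * g + 1)
    (hn : n + 2 + r = 2 * g + 1) (hα : Function.Injective α) (hy : ∀ j, a.eval (α j) = y j ^ 2)
    (hy0 : ∀ j, y j ≠ 0) : ∃ C : ℝ,
    (∀ v : HeightOneSpectrum (𝓞 K), |Ev a α (n + 2) v 1 + r| ≤ C * (nm v : ℝ) ^ (-(1 / 2) : ℝ)) ∧
    ∀ v : HeightOneSpectrum (𝓞 K), |Ev a α (n + 2) v 2 + nm v| ≤ C := by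
  classical
  set d : 𝓞 K := 2 * ((n + 2 : ℕ) : 𝓞 K) * (∏ j, y j) *
    ∏ z ∈ (Finset.univ : Finset (Fin r × Fin r)).filter (fun z => z.1 ≠ z.2), (α z.1 - α z.2) with hdd
  have hd0 : d ≠ 0 := by
    refine mul_ne_zero (mul_ne_zero (mul_ne_zero two_ne_zero ?_) ?_) ?_
    · exact_mod_cast Nat.succ_ne_zero (n + 1)
    · exact Finset.prod_ne_zero_iff.2 fun j _ => hy0 j
    · refine Finset.prod_ne_zero_iff.2 fun z hz => ?_
      exact sub_ne_zero.2 fun h => (Finset.mem_filter.1 hz).2 (hα h)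
  have hS := finite_mem hd0
  obtain ⟨C1, hC1⟩ : ∃ C1 : ℝ, C1 = ∑ v ∈ hS.toFinset,
      ((2 * g * √(nm v : ℝ) + r) * √(nm v : ℝ) + (2 * g * nm v + nm v)) := ⟨_, rfl⟩
  have hpos : ∀ v : HeightOneSpectrum (𝓞 K), 0 ≤ (2 * g * √(nm v : ℝ) + r) * √(nm v : ℝ) +
      (2 * g * nm v + nm v) := fun v => by positivity
  have hC10 : 0 ≤ C1 := by
    rw [hC1]
    exact Finset.sum_nonneg fun v _ => hpos v
  have hle : ∀ v : HeightOneSpectrum (𝓞 K), d ∈ v.asIdeal →
      (2 * g * √(nm v : ℝ) + r) * √(nm v : ℝ) + (2 * g * nm v + nm v) ≤ C1 := by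
    intro v hv
    rw [hC1]
    exact Finset.single_le_sum (fun v _ => hpos v) (hS.mem_toFinset.2 hv)
  have hgood : ∀ v : HeightOneSpectrum (𝓞 K), d ∉ v.asIdeal →
      ringChar (𝓞 K ⧸ v.asIdeal) ≠ 2 ∧ (((n + 2 : ℕ) : 𝓞 K ⧸ v.asIdeal)) ≠ 0 ∧
      Function.Injective (fun j => Ideal.Quotient.mk v.asIdeal (α j)) ∧
      (∀ j, (red v a).eval (Ideal.Quotient.mk v.asIdeal (α j)) =
        (Ideal.Quotient.mk v.asIdeal (y j)) ^ 2) ∧
      ∀ j, Ideal.Quotient.mk v.asIdeal (y j) ≠ 0 := by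
    intro v hv
    have hm : ∀ z : 𝓞 K, z ∣ d → z ∉ v.asIdeal := fun z hz h0 =>
      hv (Ideal.mem_of_dvd _ hz h0)
    refine ⟨(char_two v).2 (hm 2 ?_), ?_, ?_, ?_, ?_⟩
    · exact ((dvd_mul_right _ _).mul_right _).mul_right _
    · have h1 : (((n + 2 : ℕ) : 𝓞 K)) ∉ v.asIdeal := by
        refine hm _ ?_
        exact ((dvd_mul_left _ _).mul_right _).mul_right _
      rw [← Ideal.Quotient.eq_zero_iff_mem, map_natCast] at h1
      exact h1
    · intro i j hij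
      by_contra hne
      have h1 : α i - α j ∈ v.asIdeal := by
        rw [← Ideal.Quotient.eq_zero_iff_mem, map_sub]
        exact sub_eq_zero.2 hij
      refine hm _ ?_ h1
      refine (Finset.dvd_prod_of_mem (fun z : Fin r × Fin r => α z.1 - α z.2)
        (a := (i, j)) (Finset.mem_filter.2 ⟨Finset.mem_univ _, hne⟩)).mul_left _
    · intro j
      rw [eval_red, hy, map_pow]
    · intro j h1
      rw [Ideal.Quotient.eq_zero_iff_mem] at h1
      refine hm _ ?_ h1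
      exact ((Finset.dvd_prod_of_mem y (Finset.mem_univ j)).mul_left _).mul_right _
  refine ⟨C1 + (2 * g * (2 * g + r) + 1 + r), fun v => ?_, fun v => ?_⟩
  · have hq : (0 : ℝ) ≤ (nm v : ℝ) ^ (-(1 / 2) : ℝ) := by positivity
    by_cases hv : d ∈ v.asIdeal
    · have h1 := ev_bd (α := α) (n := n + 2) ha hd (by omega) v (m := 1) le_rfl
      rw [pow_one] at h1
      have h2 : |Ev a α (n + 2) v 1 + r| ≤ 2 * g * √(nm v : ℝ) + r := by
        refine (abs_add_le _ _).trans ?_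
        rw [Nat.abs_cast]
        linarith
      have h3 : √(nm v : ℝ) * (nm v : ℝ) ^ (-(1 / 2) : ℝ) = 1 := by
        rw [Real.sqrt_eq_rpow, ← Real.rpow_add (nm_pos v)]
        norm_num
      have h4 : (2 * g * √(nm v : ℝ) + r) * √(nm v : ℝ) ≤ C1 + (2 * g * (2 * g + r) + 1 + r) := by
        have := hle v hv
        have h5 : (0 : ℝ) ≤ 2 * g * nm v + nm v := by positivity
        have h6 : (0 : ℝ) ≤ 2 * g * (2 * g + r) + 1 + r := by positivity
        linarith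
      calc |Ev a α (n + 2) v 1 + r| ≤ 2 * g * √(nm v : ℝ) + r := h2
        _ = (2 * g * √(nm v : ℝ) + r) * √(nm v : ℝ) * (nm v : ℝ) ^ (-(1 / 2) : ℝ) := by
            rw [mul_assoc (2 * (g : ℝ) * √(nm v : ℝ) + r), h3, mul_one]
        _ ≤ _ := mul_le_mul_of_nonneg_right h4 hq
    · obtain ⟨g1, g2, g3, g4, g5⟩ := hgood v hv
      obtain ⟨e1, e2⟩ := red_deg ha hd v
      have h1 := ee_one (n := n + 1) g1 e1 e2 hn g2 g3 g4 g5
      rw [card_q] at h1
      refine h1.trans (mul_le_mul_of_nonneg_right ?_ hq)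
      have : (0 : ℝ) ≤ 1 + r := by positivity
      linarith
  · by_cases hv : d ∈ v.asIdeal
    · have h1 := ev_bd (α := α) (n := n + 2) ha hd (by omega) v (m := 2) (by norm_num)
      rw [Real.sq_sqrt (nm_pos v).le] at h1
      have h2 : |Ev a α (n + 2) v 2 + nm v| ≤ 2 * g * nm v + nm v := by
        refine (abs_add_le _ _).trans ?_
        rw [Nat.abs_cast]
        linarith
      have := hle v hv
      have h5 : (0 : ℝ) ≤ (2 * g * √(nm v : ℝ) + r) * √(nm v : ℝ) := by positivity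
      have h6 : (0 : ℝ) ≤ 2 * g * (2 * g + r) + 1 + r := by positivity
      linarith
    · obtain ⟨g1, g2, g3, g4, g5⟩ := hgood v hv
      obtain ⟨e1, e2⟩ := red_deg ha hd v
      have h1 := ee_two (n := n) g1 e1 e2 hn g2 g3 g4 g5
      rw [card_q] at h1
      exact h1.trans (by linarith)

end

end Pool.Agent.W5h26.AO
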