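import Pool.Agent.H341R2.WeilSharp

/-!
# Families of hyperelliptic curves over finite fields: the traces on average
-/

set_option autoImplicit false
set_option linter.unusedSectionVars false
set_option maxHeartbeats 400000

open Polynomial Finset

namespace Pool.Agent.W5h26.AO

/-- the polynomial `a + (h_0 + h_1 X + … + h_{n-1} X ^ (n-1)) ∏ (X - α_j)` -/
noncomputable def mem {R : Type} [CommRing R] {r n : ℕ} (a : R[X]) (α : Fin r → R)
    (h : Fin n → R) : R[X] :=
  a + (∑ i : Fin n, C (h i) * X ^ (i : ℕ)) * ∏ j, (X - C (α j))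

section ring

variable {R S : Type} [CommRing R] [CommRing S] {r n : ℕ}

theorem mem_map (a : R[X]) (α : Fin r → R) (h : Fin n → R) (φ : R →+* S) :
    (mem a α h).map φ = mem (a.map φ) (fun j => φ (α j)) (fun i => φ (h i)) := by
  unfold mem
  simp only [Polynomial.map_add, Polynomial.map_mul, Polynomial.map_sum, Polynomial.map_prod,
    Polynomial.map_sub, Polynomial.map_pow, map_C, map_X]

theorem mem_eval (a : R[X]) (α : Fin r → R) (h : Fin n → R) (x : R) :
    (mem a α h).eval x = a.eval x + (∑ i : Fin n, h i * x ^ (i : ℕ)) * ∏ j, (x - α j) := by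
  unfold mem
  simp only [eval_add, eval_mul, eval_prod, eval_finsetSum, eval_sub, eval_C, eval_pow, eval_X]

theorem low_degree (α : Fin r → R) (h : Fin n → R) :
    ((∑ i : Fin n, C (h i) * X ^ (i : ℕ)) * ∏ j, (X - C (α j)) : R[X]).degree < (n + r : ℕ) := by
  rcases Nat.eq_zero_or_pos n with rfl | hn
  · simp only [univ_eq_empty, sum_empty, zero_mul, degree_zero]
    exact WithBot.bot_lt_coe _
  have h1 : (∏ j, (X - C (α j)) : R[X]).degree ≤ (r : ℕ) := by
    refine degree_le_of_natDegree_le ((natDegree_prod_le _ _).trans ?_)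
    refine (sum_le_card_nsmul _ _ 1 fun j _ => natDegree_X_sub_C_le _).trans ?_
    simp
  have h2 : (∑ i : Fin n, C (h i) * X ^ (i : ℕ) : R[X]).degree < (n : ℕ) := by
    rw [degree_lt_iff_coeff_zero]
    intro m hm
    rw [finsetSum_coeff]
    refine sum_eq_zero fun i _ => ?_
    rw [coeff_C_mul, coeff_X_pow, if_neg (by have := i.2; omega), mul_zero]
  refine (degree_mul_le _ _).trans_lt ?_
  by_cases h0 : (∏ j, (X - C (α j)) : R[X]) = 0
  · rw [h0, degree_zero, WithBot.add_bot]
    exact WithBot.bot_lt_coe _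
  by_cases h0' : (∑ i : Fin n, C (h i) * X ^ (i : ℕ) : R[X]) = 0
  · rw [h0', degree_zero, WithBot.bot_add]
    exact WithBot.bot_lt_coe _
  rw [degree_eq_natDegree h0, degree_eq_natDegree h0'] at *
  rw [← Nat.cast_add, Nat.cast_lt]
  have e1 := WithBot.coe_lt_coe.1 h2
  have e2 := WithBot.coe_le_coe.1 h1
  have e1' : (∑ i : Fin n, C (h i) * X ^ (i : ℕ) : R[X]).natDegree < n := e1
  have e2' : (∏ j, (X - C (α j)) : R[X]).natDegree ≤ r := e2
  omega

theorem mem_monic [Nontrivial R] {a : R[X]} {g : ℕ} (ha : a.Monic) (hd : a.natDegree = 2 * g + 1)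
    (hr : n + r ≤ 2 * g + 1) (α : Fin r → R) (h : Fin n → R) :
    (mem a α h).Monic ∧ (mem a α h).natDegree = 2 * g + 1 := by
  have h1 : ((∑ i : Fin n, C (h i) * X ^ (i : ℕ)) * ∏ j, (X - C (α j)) : R[X]).degree < a.degree := by
    refine (low_degree α h).trans_le ?_
    rw [degree_eq_natDegree ha.ne_zero, hd]
    exact_mod_cast hr
  refine ⟨ha.add_of_left h1, ?_⟩
  unfold mem
  rw [natDegree_add_eq_left_of_degree_lt h1, hd]

end ring

/-! ### Sums over an affine map -/

theorem sum_affine {A Z : Type} [AddCommGroup A] [Fintype A] [AddCommGroup Z] [Fintype Z]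
    (L : A →+ Z) (hL : Function.Surjective L) (c : Z) (G : Z → ℝ) :
    (Fintype.card Z : ℝ) * ∑ h, G (c + L h) = Fintype.card A * ∑ z, G z := by
  have h1 : ∀ z : Z, ∑ h, G (c + z + L h) = ∑ h, G (c + L h) := by
    intro z
    obtain ⟨u, rfl⟩ := hL z
    refine Fintype.sum_equiv (Equiv.addLeft u) _ _ fun h => ?_
    rw [Equiv.coe_addLeft, map_add, add_assoc]
  have h2 : ∀ h : A, ∑ z, G (c + z + L h) = ∑ z, G z := by
    intro h
    refine Fintype.sum_equiv ((Equiv.addLeft c).trans (Equiv.addRight (L h))) _ _ fun z => ?_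
    simp
  calc (Fintype.card Z : ℝ) * ∑ h, G (c + L h) = ∑ z : Z, ∑ h, G (c + z + L h) := by
        rw [sum_congr rfl fun z _ => h1 z, sum_const, card_univ, nsmul_eq_mul]
    _ = ∑ h : A, ∑ z, G (c + z + L h) := sum_comm
    _ = _ := by rw [sum_congr rfl fun h _ => h2 h, sum_const, card_univ, nsmul_eq_mul]

/-! ### Character sums on average -/

section field

variable {k κ : Type} [Field k] [Fintype k] [DecidableEq k] [Field κ] [Fintype κ] [DecidableEq κ]
  {r n : ℕ}

/-- the character sum -/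
noncomputable def cs (f : κ[X]) : ℝ := ∑ x : κ, (quadraticChar κ (f.eval x) : ℝ)

theorem cs_weil (hF : ringChar κ ≠ 2) {f : κ[X]} {g : ℕ} (hd : f.natDegree = 2 * g + 1) :
    |cs f| ≤ 2 * g * √(Fintype.card κ) := by
  have h := H341R2.Sharp.weil_sharp hF f (by omega) (by
    intro c h he
    have h0 : f ≠ 0 := by
      rintro rfl
      simp at hd
    have hc : c ≠ 0 := by
      rintro rfl
      rw [map_zero, zero_mul] at he
      exact h0 he
    have hh : h ≠ 0 := by
      rintro rfl
      rw [zero_pow two_ne_zero, mul_zero] at he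
      exact h0 he
    have : f.natDegree = 2 * h.natDegree := by
      rw [he, natDegree_C_mul hc, natDegree_pow]
    omega)
  rw [hd] at h
  push_cast at h
  unfold cs
  convert h using 2
  ring

/-- the map of the parameters -/
noncomputable def Lx (φ : k →+* κ) (n : ℕ) (x P : κ) : (Fin n → k) →+ κ where
  toFun h := (∑ i : Fin n, φ (h i) * x ^ (i : ℕ)) * P
  map_zero' := by simp
  map_add' h h' := by
    rw [← add_mul, ← sum_add_distrib]
    congr 1
    refine sum_congr rfl fun i _ => ?_
    rw [Pi.add_apply, map_add, add_mul]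

theorem eval_eq (φ : k →+* κ) (a : k[X]) (α : Fin r → k) (h : Fin n → k) (x : κ) :
    ((mem a α h).map φ).eval x = (a.map φ).eval x + Lx φ n x (∏ j, (x - φ (α j))) h := by
  rw [mem_map, mem_eval]
  rfl

theorem Lx_surj_one {m : ℕ} {x P : k} (hP : P ≠ 0) :
    Function.Surjective (Lx (RingHom.id k) (m + 1) x P) := by
  intro c
  refine ⟨Fin.cons (c / P) 0, ?_⟩
  show (∑ i : Fin (m + 1), (Fin.cons (c / P) 0 : Fin (m + 1) → k) i * x ^ (i : ℕ)) * P = c
  rw [Fin.sum_univ_succ]
  simp only [Fin.cons_zero, Fin.cons_succ, Pi.zero_apply, zero_mul, sum_const_zero, add_zero,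
    Fin.val_zero, pow_zero, mul_one]
  exact div_mul_cancel₀ c hP

theorem Lx_surj_two (φ : k →+* κ) (hc : Fintype.card κ = Fintype.card k ^ 2) {m : ℕ} {x P : κ}
    (hx : ∀ z, φ z ≠ x) (hP : P ≠ 0) : Function.Surjective (Lx φ (m + 2) x P) := by
  have h1 : Function.Injective (fun u : k × k => φ u.1 + φ u.2 * x) := by
    rintro ⟨u, v⟩ ⟨u', v'⟩ h
    simp only at h
    have h2 : φ (u - u') = φ (v' - v) * x := by
      rw [map_sub, map_sub]
      linear_combination h
    have h3 : v' - v = 0 := by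
      by_contra h0
      apply hx ((u - u') / (v' - v))
      rw [map_div₀, h2, mul_div_cancel_left₀]
      exact (map_ne_zero φ).2 h0
    have h4 : v' = v := sub_eq_zero.1 h3
    rw [h3, map_zero, zero_mul] at h2
    have h5 : u = u' := sub_eq_zero.1 ((map_eq_zero φ).1 h2)
    rw [h4, h5]
  have h2 : Function.Bijective (fun u : k × k => φ u.1 + φ u.2 * x) := by
    rw [Fintype.bijective_iff_injective_and_card]
    refine ⟨h1, ?_⟩
    rw [Fintype.card_prod, hc, sq]
  intro c
  obtain ⟨⟨u, v⟩, huv⟩ := h2.2 (c / P)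
  refine ⟨Fin.cons u (Fin.cons v 0), ?_⟩
  show (∑ i : Fin (m + 2), φ ((Fin.cons u (Fin.cons v 0) : Fin (m + 2) → k) i) * x ^ (i : ℕ)) * P = c
  rw [Fin.sum_univ_succ, Fin.sum_univ_succ]
  simp only [Fin.cons_zero, Fin.cons_succ, Pi.zero_apply, zero_mul, sum_const_zero, add_zero,
    Fin.val_zero, pow_zero, mul_one, map_zero]
  have e : ((Fin.succ (0 : Fin (m + 1)) : Fin (m + 2)) : ℕ) = 1 := rfl
  rw [e, pow_one]
  simp only at huv
  rw [huv]
  exact div_mul_cancel₀ c hP

theorem sum_qc (hF : ringChar κ ≠ 2) : ∑ z : κ, (quadraticChar κ z : ℝ) = 0 := by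
  have h := quadraticChar_sum_zero (F := κ) hF
  exact_mod_cast congrArg (Int.cast : ℤ → ℝ) h

variable {a : k[X]} {α : Fin r → k} {y : Fin r → k}

theorem prod_ne_zero {x : k} (hx : ∀ j, α j ≠ x) : ∏ j, (x - α j) ≠ 0 :=
  prod_ne_zero_iff.2 fun j _ => sub_ne_zero.2 (hx j).symm

theorem qc_one {z : κ} (hz : z ≠ 0) : (quadraticChar κ (z ^ 2) : ℝ) = 1 := by
  rw [quadraticChar_sq_one' hz]
  norm_num

/-- the value at one of the points -/
theorem eval_point (φ : k →+* κ) (hy : ∀ j, a.eval (α j) = y j ^ 2) (h : Fin n → k) (j : Fin r) :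
    ((mem a α h).map φ).eval (φ (α j)) = φ (y j) ^ 2 := by
  rw [eval_map, eval₂_at_apply, mem_eval, prod_eq_zero (mem_univ j) (sub_self _), mul_zero, add_zero,
    hy j, map_pow]

/-- the sum over the values at the given points -/
theorem sum_points (φ : k →+* κ) (hα : Function.Injective α) (hy : ∀ j, a.eval (α j) = y j ^ 2)
    (hy0 : ∀ j, y j ≠ 0) :
    ∑ x ∈ univ.image (fun j => φ (α j)), ∑ h : Fin n → k,
      (quadraticChar κ (((mem a α h).map φ).eval x) : ℝ) = r * (Fintype.card k : ℝ) ^ n := by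
  rw [sum_image (fun i _ j _ hij => hα (φ.injective hij))]
  have : ∀ j : Fin r, ∑ h : Fin n → k,
      (quadraticChar κ (((mem a α h).map φ).eval (φ (α j))) : ℝ) = (Fintype.card k : ℝ) ^ n := by
    intro j
    have h1 : ∀ h : Fin n → k,
        (quadraticChar κ (((mem a α h).map φ).eval (φ (α j))) : ℝ) = 1 := fun h => by
      rw [eval_point φ hy]
      exact qc_one ((map_ne_zero φ).2 (hy0 j))
    rw [sum_congr rfl fun h _ => h1 h, sum_const, card_univ, Fintype.card_fun, Fintype.card_fin,
      nsmul_eq_mul, mul_one]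
    push_cast
    rfl
  rw [sum_congr rfl fun j _ => this j, sum_const, card_univ, Fintype.card_fin, nsmul_eq_mul]

/-- the average of the character sum over the field -/
theorem avg_one (hF : ringChar k ≠ 2) {m : ℕ} (hα : Function.Injective α)
    (hy : ∀ j, a.eval (α j) = y j ^ 2) (hy0 : ∀ j, y j ≠ 0) :
    ∑ h : Fin (m + 1) → k, cs (mem a α h) = r * (Fintype.card k : ℝ) ^ (m + 1) := by
  unfold cs
  rw [sum_comm]
  have h1 := sum_points (n := m + 1) (RingHom.id k) hα hy hy0
  simp only [Polynomial.map_id, RingHom.id_apply] at h1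
  rw [← h1]
  symm
  apply sum_subset (subset_univ _)
  intro x _ hx
  have hx' : ∀ j, α j ≠ x := fun j h0 => hx (mem_image.2 ⟨j, mem_univ j, h0⟩)
  have h2 := sum_affine (Lx (RingHom.id k) (m + 1) x (∏ j, (x - α j)))
    (Lx_surj_one (prod_ne_zero hx')) (a.eval x) (fun z => (quadraticChar k z : ℝ))
  rw [sum_qc hF, mul_zero] at h2
  have h3 : (Fintype.card k : ℝ) ≠ 0 := by exact_mod_cast Fintype.card_ne_zero
  have h4 := (mul_eq_zero.1 h2).resolve_left h3
  rw [← h4]
  refine sum_congr rfl fun h _ => ?_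
  have h5 := eval_eq (RingHom.id k) a α h x
  simp only [Polynomial.map_id, RingHom.id_apply] at h5
  rw [h5]

omit [Fintype k] [DecidableEq k] [Fintype κ] [DecidableEq κ] in
theorem char_ne (φ : k →+* κ) (hF : ringChar k ≠ 2) : ringChar κ ≠ 2 := by
  have h1 : CharP κ (ringChar k) := charP_of_injective_ringHom φ.injective (ringChar k)
  rwa [ringChar.eq_iff.2 h1]

theorem qc_sub (φ : k →+* κ) (hF : ringChar k ≠ 2) (hc : Fintype.card κ = Fintype.card k ^ 2)
    (z : k) : (quadraticChar κ (φ z) : ℝ) = if z = 0 then 0 else 1 := by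
  have hF' : ringChar κ ≠ 2 := char_ne φ hF
  split_ifs with h
  · rw [h, map_zero, MulChar.map_zero]
    norm_num
  · have h1 : IsSquare (φ z) := by
      rw [FiniteField.isSquare_iff hF' ((map_ne_zero φ).2 h), ← map_pow]
      have h2 : (Fintype.card κ) / 2 = (Fintype.card k - 1) * ((Fintype.card k + 1) / 2) := by
        have h3 : Fintype.card k % 2 = 1 := FiniteField.odd_card_of_char_ne_two hF
        obtain ⟨t, ht⟩ : ∃ t, Fintype.card k = 2 * t + 1 := ⟨Fintype.card k / 2, by omega⟩
        rw [hc, ht]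
        have e1 : (2 * t + 1) ^ 2 / 2 = 2 * t * (t + 1) := by
          have : (2 * t + 1) ^ 2 = 2 * (2 * t * (t + 1)) + 1 := by ring
          omega
        have e2 : (2 * t + 1 + 1) / 2 = t + 1 := by omega
        rw [e1, e2, Nat.add_sub_cancel]
      rw [h2, pow_mul, FiniteField.pow_card_sub_one_eq_one z h, one_pow, map_one]
    rw [(quadraticChar_one_iff_isSquare ((map_ne_zero φ).2 h)).2 h1]
    norm_num

/-- the average of the character sum over the quadratic extension -/
theorem avg_two (φ : k →+* κ) (hF : ringChar k ≠ 2) (hc : Fintype.card κ = Fintype.card k ^ 2)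
    {m : ℕ} (hα : Function.Injective α) (hy : ∀ j, a.eval (α j) = y j ^ 2) (hy0 : ∀ j, y j ≠ 0) :
    ∑ h : Fin (m + 2) → k, cs ((mem a α h).map φ) =
      (Fintype.card k : ℝ) ^ (m + 1) * ((Fintype.card k : ℝ) ^ 2 - Fintype.card k + r) := by
  have hF' : ringChar κ ≠ 2 := char_ne φ hF
  have h0 : (Fintype.card k : ℝ) ≠ 0 := by exact_mod_cast Fintype.card_ne_zero
  unfold cs
  rw [sum_comm]
  have h1 := sum_points (n := m + 2) φ hα hy hy0
  -- the points of the small field
  have h2 : ∑ x ∈ univ.image φ, ∑ h : Fin (m + 2) → k,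
      (quadraticChar κ (((mem a α h).map φ).eval x) : ℝ) =
      (Fintype.card k : ℝ) ^ (m + 1) * ((Fintype.card k : ℝ) ^ 2 - Fintype.card k + r) := by
    have hsub : univ.image (fun j => φ (α j)) ⊆ univ.image φ := by
      intro x hx
      obtain ⟨j, -, rfl⟩ := mem_image.1 hx
      exact mem_image_of_mem _ (mem_univ _)
    rw [← sum_sdiff hsub, h1]
    have h3 : ∀ x ∈ univ.image φ \ univ.image (fun j => φ (α j)), ∑ h : Fin (m + 2) → k,
        (quadraticChar κ (((mem a α h).map φ).eval x) : ℝ) =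
        (Fintype.card k : ℝ) ^ (m + 1) * (Fintype.card k - 1) := by
      intro x hx
      rw [mem_sdiff, mem_image, mem_image] at hx
      obtain ⟨⟨z, -, rfl⟩, hx2⟩ := hx
      have hz : ∀ j, α j ≠ z := fun j h => hx2 ⟨j, mem_univ j, by rw [h]⟩
      have h4 := sum_affine (Lx (RingHom.id k) (m + 2) z (∏ j, (z - α j)))
        (Lx_surj_one (prod_ne_zero hz)) (a.eval z) (fun w => (quadraticChar κ (φ w) : ℝ))
      have h5 : ∑ w : k, (quadraticChar κ (φ w) : ℝ) = Fintype.card k - 1 := by
        simp only [qc_sub φ hF hc]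
        rw [sum_ite, sum_const_zero, zero_add, sum_const, nsmul_eq_mul, mul_one,
          filter_ne' univ (0 : k), card_erase_of_mem (mem_univ _), card_univ,
          Nat.cast_pred Fintype.card_pos]
      rw [h5, Fintype.card_fun, Fintype.card_fin] at h4
      have h6 : ∀ h : Fin (m + 2) → k, (quadraticChar κ (((mem a α h).map φ).eval (φ z)) : ℝ) =
          (quadraticChar κ (φ (a.eval z + Lx (RingHom.id k) (m + 2) z (∏ j, (z - α j)) h)) : ℝ) := by
        intro h
        have h7 := eval_eq (RingHom.id k) a α h z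
        simp only [Polynomial.map_id, RingHom.id_apply] at h7
        rw [← h7, eval_map, eval₂_at_apply]
      rw [sum_congr rfl fun h _ => h6 h]
      apply mul_left_cancel₀ h0
      rw [h4]
      push_cast
      ring
    rw [sum_congr rfl h3, sum_const, nsmul_eq_mul, card_sdiff_of_subset hsub,
      card_image_of_injective _ φ.injective, card_univ,
      card_image_of_injective univ (f := fun j => φ (α j)) (fun i j hij => hα (φ.injective hij)),
      card_univ, Fintype.card_fin, Nat.cast_sub (by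
        have := Fintype.card_le_of_injective α hα
        rwa [Fintype.card_fin] at this)]
    ring
  rw [← h2]
  symm
  apply sum_subset (subset_univ _)
  intro x _ hx
  have hx' : ∀ z, φ z ≠ x := fun z h => hx (mem_image.2 ⟨z, mem_univ z, h⟩)
  have hP : ∏ j, (x - φ (α j)) ≠ 0 :=
    prod_ne_zero_iff.2 fun j _ => sub_ne_zero.2 (hx' _).symm
  have h3 := sum_affine (Lx φ (m + 2) x (∏ j, (x - φ (α j)))) (Lx_surj_two φ hc hx' hP)
    ((a.map φ).eval x) (fun z => (quadraticChar κ z : ℝ))
  rw [sum_qc hF', mul_zero] at h3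
  have h4 : (Fintype.card κ : ℝ) ≠ 0 := by exact_mod_cast Fintype.card_ne_zero
  rw [← (mul_eq_zero.1 h3).resolve_left h4]
  refine sum_congr rfl fun h _ => ?_
  rw [eval_eq φ a α h x]

end field

end Pool.Agent.W5h26.AO
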