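import Pool.Agent.W5h26.AO.Avg

/-!
# The second moment of the traces
-/

set_option autoImplicit false
set_option linter.unusedSectionVars false
set_option maxHeartbeats 400000

open Polynomial Finset

namespace Pool.Agent.W5h26.AO

section

variable {k : Type} [Field k] [Fintype k] [DecidableEq k] {r n g m : ℕ} {a : k[X]} {α y : Fin r → k}

/-- the values at two points -/
noncomputable def Lxx (n : ℕ) (x P x' P' : k) : (Fin n → k) →+ k × k :=
  (Lx (RingHom.id k) n x P).prod (Lx (RingHom.id k) n x' P')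

theorem Lxx_surj {x P x' P' : k} (hx : x ≠ x') (hP : P ≠ 0) (hP' : P' ≠ 0) :
    Function.Surjective (Lxx (m + 2) x P x' P') := by
  rintro ⟨c, c'⟩
  have hxx : x - x' ≠ 0 := sub_ne_zero.2 hx
  set v := (c / P - c' / P') / (x - x') with hv
  set u := c / P - v * x with hu
  have hcalc : ∀ z Q : k, Lx (RingHom.id k) (m + 2) z Q (Fin.cons u (Fin.cons v 0)) =
      (u + v * z) * Q := by
    intro z Q
    show (∑ i : Fin (m + 2), (Fin.cons u (Fin.cons v 0) : Fin (m + 2) → k) i * z ^ (i : ℕ)) * Q = _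
    rw [Fin.sum_univ_succ, Fin.sum_univ_succ]
    simp only [Fin.cons_zero, Fin.cons_succ, Pi.zero_apply, zero_mul, sum_const_zero, add_zero,
      Fin.val_zero, pow_zero, mul_one]
    have e : ((Fin.succ (0 : Fin (m + 1)) : Fin (m + 2)) : ℕ) = 1 := rfl
    rw [e, pow_one]
  refine ⟨Fin.cons u (Fin.cons v 0), Prod.ext ?_ ?_⟩
  · show Lx (RingHom.id k) (m + 2) x P _ = c
    rw [hcalc, hu]
    field_simp
    ring
  · show Lx (RingHom.id k) (m + 2) x' P' _ = c'
    rw [hcalc, hu, hv]
    field_simp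
    ring

theorem eval_id (a : k[X]) (α : Fin r → k) (h : Fin n → k) (x : k) :
    (mem a α h).eval x = a.eval x + Lx (RingHom.id k) n x (∏ j, (x - α j)) h := by
  have h7 := eval_eq (RingHom.id k) a α h x
  simpa only [Polynomial.map_id, RingHom.id_apply] using h7

/-- the sum of the squares of the character sums -/
theorem avg_sq (hF : ringChar k ≠ 2) (hα : Function.Injective α)
    (hy : ∀ j, a.eval (α j) = y j ^ 2) (hy0 : ∀ j, y j ≠ 0) :
    ∑ h : Fin (m + 2) → k, cs (mem a α h) ^ 2 = (Fintype.card k : ℝ) ^ (m + 1) *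
      (((Fintype.card k : ℝ) - r) * (Fintype.card k - 1) + r ^ 2 * Fintype.card k) := by
  have hq0 : (Fintype.card k : ℝ) ≠ 0 := by exact_mod_cast Fintype.card_ne_zero
  set A : Finset k := univ.image α with hA
  have hAc : A.card = r := by rw [hA, card_image_of_injective _ hα, card_univ, Fintype.card_fin]
  set χ : k → ℝ := fun z => (quadraticChar k z : ℝ) with hχ
  set S : (Fin (m + 2) → k) → ℝ := fun h => ∑ x ∈ Aᶜ, χ ((mem a α h).eval x) with hS
  have hnot : ∀ x ∈ Aᶜ, ∀ j, α j ≠ x := by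
    intro x hx j h
    rw [mem_compl] at hx
    exact hx (mem_image.2 ⟨j, mem_univ j, h⟩)
  have h1 : ∀ h, cs (mem a α h) = r + S h := by
    intro h
    unfold cs
    rw [← sum_add_sum_compl A]
    congr 1
    rw [sum_congr rfl (g := fun _ => (1 : ℝ)) ?_, sum_const, hAc, nsmul_eq_mul, mul_one]
    intro x hx
    obtain ⟨j, -, rfl⟩ := mem_image.1 hx
    have h2 := eval_point (RingHom.id k) hy h j
    simp only [Polynomial.map_id, RingHom.id_apply] at h2
    rw [h2]
    exact qc_one (hy0 j)
  -- the first moment of `S`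
  have h2 : ∑ h, S h = 0 := by
    have h3 := avg_one (m := m + 1) hF hα hy hy0
    simp only [h1, sum_add_distrib, sum_const, card_univ, Fintype.card_fun, Fintype.card_fin,
      nsmul_eq_mul] at h3
    push_cast at h3
    linarith
  -- the second moment
  have h3 : ∑ h, S h ^ 2 = (Fintype.card k : ℝ) ^ (m + 1) * (((Fintype.card k : ℝ) - r) *
      (Fintype.card k - 1)) := by
    have e1 : ∀ h, S h ^ 2 = ∑ x ∈ Aᶜ, ∑ x' ∈ Aᶜ, χ ((mem a α h).eval x) * χ ((mem a α h).eval x') := by
      intro h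
      rw [sq, hS, sum_mul_sum]
    rw [sum_congr rfl fun h _ => e1 h, sum_comm]
    have e2 : ∀ x ∈ Aᶜ, ∑ h : Fin (m + 2) → k, ∑ x' ∈ Aᶜ,
        χ ((mem a α h).eval x) * χ ((mem a α h).eval x') =
        (Fintype.card k : ℝ) ^ (m + 1) * (Fintype.card k - 1) := by
      intro x hx
      rw [sum_comm, ← add_sum_erase _ _ hx]
      have e3 : ∑ h : Fin (m + 2) → k, χ ((mem a α h).eval x) * χ ((mem a α h).eval x) =
          (Fintype.card k : ℝ) ^ (m + 1) * (Fintype.card k - 1) := by
        have h4 := sum_affine (Lx (RingHom.id k) (m + 2) x (∏ j, (x - α j)))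
          (Lx_surj_one (prod_ne_zero (hnot x hx))) (a.eval x) (fun w => χ w * χ w)
        have h5 : ∑ w : k, χ w * χ w = Fintype.card k - 1 := by
          have h6 : ∀ w : k, χ w * χ w = if w = 0 then 0 else 1 := by
            intro w
            split_ifs with hw
            · simp [hχ, hw]
            · have := quadraticChar_sq_one hw
              have h7 : χ w ^ 2 = 1 := by
                simp only [hχ]
                exact_mod_cast congrArg (Int.cast : ℤ → ℝ) this
              rw [← sq, h7]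
          rw [sum_congr rfl fun w _ => h6 w, sum_ite, sum_const_zero, zero_add, sum_const,
            nsmul_eq_mul, mul_one, filter_ne' univ (0 : k), card_erase_of_mem (mem_univ _),
            card_univ, Nat.cast_pred Fintype.card_pos]
        rw [h5, Fintype.card_fun, Fintype.card_fin] at h4
        apply mul_left_cancel₀ hq0
        simp only [eval_id]
        rw [h4]
        push_cast
        ring
      have e4 : ∑ x' ∈ Aᶜ.erase x, ∑ h : Fin (m + 2) → k,
          χ ((mem a α h).eval x) * χ ((mem a α h).eval x') = 0 := by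
        refine sum_eq_zero fun x' hx' => ?_
        obtain ⟨hne, hx'2⟩ := mem_erase.1 hx'
        have h4 := sum_affine (Lxx (m + 2) x (∏ j, (x - α j)) x' (∏ j, (x' - α j)))
          (Lxx_surj hne.symm (prod_ne_zero (hnot x hx)) (prod_ne_zero (hnot x' hx'2)))
          (a.eval x, a.eval x') (fun w => χ w.1 * χ w.2)
        have h5 : ∑ w : k × k, χ w.1 * χ w.2 = 0 := by
          rw [Fintype.sum_prod_type]
          simp only
          rw [← Fintype.sum_mul_sum, sum_qc hF, zero_mul]
        rw [h5, mul_zero] at h4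
        have h6 : (Fintype.card (k × k) : ℝ) ≠ 0 := by
          rw [Fintype.card_prod]
          push_cast
          exact mul_ne_zero hq0 hq0
        have h7 := (mul_eq_zero.1 h4).resolve_left h6
        rw [← h7]
        refine sum_congr rfl fun h _ => ?_
        rw [eval_id, eval_id]
        rfl
      rw [e3, e4, add_zero]
    rw [sum_congr rfl e2, sum_const, card_compl, hAc, nsmul_eq_mul, Nat.cast_sub (by
      have := Fintype.card_le_of_injective α hα
      rwa [Fintype.card_fin] at this)]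
    ring
  have h4 : ∀ h, cs (mem a α h) ^ 2 = r ^ 2 + 2 * r * S h + S h ^ 2 := by
    intro h
    rw [h1]
    ring
  rw [sum_congr rfl fun h _ => h4 h, sum_add_distrib, sum_add_distrib, ← mul_sum, h2, h3, sum_const,
    card_univ, Fintype.card_fun, Fintype.card_fin, nsmul_eq_mul]
  push_cast
  ring

end

section

variable {k : Type} [Field k] [Fintype k] {r n g m : ℕ} {a : k[X]} {α y : Fin r → k}

/-- the average of the square of the trace -/
noncomputable def EQ (a : k[X]) (α : Fin r → k) (n : ℕ) : ℝ :=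
  (∑ h : Fin n → k, gtr (mem a α h) 1 ^ 2) / (Fintype.card k : ℝ) ^ n

theorem eq_bd (ha : a.Monic) (hd : a.natDegree = 2 * g + 1) (hn : n + r ≤ 2 * g + 1) :
    |EQ a α n| ≤ 4 * g ^ 2 * (Fintype.card k : ℝ) := by
  have hq : (0 : ℝ) < Fintype.card k := by exact_mod_cast Fintype.card_pos
  unfold EQ
  rw [abs_div, abs_of_pos (by positivity : (0 : ℝ) < (Fintype.card k : ℝ) ^ n),
    div_le_iff₀ (by positivity)]
  have h1 : ∀ h ∈ (univ : Finset (Fin n → k)), |gtr (mem a α h) 1 ^ 2| ≤
      4 * g ^ 2 * (Fintype.card k : ℝ) := by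
    intro h _
    have h2 := gtr_bd (mem_monic ha hd hn α h).2 (m := 1) le_rfl
    rw [pow_one] at h2
    rw [abs_pow]
    refine (pow_le_pow_left₀ (abs_nonneg _) h2 2).trans (le_of_eq ?_)
    rw [mul_pow, Real.sq_sqrt hq.le]
    ring
  refine (abs_sum_le_sum_abs _ _).trans ((sum_le_card_nsmul _ _ _ h1).trans (le_of_eq ?_))
  rw [card_univ, Fintype.card_fun, Fintype.card_fin, nsmul_eq_mul]
  push_cast
  ring

theorem eq_asym (hF : ringChar k ≠ 2) (ha : a.Monic) (hd : a.natDegree = 2 * g + 1)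
    (hn : n + 2 + r = 2 * g + 1) (hk : ((n + 2 : ℕ) : k) ≠ 0) (hα : Function.Injective α)
    (hy : ∀ j, a.eval (α j) = y j ^ 2) (hy0 : ∀ j, y j ≠ 0) :
    |EQ a α (n + 2) - Fintype.card k| ≤ 4 * g ^ 2 * (2 * g + r) + 1 + 2 * r + r ^ 2 := by
  classical
  have hq : (0 : ℝ) < Fintype.card k := by exact_mod_cast Fintype.card_pos
  have hq1 : (1 : ℝ) ≤ Fintype.card k := by exact_mod_cast Fintype.card_pos (α := k)
  have h1 := avg_sq (m := n) hF hα hy hy0
  -- the bad members
  have h2 : |∑ h : Fin (n + 2) → k, (tr (mem a α h) 1 : ℝ) ^ 2 -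
      ∑ h : Fin (n + 2) → k, gtr (mem a α h) 1 ^ 2| ≤
      4 * g ^ 2 * (Fintype.card k : ℝ) * ((2 * g + r) * (Fintype.card k : ℝ) ^ (n + 1)) := by
    rw [← sum_sub_distrib]
    have h1 : ∀ h : Fin (n + 2) → k, (tr (mem a α h) 1 : ℝ) ^ 2 - gtr (mem a α h) 1 ^ 2 =
        if ¬ (mem a α h).Separable then (tr (mem a α h) 1 : ℝ) ^ 2 else 0 := by
      intro h
      unfold gtr
      by_cases hs : (mem a α h).Separable
      · rw [if_pos ⟨hF, hs⟩, if_neg (not_not.2 hs), sub_self]
      · rw [if_neg (fun h0 => hs h0.2), if_pos hs]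
        ring
    rw [sum_congr rfl fun h _ => h1 h, ← sum_filter]
    refine (abs_sum_le_sum_abs _ _).trans ((sum_le_card_nsmul _ _ (4 * g ^ 2 *
      (Fintype.card k : ℝ)) fun h _ => ?_).trans ?_)
    · have h2 := tr_weil hF (mem_monic ha hd hn.le α h).2 (m := 1) le_rfl
      rw [pow_one] at h2
      rw [abs_pow]
      refine (pow_le_pow_left₀ (abs_nonneg _) h2 2).trans (le_of_eq ?_)
      rw [mul_pow, Real.sq_sqrt hq.le]
      ring
    rw [nsmul_eq_mul, mul_comm]
    refine mul_le_mul_of_nonneg_left ?_ (by positivity)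
    have h2 := bad_card (m := n + 1) ha hd hn hk hy hy0
    have h3 : ((univ.filter fun h : Fin (n + 1 + 1) → k => ¬ (mem a α h).Separable).card : ℝ) ≤
        (((2 * g + r) * Fintype.card k ^ (n + 1) : ℕ) : ℝ) := by exact_mod_cast h2
    refine le_trans (le_of_eq ?_) (h3.trans (le_of_eq ?_))
    · congr
    · push_cast
      ring
  have h3 : ∑ h : Fin (n + 2) → k, (tr (mem a α h) 1 : ℝ) ^ 2 = (Fintype.card k : ℝ) ^ (n + 1) *
      (((Fintype.card k : ℝ) - r) * (Fintype.card k - 1) + r ^ 2 * Fintype.card k) := by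
    rw [← h1]
    refine sum_congr rfl fun h _ => ?_
    rw [tr_eq (RingHom.id k) hF (by rw [pow_one]), Polynomial.map_id, neg_sq]
  rw [h3] at h2
  have h4 : EQ a α (n + 2) - Fintype.card k = (-1 - r + r / Fintype.card k + r ^ 2) -
      (((Fintype.card k : ℝ) ^ (n + 1) *
      (((Fintype.card k : ℝ) - r) * (Fintype.card k - 1) + r ^ 2 * Fintype.card k) -
      ∑ h : Fin (n + 2) → k, gtr (mem a α h) 1 ^ 2) / (Fintype.card k : ℝ) ^ (n + 2)) := by
    unfold EQ
    field_simp
    ring
  have h5 : |((Fintype.card k : ℝ) ^ (n + 1) *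
      (((Fintype.card k : ℝ) - r) * (Fintype.card k - 1) + r ^ 2 * Fintype.card k) -
      ∑ h : Fin (n + 2) → k, gtr (mem a α h) 1 ^ 2) / (Fintype.card k : ℝ) ^ (n + 2)| ≤
      4 * (g : ℝ) ^ 2 * (2 * g + r) := by
    rw [abs_div, abs_of_pos (by positivity : (0 : ℝ) < (Fintype.card k : ℝ) ^ (n + 2)),
      div_le_iff₀ (by positivity)]
    refine h2.trans (le_of_eq ?_)
    ring
  have h6 : |(-1 - r + r / Fintype.card k + r ^ 2 : ℝ)| ≤ 1 + 2 * r + r ^ 2 := by
    have h7 : (r : ℝ) / Fintype.card k ≤ r := div_le_self (Nat.cast_nonneg r) hq1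
    have h8 : (0 : ℝ) ≤ (r : ℝ) / Fintype.card k := by positivity
    have h9 : (0 : ℝ) ≤ (r : ℝ) ^ 2 := by positivity
    have h10 : (0 : ℝ) ≤ (r : ℝ) := by positivity
    rw [abs_le]
    constructor <;> linarith
  rw [h4]
  refine (abs_sub _ _).trans ?_
  linarith

end

end Pool.Agent.W5h26.AO
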