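import Pool.Agent.W5h26.AO.Crt
import Pool.Agent.W5h26.AO.Sq
import Pool.Agent.W5h26.AO.Exp
import Pool.Agent.W5h26.AO.Eul

/-!
# The local averages of the powers of the Euler factors
-/

set_option autoImplicit false
set_option linter.unusedSectionVars false
set_option maxHeartbeats 400000

open MeasureTheory Filter Topology Complex Set Polynomial
open NumberField IsDedekindDomain Pool.Agent.H921R2.TatePole
open Pool.Agent.R409.RA (fieldQuot finiteQuot)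

namespace Pool.Agent.W5h26.AO

open Pool.Agent.W5h26.EP

/-! ### Holomorphic products -/

theorem hol_tprod {ι : Type} {f : ι → ℂ → ℂ} {σ₀ : ℝ}
    (hf : ∀ i s, σ₀ < s.re → DifferentiableAt ℂ (f i) s)
    (hb : ∀ σ : ℝ, σ₀ < σ → ∃ u : ι → ℝ, Summable u ∧ ∀ i (s : ℂ), σ < s.re → ‖f i s - 1‖ ≤ u i) :
    DifferentiableOn ℂ (fun s => ∏' i, f i s) {s | σ₀ < s.re} := by
  intro s hs
  obtain ⟨σ, h1, h2⟩ := exists_between (show σ₀ < s.re from hs)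
  obtain ⟨u, hu, hfu⟩ := hb σ h1
  have hopen : IsOpen {s : ℂ | σ < s.re} := isOpen_lt continuous_const Complex.continuous_re
  have h3 := Summable.hasProdLocallyUniformlyOn_one_add (f := fun i s => f i s - 1) hopen hu
    (Eventually.of_forall fun i z hz => hfu i z hz)
    (fun i z hz => ((hf i z (h1.trans hz)).continuousAt.sub continuousAt_const).continuousWithinAt)
  simp only [add_sub_cancel] at h3
  have h4 : DifferentiableOn ℂ (fun s => ∏' i, f i s) {s | σ < s.re} := by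
    refine h3.differentiableOn (Eventually.of_forall fun T => ?_) hopen
    intro z hz
    refine DifferentiableAt.differentiableWithinAt ?_
    simpa [Finset.prod_fn] using DifferentiableAt.fun_finsetProd fun i _ => hf i z (h1.trans hz)
  exact (h4.differentiableAt (hopen.mem_nhds h2)).differentiableWithinAt

theorem hasProd_of_bd {ι : Type} {f : ι → ℂ} {u : ι → ℝ} (hu : Summable u)
    (h : ∀ i, ‖f i - 1‖ ≤ u i) : HasProd f (∏' i, f i) ∧ ((∀ i, f i ≠ 0) → ∏' i, f i ≠ 0) := by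
  have h1 : Summable fun i => ‖f i - 1‖ := Summable.of_nonneg_of_le (fun _ => norm_nonneg _) h hu
  have e : (fun i => 1 + (f i - 1)) = f := by
    funext i
    ring
  constructor
  · have h2 := (multipliable_one_add_of_summable h1).hasProd
    rw [e] at h2
    exact h2
  · intro h3
    have h4 := tprod_one_add_ne_zero_of_summable (f := fun i => f i - 1) (fun i => by
      have := h3 i
      simpa using this) h1
    rwa [e] at h4

section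

variable {K : Type} [Field K] [NumberField K] {r n g : ℕ}

/-- the logarithm of the Euler factor of a member modulo `v` -/
noncomputable def sl (a : (𝓞 K)[X]) (α : Fin r → 𝓞 K) (v : HeightOneSpectrum (𝓞 K))
    (h : Fin n → 𝓞 K ⧸ v.asIdeal) (s : ℂ) : ℂ :=
  ∑' m : ℕ, (gtr (mem (red v a) (fun j => Ideal.Quotient.mk v.asIdeal (α j)) h) (m + 1) : ℂ) *
    ((nm v : ℂ) ^ (-s)) ^ (m + 1) / (m + 1)

/-- the average of its power -/
noncomputable def EX (a : (𝓞 K)[X]) (α : Fin r → 𝓞 K) (n : ℕ) (w : ℂ)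
    (v : HeightOneSpectrum (𝓞 K)) (s : ℂ) : ℂ :=
  (∑ h : Fin n → 𝓞 K ⧸ v.asIdeal, cexp (w * sl a α v h s)) / (nm v : ℂ) ^ n

/-- `√N v N v ^ (-s)` -/
noncomputable def zz (v : HeightOneSpectrum (𝓞 K)) (s : ℂ) : ℂ :=
  ((√(nm v : ℝ) : ℝ) : ℂ) * (nm v : ℂ) ^ (-s)

theorem zz_norm (v : HeightOneSpectrum (𝓞 K)) (s : ℂ) :
    ‖zz v s‖ = (nm v : ℝ) ^ (-(s.re - 1 / 2)) := by
  unfold zz
  rw [norm_mul, norm_nm_cpow, Complex.norm_real, Real.norm_eq_abs, abs_of_nonneg (Real.sqrt_nonneg _),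
    Real.sqrt_eq_rpow, ← Real.rpow_add (nm_pos v)]
  congr 1
  ring

theorem sq_zz (v : HeightOneSpectrum (𝓞 K)) (s : ℂ) :
    zz v s ^ 2 = (nm v : ℂ) * ((nm v : ℂ) ^ (-s)) ^ 2 := by
  unfold zz
  rw [mul_pow, ← Complex.ofReal_pow, Real.sq_sqrt (nm_pos v).le]
  push_cast
  rfl

theorem zz_le {v : HeightOneSpectrum (𝓞 K)} {σ : ℝ} (hσ : 1 / 2 < σ) {s : ℂ} (hs : σ < s.re) :
    ‖zz v s‖ ≤ 2 ^ (-(σ - 1 / 2)) := by
  rw [zz_norm]
  exact (nm_rpow_le v (by linarith)).trans (nm_rpow_le_two v (by linarith))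

theorem rho_lt {σ : ℝ} (hσ : 1 / 2 < σ) : (2 : ℝ) ^ (-(σ - 1 / 2)) < 1 :=
  Real.rpow_lt_one_of_one_lt_of_neg (by norm_num) (by linarith)

variable {a : (𝓞 K)[X]} {α : Fin r → 𝓞 K}

/-- the normalised traces -/
noncomputable def tt (a : (𝓞 K)[X]) (α : Fin r → 𝓞 K) (v : HeightOneSpectrum (𝓞 K))
    (h : Fin n → 𝓞 K ⧸ v.asIdeal) (m : ℕ) : ℝ :=
  gtr (mem (red v a) (fun j => Ideal.Quotient.mk v.asIdeal (α j)) h) (m + 1) /
    √(nm v : ℝ) ^ (m + 1)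

theorem sqrt_pos (v : HeightOneSpectrum (𝓞 K)) : 0 < √(nm v : ℝ) := Real.sqrt_pos.2 (nm_pos v)

theorem sl_eq (v : HeightOneSpectrum (𝓞 K)) (h : Fin n → 𝓞 K ⧸ v.asIdeal) (s : ℂ) :
    sl a α v h s = SS (tt a α v h) (zz v s) := by
  unfold sl SS tt zz
  refine tsum_congr fun m => ?_
  have h1 : ((√(nm v : ℝ) : ℝ) : ℂ) ≠ 0 := by exact_mod_cast (sqrt_pos v).ne'
  rw [mul_pow]
  push_cast
  field_simp

theorem tt_bd (ha : a.Monic) (hd : a.natDegree = 2 * g + 1) (hn : n + r ≤ 2 * g + 1)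
    (v : HeightOneSpectrum (𝓞 K)) (h : Fin n → 𝓞 K ⧸ v.asIdeal) (m : ℕ) :
    |tt a α v h m| ≤ 2 * g := by
  obtain ⟨e1, e2⟩ := red_deg ha hd v
  have h1 := gtr_bd (m := m + 1) (mem_monic e1 e2 hn
    (fun j => Ideal.Quotient.mk v.asIdeal (α j)) h).2 (by omega)
  rw [card_q] at h1
  have h2 : 0 < √(nm v : ℝ) ^ (m + 1) := pow_pos (sqrt_pos v) _
  unfold tt
  rw [abs_div, abs_of_pos h2, div_le_iff₀ h2]
  exact h1

theorem sl_diff (ha : a.Monic) (hd : a.natDegree = 2 * g + 1) (hn : n + r ≤ 2 * g + 1)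
    (v : HeightOneSpectrum (𝓞 K)) (h : Fin n → 𝓞 K ⧸ v.asIdeal) {s : ℂ} (hs : 1 / 2 < s.re) :
    DifferentiableAt ℂ (sl a α v h) s := by
  have hopen : IsOpen {s : ℂ | (1 / 2 : ℝ) < s.re} := isOpen_lt continuous_const Complex.continuous_re
  refine DifferentiableOn.differentiableAt (s := {s : ℂ | (1 / 2 : ℝ) < s.re}) ?_
    (hopen.mem_nhds hs)
  unfold sl
  refine hol_tsum (fun m s _ => ?_) fun σ hσ => ?_
  · exact (((hasDeriv_cpow v s).differentiableAt.pow (m + 1)).const_mul _).div_const _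
  · refine ⟨fun m => 2 * g * ((2 : ℝ) ^ (-(σ - 1 / 2))) ^ (m + 1),
      ((geo_sum (by positivity) (rho_lt hσ) 1).summable).mul_left _, fun m s hs => ?_⟩
    have h1 := ss_term (tt_bd (α := α) ha hd hn v h) (zz v s) m
    have h2 : (tt a α v h m : ℂ) * zz v s ^ (m + 1) / (m + 1) =
        (gtr (mem (red v a) (fun j => Ideal.Quotient.mk v.asIdeal (α j)) h) (m + 1) : ℂ) *
          ((nm v : ℂ) ^ (-s)) ^ (m + 1) / (m + 1) := by
      unfold tt zz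
      have h1 : ((√(nm v : ℝ) : ℝ) : ℂ) ≠ 0 := by exact_mod_cast (sqrt_pos v).ne'
      rw [mul_pow]
      push_cast
      field_simp
    rw [← h2]
    refine h1.trans (mul_le_mul_of_nonneg_left ?_ (by positivity))
    exact pow_le_pow_left₀ (norm_nonneg _) (zz_le hσ hs) _

theorem ex_diff (ha : a.Monic) (hd : a.natDegree = 2 * g + 1) (hn : n + r ≤ 2 * g + 1) (w : ℂ)
    (v : HeightOneSpectrum (𝓞 K)) {s : ℂ} (hs : 1 / 2 < s.re) :
    DifferentiableAt ℂ (EX a α n w v) s := by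
  unfold EX
  refine DifferentiableAt.div_const ?_ _
  refine DifferentiableAt.fun_sum fun h _ => ?_
  exact ((sl_diff ha hd hn v h hs).const_mul w).cexp

/-- the average of the square of the trace at `v` -/
noncomputable def Eq (a : (𝓞 K)[X]) (α : Fin r → 𝓞 K) (n : ℕ) (v : HeightOneSpectrum (𝓞 K)) : ℝ :=
  EQ (red v a) (fun j => Ideal.Quotient.mk v.asIdeal (α j)) n

/-- the expansion of the average -/
theorem ex_expand (ha : a.Monic) (hd : a.natDegree = 2 * g + 1) (hn : n + r ≤ 2 * g + 1) (w : ℂ)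
    {σ : ℝ} (hσ : 1 / 2 < σ) : ∃ C : ℝ, 0 ≤ C ∧ ∀ (v : HeightOneSpectrum (𝓞 K)) (s : ℂ), σ < s.re →
      ‖EX a α n w v s - 1 - w * Ev a α n v 1 * (nm v : ℂ) ^ (-s) -
        w / 2 * (Ev a α n v 2 + w * Eq a α n v) * ((nm v : ℂ) ^ (-s)) ^ 2‖ ≤ C * ‖zz v s‖ ^ 3 := by
  obtain ⟨C, hC, hexp⟩ := exp_expand (B := 2 * g) (by positivity) (rho_lt hσ) w
  refine ⟨C, hC, fun v s hs => ?_⟩
  set x : ℂ := (nm v : ℂ) ^ (-s) with hx
  have hq : ((nm v : ℕ) : ℂ) ^ n ≠ 0 := pow_ne_zero _ (nmC_ne v)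
  have hq' : (0 : ℝ) < (nm v : ℝ) ^ n := by
    have := nm_pos v
    positivity
  have hsq : ((√(nm v : ℝ) : ℝ) : ℂ) ≠ 0 := by exact_mod_cast (sqrt_pos v).ne'
  set N : ℂ := (nm v : ℂ) ^ n with hN
  -- the terms
  set T : (Fin n → 𝓞 K ⧸ v.asIdeal) → ℂ := fun h => cexp (w * SS (tt a α v h) (zz v s)) - 1 -
    w * tt a α v h 0 * zz v s -
    w / 2 * (tt a α v h 1 + w * (tt a α v h 0 : ℂ) ^ 2) * zz v s ^ 2 with hT
  have hTb : ∀ h, ‖T h‖ ≤ C * ‖zz v s‖ ^ 3 := fun h =>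
    hexp _ (tt_bd ha hd hn v h) _ (zz_le hσ hs)
  have hcard : (Fintype.card (Fin n → 𝓞 K ⧸ v.asIdeal) : ℂ) = N := by
    rw [Fintype.card_fun, Fintype.card_fin, card_q]
    push_cast
    rfl
  have e1 : ∀ h : Fin n → 𝓞 K ⧸ v.asIdeal, (tt a α v h 0 : ℂ) * zz v s =
      (gtr (mem (red v a) (fun j => Ideal.Quotient.mk v.asIdeal (α j)) h) 1 : ℂ) * x := by
    intro h
    unfold tt zz
    simp only [zero_add, pow_one]
    push_cast
    field_simp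
    rw [hx]
  have e2 : ∀ h : Fin n → 𝓞 K ⧸ v.asIdeal, (tt a α v h 1 : ℂ) * zz v s ^ 2 =
      (gtr (mem (red v a) (fun j => Ideal.Quotient.mk v.asIdeal (α j)) h) 2 : ℂ) * x ^ 2 := by
    intro h
    unfold tt zz
    rw [mul_pow]
    push_cast
    field_simp
    rw [hx]
  have e3 : ∀ h : Fin n → 𝓞 K ⧸ v.asIdeal, (tt a α v h 0 : ℂ) ^ 2 * zz v s ^ 2 =
      (gtr (mem (red v a) (fun j => Ideal.Quotient.mk v.asIdeal (α j)) h) 1 : ℂ) ^ 2 * x ^ 2 := by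
    intro h
    rw [← mul_pow, e1, mul_pow]
  have key : EX a α n w v s - 1 - w * Ev a α n v 1 * x -
      w / 2 * (Ev a α n v 2 + w * Eq a α n v) * x ^ 2 = (∑ h, T h) / N := by
    have f1 : ∑ h, T h = (∑ h : Fin n → 𝓞 K ⧸ v.asIdeal, cexp (w * sl a α v h s)) - N -
        w * (∑ h : Fin n → 𝓞 K ⧸ v.asIdeal,
          (gtr (mem (red v a) (fun j => Ideal.Quotient.mk v.asIdeal (α j)) h) 1 : ℂ)) * x -
        w / 2 * ((∑ h : Fin n → 𝓞 K ⧸ v.asIdeal, (gtr (mem (red v a)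
          (fun j => Ideal.Quotient.mk v.asIdeal (α j)) h) 2 : ℂ)) +
          w * (∑ h : Fin n → 𝓞 K ⧸ v.asIdeal, (gtr (mem (red v a)
          (fun j => Ideal.Quotient.mk v.asIdeal (α j)) h) 1 : ℂ) ^ 2)) * x ^ 2 := by
      have f2 : ∀ h, T h = cexp (w * sl a α v h s) - 1 -
          w * ((gtr (mem (red v a) (fun j => Ideal.Quotient.mk v.asIdeal (α j)) h) 1 : ℂ)) * x -
          (w / 2 * ((gtr (mem (red v a)
            (fun j => Ideal.Quotient.mk v.asIdeal (α j)) h) 2 : ℂ)) * x ^ 2 +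
          w / 2 * w * ((gtr (mem (red v a)
            (fun j => Ideal.Quotient.mk v.asIdeal (α j)) h) 1 : ℂ) ^ 2) * x ^ 2) := by
        intro h
        rw [hT]
        simp only
        rw [← sl_eq]
        linear_combination (-w) * e1 h - w / 2 * e2 h - w / 2 * w * e3 h
      rw [Finset.sum_congr rfl fun h _ => f2 h]
      simp only [Finset.sum_sub_distrib, Finset.sum_add_distrib, ← Finset.mul_sum, ← Finset.sum_mul,
        Finset.sum_const, Finset.card_univ, nsmul_eq_mul, hcard]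
      ring
    rw [f1]
    unfold EX Ev EE Eq EQ
    push_cast
    rw [card_q, ← hN]
    field_simp
  rw [key, norm_div]
  have hNn : ‖N‖ = (nm v : ℝ) ^ n := by
    rw [hN, norm_pow, Complex.norm_natCast]
  rw [hNn, div_le_iff₀ hq']
  refine (norm_sum_le _ _).trans ((Finset.sum_le_card_nsmul _ _ _ fun h _ => hTb h).trans
    (le_of_eq ?_))
  rw [Finset.card_univ, Fintype.card_fun, Fintype.card_fin, card_q, nsmul_eq_mul]
  push_cast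
  ring

/-- the corrected average -/
noncomputable def HX (a : (𝓞 K)[X]) (α : Fin r → 𝓞 K) (n : ℕ) (w : ℂ)
    (v : HeightOneSpectrum (𝓞 K)) (s : ℂ) : ℂ :=
  EX a α n w v s * cexp (w * r * (nm v : ℂ) ^ (-s) -
    w * (w - 1) / 2 * ((nm v : ℂ) * ((nm v : ℂ) ^ (-s)) ^ 2))

theorem hx_bd (ha : a.Monic) (hd : a.natDegree = 2 * g + 1) (hn : n + r ≤ 2 * g + 1) (w : ℂ)
    {C₁ : ℝ} (h1 : ∀ v : HeightOneSpectrum (𝓞 K), |Ev a α n v 1 + r| ≤ C₁ * (nm v : ℝ) ^ (-(1 / 2) : ℝ))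
    (h2 : ∀ v : HeightOneSpectrum (𝓞 K), |Ev a α n v 2 + nm v| ≤ C₁)
    (h3 : ∀ v : HeightOneSpectrum (𝓞 K), |Eq a α n v - nm v| ≤ C₁) {σ : ℝ} (hσ : 5 / 6 < σ) :
    ∃ u : HeightOneSpectrum (𝓞 K) → ℝ, Summable u ∧ ∀ v (s : ℂ), σ < s.re →
      ‖HX a α n w v s - 1‖ ≤ u v := by
  obtain ⟨C₂, hC₂, hex⟩ := ex_expand (α := α) ha hd hn w (show (1 / 2 : ℝ) < σ by linarith)
  have hC₁ : 0 ≤ C₁ ∨ IsEmpty (HeightOneSpectrum (𝓞 K)) := by
    rcases isEmpty_or_nonempty (HeightOneSpectrum (𝓞 K)) with h | ⟨⟨v⟩⟩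
    · exact Or.inr h
    · exact Or.inl ((abs_nonneg _).trans (h2 v))
  rcases hC₁ with hC₁ | hemp
  swap
  · exact ⟨fun _ => 0, summable_zero, fun v => hemp.elim v⟩
  set c : ℂ := w * (w - 1) / 2 with hc
  -- the constants
  set D : ℝ := ‖w‖ * r + ‖c‖ + 3 * (C₂ + ‖w‖ * C₁ + ‖w‖ / 2 * (C₁ + ‖w‖ * C₁)) with hD
  have hD0 : 0 ≤ D := by positivity
  obtain ⟨C₃, hC₃, hcorr⟩ := corr hD0
  set M : ℝ := C₃ * ((2 * (‖w‖ * r) ^ 2 + 2 * ‖c‖ ^ 2) + (C₂ + ‖w‖ * C₁ + ‖w‖ / 2 * (C₁ + ‖w‖ * C₁)))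
    with hM
  have hM0 : 0 ≤ M := by positivity
  refine ⟨fun v => M * ((nm v : ℝ) ^ (-(3 * (σ - 1 / 2))) + (nm v : ℝ) ^ (-(1 / 2 + σ)) +
    (nm v : ℝ) ^ (-(2 * σ))), ?_, fun v s hs => ?_⟩
  · refine Summable.mul_left _ (((nm_summable (K := K) ?_).add (nm_summable (K := K) ?_)).add
      (nm_summable (K := K) ?_)) <;> linarith
  set x : ℂ := (nm v : ℂ) ^ (-s) with hx
  set z : ℂ := zz v s with hz
  have hxn : ‖x‖ = (nm v : ℝ) ^ (-s.re) := norm_nm_cpow v s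
  have hzn : ‖z‖ = (nm v : ℝ) ^ (-(s.re - 1 / 2)) := zz_norm v s
  have hx1 : ‖x‖ ≤ 1 := by
    rw [hxn]
    exact Real.rpow_le_one_of_one_le_of_nonpos (nm1 v) (by linarith)
  have hz1 : ‖z‖ ≤ 1 := by
    rw [hzn]
    exact Real.rpow_le_one_of_one_le_of_nonpos (nm1 v) (by linarith)
  set q12 : ℝ := (nm v : ℝ) ^ (-(1 / 2) : ℝ) with hq12
  have hq1 : q12 ≤ 1 := Real.rpow_le_one_of_one_le_of_nonpos (nm1 v) (by norm_num)
  have hq0 : 0 ≤ q12 := by positivity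
  have hx0 : 0 ≤ ‖x‖ := norm_nonneg x
  have hz0 : 0 ≤ ‖z‖ := norm_nonneg z
  have hzsq : z ^ 2 = (nm v : ℂ) * x ^ 2 := sq_zz v s
  set Q : ℝ := ‖z‖ ^ 3 + q12 * ‖x‖ + ‖x‖ ^ 2 with hQ
  have hQle : Q ≤ (nm v : ℝ) ^ (-(3 * (σ - 1 / 2))) + (nm v : ℝ) ^ (-(1 / 2 + σ)) +
      (nm v : ℝ) ^ (-(2 * σ)) := by
    have f1 : ‖z‖ ^ 3 ≤ (nm v : ℝ) ^ (-(3 * (σ - 1 / 2))) := by
      rw [hzn, ← Real.rpow_natCast, ← Real.rpow_mul (nm_pos v).le]
      refine Real.rpow_le_rpow_of_exponent_le (nm1 v) ?_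
      push_cast
      linarith
    have f2 : q12 * ‖x‖ ≤ (nm v : ℝ) ^ (-(1 / 2 + σ)) := by
      rw [hxn, hq12, ← Real.rpow_add (nm_pos v)]
      refine Real.rpow_le_rpow_of_exponent_le (nm1 v) ?_
      linarith
    have f3 : ‖x‖ ^ 2 ≤ (nm v : ℝ) ^ (-(2 * σ)) := by
      rw [hxn, ← Real.rpow_natCast, ← Real.rpow_mul (nm_pos v).le]
      refine Real.rpow_le_rpow_of_exponent_le (nm1 v) ?_
      push_cast
      linarith
    rw [hQ]
    linarith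
  set u : ℂ := w * r * x - c * ((nm v : ℂ) * x ^ 2) with hu
  have hun : ‖u‖ ≤ ‖w‖ * r * ‖x‖ + ‖c‖ * ‖z‖ ^ 2 := by
    rw [hu, ← hzsq]
    refine (norm_sub_le _ _).trans (le_of_eq ?_)
    rw [norm_mul, norm_mul, norm_mul, norm_pow, Complex.norm_natCast]
  have hz2 : ‖z‖ ^ 2 ≤ 1 := pow_le_one₀ hz0 hz1
  have hu1 : ‖u‖ ≤ ‖w‖ * r + ‖c‖ := by
    refine hun.trans (add_le_add ?_ ?_)
    · exact mul_le_of_le_one_right (by positivity) hx1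
    · exact mul_le_of_le_one_right (norm_nonneg _) hz2
  have hu2 : ‖u‖ ^ 2 ≤ (2 * (‖w‖ * r) ^ 2 + 2 * ‖c‖ ^ 2) * Q := by
    have f1 : ‖u‖ ^ 2 ≤ (‖w‖ * r * ‖x‖ + ‖c‖ * ‖z‖ ^ 2) ^ 2 := pow_le_pow_left₀ (norm_nonneg _) hun 2
    have f2 : (‖w‖ * r * ‖x‖ + ‖c‖ * ‖z‖ ^ 2) ^ 2 ≤
        2 * (‖w‖ * r) ^ 2 * ‖x‖ ^ 2 + 2 * ‖c‖ ^ 2 * ‖z‖ ^ 4 := by
      nlinarith [sq_nonneg (‖w‖ * r * ‖x‖ - ‖c‖ * ‖z‖ ^ 2)]
    have f3 : ‖z‖ ^ 4 ≤ ‖z‖ ^ 3 := by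
      rw [pow_succ]
      exact mul_le_of_le_one_right (by positivity) hz1
    have f4 : ‖x‖ ^ 2 ≤ Q := by
      rw [hQ]
      have : 0 ≤ ‖z‖ ^ 3 + q12 * ‖x‖ := by positivity
      linarith
    have f5 : ‖z‖ ^ 4 ≤ Q := by
      rw [hQ]
      have : 0 ≤ q12 * ‖x‖ + ‖x‖ ^ 2 := by positivity
      linarith
    have f6 := mul_le_mul_of_nonneg_left f4 (show 0 ≤ 2 * (‖w‖ * r) ^ 2 by positivity)
    have f7 := mul_le_mul_of_nonneg_left f5 (show 0 ≤ 2 * ‖c‖ ^ 2 by positivity)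
    calc ‖u‖ ^ 2 ≤ 2 * (‖w‖ * r) ^ 2 * ‖x‖ ^ 2 + 2 * ‖c‖ ^ 2 * ‖z‖ ^ 4 := f1.trans f2
      _ ≤ 2 * (‖w‖ * r) ^ 2 * Q + 2 * ‖c‖ ^ 2 * Q := add_le_add f6 f7
      _ = _ := by ring
  set A : ℂ := EX a α n w v s with hA
  have he : ‖A - 1 + u‖ ≤ (C₂ + ‖w‖ * C₁ + ‖w‖ / 2 * (C₁ + ‖w‖ * C₁)) * Q := by
    have f0 : A - 1 + u = (A - 1 - w * Ev a α n v 1 * x -
        w / 2 * (Ev a α n v 2 + w * Eq a α n v) * x ^ 2) + w * ((Ev a α n v 1 + r : ℝ) : ℂ) * x +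
        w / 2 * (((Ev a α n v 2 + nm v : ℝ) : ℂ) + w * ((Eq a α n v - nm v : ℝ) : ℂ)) * x ^ 2 := by
      rw [hu, hc]
      push_cast
      ring
    have f1 := hex v s hs
    have f2 : ‖w * ((Ev a α n v 1 + r : ℝ) : ℂ) * x‖ ≤ ‖w‖ * C₁ * (q12 * ‖x‖) := by
      rw [norm_mul, norm_mul, Complex.norm_real, Real.norm_eq_abs]
      have := mul_le_mul_of_nonneg_left (h1 v) (norm_nonneg w)
      have := mul_le_mul_of_nonneg_right this hx0
      linarith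
    have f3 : ‖w / 2 * (((Ev a α n v 2 + nm v : ℝ) : ℂ) + w * ((Eq a α n v - nm v : ℝ) : ℂ)) * x ^ 2‖ ≤
        ‖w‖ / 2 * (C₁ + ‖w‖ * C₁) * ‖x‖ ^ 2 := by
      rw [norm_mul, norm_mul, norm_div, norm_pow, Complex.norm_ofNat]
      refine mul_le_mul_of_nonneg_right (mul_le_mul_of_nonneg_left ?_ (by positivity)) (by positivity)
      refine (norm_add_le _ _).trans (add_le_add ?_ ?_)
      · rw [Complex.norm_real, Real.norm_eq_abs]
        exact h2 v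
      · rw [norm_mul, Complex.norm_real, Real.norm_eq_abs]
        exact mul_le_mul_of_nonneg_left (h3 v) (norm_nonneg w)
    rw [f0]
    refine norm_add₃_le.trans ?_
    have g1 : C₂ * ‖z‖ ^ 3 ≤ C₂ * Q := mul_le_mul_of_nonneg_left (by
      rw [hQ]
      have : 0 ≤ q12 * ‖x‖ + ‖x‖ ^ 2 := by positivity
      linarith) hC₂
    have g2 : ‖w‖ * C₁ * (q12 * ‖x‖) ≤ ‖w‖ * C₁ * Q := mul_le_mul_of_nonneg_left (by
      rw [hQ]
      have : 0 ≤ ‖z‖ ^ 3 + ‖x‖ ^ 2 := by positivity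
      linarith) (by positivity)
    have g3 : ‖w‖ / 2 * (C₁ + ‖w‖ * C₁) * ‖x‖ ^ 2 ≤ ‖w‖ / 2 * (C₁ + ‖w‖ * C₁) * Q :=
      mul_le_mul_of_nonneg_left (by
        rw [hQ]
        have : 0 ≤ ‖z‖ ^ 3 + q12 * ‖x‖ := by positivity
        linarith) (by positivity)
    calc _ ≤ C₂ * ‖z‖ ^ 3 + ‖w‖ * C₁ * (q12 * ‖x‖) + ‖w‖ / 2 * (C₁ + ‖w‖ * C₁) * ‖x‖ ^ 2 :=
          add_le_add (add_le_add f1 f2) f3
      _ ≤ C₂ * Q + ‖w‖ * C₁ * Q + ‖w‖ / 2 * (C₁ + ‖w‖ * C₁) * Q := add_le_add (add_le_add g1 g2) g3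
      _ = _ := by ring
  set C₄ : ℝ := C₂ + ‖w‖ * C₁ + ‖w‖ / 2 * (C₁ + ‖w‖ * C₁) with hC₄
  have hC₄0 : 0 ≤ C₄ := by positivity
  have hQ0 : 0 ≤ Q := by positivity
  have hQ3 : Q ≤ 3 := by
    have f1 : ‖z‖ ^ 3 ≤ 1 := pow_le_one₀ hz0 hz1
    have f2 : q12 * ‖x‖ ≤ 1 := mul_le_one₀ hq1 hx0 hx1
    have f3 : ‖x‖ ^ 2 ≤ 1 := pow_le_one₀ hx0 hx1
    rw [hQ]
    linarith
  have huD : ‖u‖ ≤ D := hu1.trans (by rw [hD]; linarith)
  have heD : ‖A - 1 + u‖ ≤ D := by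
    refine he.trans ((mul_le_mul_of_nonneg_left hQ3 hC₄0).trans ?_)
    rw [hD]
    have : 0 ≤ ‖w‖ * r + ‖c‖ := by positivity
    linarith
  have hfin := hcorr A u huD heD
  have hHX : HX a α n w v s = A * cexp u := rfl
  rw [hHX]
  refine hfin.trans ?_
  refine (mul_le_mul_of_nonneg_left (add_le_add hu2 he) hC₃).trans ?_
  have : C₃ * ((2 * (‖w‖ * r) ^ 2 + 2 * ‖c‖ ^ 2) * Q + C₄ * Q) = M * Q := by
    rw [hM]
    ring
  rw [this]
  exact mul_le_mul_of_nonneg_left hQle hM0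

end

end Pool.Agent.W5h26.AO
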