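import Pool.Agent.W5h26.AO.MomA
import Pool.Agent.W5h26.AO.Cont

/-!
# The continuation of the moments
-/

set_option autoImplicit false
set_option linter.unusedSectionVars false
set_option maxHeartbeats 400000

open MeasureTheory Filter Topology Complex Set Polynomial
open NumberField IsDedekindDomain Pool.Agent.H921R2.TatePole
open Pool.Agent.R409.RA (fieldQuot finiteQuot)

namespace Pool.Agent.W5h26.AO

open Pool.Agent.W5h26.EP

section zeta

variable {K : Type} [Field K] [NumberField K]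

theorem one_sub_exp {x : ℂ} (hx : ‖x‖ ≤ 1) : ‖(1 - x) * cexp x - 1‖ ≤ 3 * ‖x‖ ^ 2 := by
  have h1 := Complex.norm_exp_sub_one_sub_id_le hx
  have h2 : (1 - x) * cexp x - 1 = (1 - x) * (cexp x - 1 - x) - x ^ 2 := by ring
  rw [h2]
  refine (norm_sub_le _ _).trans ?_
  rw [norm_mul, norm_pow]
  have h3 : ‖1 - x‖ ≤ 2 := (norm_sub_le _ _).trans (by rw [norm_one]; linarith)
  have h4 : ‖1 - x‖ * ‖cexp x - 1 - x‖ ≤ 2 * ‖x‖ ^ 2 :=
    mul_le_mul h3 h1 (norm_nonneg _) (by norm_num)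
  linarith

/-- the sum of `N v ^ (-s)` -/
noncomputable def PZ (K : Type) [Field K] [NumberField K] (s : ℂ) : ℂ :=
  ∑' v : HeightOneSpectrum (𝓞 K), (nm v : ℂ) ^ (-s)

theorem pz_sum {s : ℂ} (hs : 1 < s.re) :
    HasSum (fun v : HeightOneSpectrum (𝓞 K) => (nm v : ℂ) ^ (-s)) (PZ K s) :=
  (Summable.of_norm_bounded (nm_summable (K := K) hs) fun v => (norm_nm_cpow v s).le).hasSum

theorem exists_V (K : Type) [Field K] [NumberField K] : ∃ V : ℂ → ℂ,
    DifferentiableOn ℂ V {s | (1 / 2 : ℝ) < s.re} ∧ (∀ s : ℂ, 1 ≤ s.re → V s ≠ 0) ∧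
    ∀ s : ℂ, 1 < s.re → cexp (PZ K s) = V s / (s - 1) := by
  obtain ⟨Z, hZ, hZe, hZ0, -⟩ := exists_Z K
  set f : HeightOneSpectrum (𝓞 K) → ℂ → ℂ := fun v s =>
    (1 - (nm v : ℂ) ^ (-s)) * cexp ((nm v : ℂ) ^ (-s)) with hf
  have hb : ∀ σ : ℝ, 1 / 2 < σ → ∃ u : HeightOneSpectrum (𝓞 K) → ℝ, Summable u ∧
      ∀ v (s : ℂ), σ < s.re → ‖f v s - 1‖ ≤ u v := by
    intro σ hσ
    refine ⟨fun v => 3 * (nm v : ℝ) ^ (-(2 * σ)), (nm_summable (K := K) (by linarith)).mul_left _,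
      fun v s hs => ?_⟩
    have h1 : ‖(nm v : ℂ) ^ (-s)‖ = (nm v : ℝ) ^ (-s.re) := norm_nm_cpow v s
    refine (one_sub_exp ?_).trans (mul_le_mul_of_nonneg_left ?_ (by norm_num))
    · rw [h1]
      exact Real.rpow_le_one_of_one_le_of_nonpos (nm1 v) (by linarith)
    · rw [h1, ← Real.rpow_natCast, ← Real.rpow_mul (nm_pos v).le]
      refine Real.rpow_le_rpow_of_exponent_le (nm1 v) ?_
      push_cast
      linarith
  have hfd : ∀ v (s : ℂ), (1 / 2 : ℝ) < s.re → DifferentiableAt ℂ (f v) s := by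
    intro v s _
    have h1 := (hasDeriv_cpow v s).differentiableAt
    exact (h1.const_sub 1).mul h1.cexp
  have hU := hol_tprod hfd hb
  have hprod : ∀ s : ℂ, (1 / 2 : ℝ) < s.re → HasProd (fun v => f v s) (∏' v, f v s) ∧
      ∏' v, f v s ≠ 0 := by
    intro s hs
    obtain ⟨σ, h1, h2⟩ := exists_between hs
    obtain ⟨u, hu, hub⟩ := hb σ h1
    obtain ⟨h3, h4⟩ := hasProd_of_bd hu fun v => hub v s h2
    refine ⟨h3, h4 fun v => mul_ne_zero (one_sub_ne v (by linarith)) (Complex.exp_ne_zero _)⟩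
  refine ⟨fun s => Z s * ∏' v, f v s, hZ.mul hU, fun s hs => mul_ne_zero (hZ0 s hs)
    (hprod s (by linarith)).2, fun s hs => ?_⟩
  have hne : s - 1 ≠ 0 := by
    intro h0
    have := congrArg Complex.re (sub_eq_zero.1 h0)
    rw [Complex.one_re] at this
    linarith
  have h1 : HasProd (fun v : HeightOneSpectrum (𝓞 K) => 1 - (nm v : ℂ) ^ (-s))
      (cexp (-Zl K s)) := by
    have h2 := (zl_sum K hs).neg.cexp
    refine h2.congr_fun ?_ |> fun h => h
    intro v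
    show _ = cexp (- -Complex.log (1 - (nm v : ℂ) ^ (-s)))
    rw [neg_neg, Complex.exp_log (one_sub_ne v (by linarith))]
  have h2 := h1.mul (pz_sum hs).cexp
  have h3 : ∏' v, f v s = cexp (-Zl K s) * cexp (PZ K s) := (hprod s (by linarith)).1.unique h2
  show cexp (PZ K s) = Z s * (∏' v, f v s) / (s - 1)
  rw [h3, hZe s hs, Complex.exp_neg]
  have h4 := Complex.exp_ne_zero (Zl K s)
  field_simp

end zeta

section moment

variable {K : Type} [Field K] [NumberField K] {r n g : ℕ} {a : (𝓞 K)[X]} {α : Fin r → 𝓞 K}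

/-- the average square of the trace -/
theorem eq_asymK {y : Fin r → 𝓞 K} (ha : a.Monic) (hd : a.natDegree = 2 * g + 1)
    (hn : n + 2 + r = 2 * g + 1) (hα : Function.Injective α) (hy : ∀ j, a.eval (α j) = y j ^ 2)
    (hy0 : ∀ j, y j ≠ 0) : ∃ C : ℝ,
    ∀ v : HeightOneSpectrum (𝓞 K), |Eq a α (n + 2) v - nm v| ≤ C := by
  classical
  set d : 𝓞 K := 2 * ((n + 2 : ℕ) : 𝓞 K) * (∏ j, y j) *
    ∏ z ∈ (Finset.univ : Finset (Fin r × Fin r)).filter (fun z => z.1 ≠ z.2), (α z.1 - α z.2) with hdd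
  have hd0 : d ≠ 0 := by
    refine mul_ne_zero (mul_ne_zero (mul_ne_zero two_ne_zero ?_) ?_) ?_
    · exact_mod_cast Nat.succ_ne_zero (n + 1)
    · exact Finset.prod_ne_zero_iff.2 fun j _ => hy0 j
    · refine Finset.prod_ne_zero_iff.2 fun z hz => ?_
      exact sub_ne_zero.2 fun h => (Finset.mem_filter.1 hz).2 (hα h)
  have hS := finite_mem hd0
  obtain ⟨C1, hC1⟩ : ∃ C1 : ℝ, C1 = ∑ v ∈ hS.toFinset, (4 * g ^ 2 * (nm v : ℝ) + nm v) := ⟨_, rfl⟩
  have hpos : ∀ v : HeightOneSpectrum (𝓞 K), 0 ≤ (4 * g ^ 2 * (nm v : ℝ) + nm v) :=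
    fun v => by positivity
  have hC10 : 0 ≤ C1 := by
    rw [hC1]
    exact Finset.sum_nonneg fun v _ => hpos v
  have hle : ∀ v : HeightOneSpectrum (𝓞 K), d ∈ v.asIdeal →
      (4 * g ^ 2 * (nm v : ℝ) + nm v) ≤ C1 := by
    intro v hv
    rw [hC1]
    exact Finset.single_le_sum (fun v _ => hpos v) (hS.mem_toFinset.2 hv)
  have hgood : ∀ v : HeightOneSpectrum (𝓞 K), d ∉ v.asIdeal →
      ringChar (𝓞 K ⧸ v.asIdeal) ≠ 2 ∧ (((n + 2 : ℕ) : 𝓞 K ⧸ v.asIdeal)) ≠ 0 ∧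
      Function.Injective (fun j => Ideal.Quotient.mk v.asIdeal (α j)) ∧
      (∀ j, (red v a).eval (Ideal.Quotient.mk v.asIdeal (α j)) =
        (Ideal.Quotient.mk v.asIdeal (y j)) ^ 2) ∧
      ∀ j, Ideal.Quotient.mk v.asIdeal (y j) ≠ 0 := by
    intro v hv
    have hm : ∀ z : 𝓞 K, z ∣ d → z ∉ v.asIdeal := fun z hz h0 =>
      hv (Ideal.mem_of_dvd _ hz h0)
    refine ⟨(char_two v).2 (hm 2 ?_), ?_, ?_, ?_, ?_⟩
    · exact ((dvd_mul_right _ _).mul_right _).mul_right _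
    · have h1 : (((n + 2 : ℕ) : 𝓞 K)) ∉ v.asIdeal := by
        refine hm _ ?_
        exact ((dvd_mul_left _ _).mul_right _).mul_right _
      rw [← Ideal.Quotient.eq_zero_iff_mem, map_natCast] at h1
      exact h1
    · intro i j hij
      by_contra hne
      have h1 : α i - α j ∈ v.asIdeal := by
        rw [← Ideal.Quotient.eq_zero_iff_mem, map_sub]
        exact sub_eq_zero.2 hij
      refine hm _ ?_ h1
      refine (Finset.dvd_prod_of_mem (fun z : Fin r × Fin r => α z.1 - α z.2)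
        (a := (i, j)) (Finset.mem_filter.2 ⟨Finset.mem_univ _, hne⟩)).mul_left _
    · intro j
      rw [eval_red, hy, map_pow]
    · intro j h1
      rw [Ideal.Quotient.eq_zero_iff_mem] at h1
      refine hm _ ?_ h1
      exact ((Finset.dvd_prod_of_mem y (Finset.mem_univ j)).mul_left _).mul_right _
  refine ⟨C1 + (4 * g ^ 2 * (2 * g + r) + 1 + 2 * r + r ^ 2), fun v => ?_⟩
  obtain ⟨e1, e2⟩ := red_deg ha hd v
  by_cases hv : d ∈ v.asIdeal
  · have h1 := eq_bd (n := n + 2) (α := fun j => Ideal.Quotient.mk v.asIdeal (α j)) e1 e2 (by omega)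
    rw [card_q] at h1
    have h2 : |Eq a α (n + 2) v - nm v| ≤ 4 * g ^ 2 * (nm v : ℝ) + nm v := by
      refine (abs_sub _ _).trans ?_
      rw [Nat.abs_cast]
      exact add_le_add h1 le_rfl
    have := hle v hv
    have h6 : (0 : ℝ) ≤ 4 * g ^ 2 * (2 * g + r) + 1 + 2 * r + r ^ 2 := by positivity
    linarith
  · obtain ⟨g1, g2, g3, g4, g5⟩ := hgood v hv
    have h1 := eq_asym (n := n) g1 e1 e2 hn g2 g3 g4 g5
    rw [card_q] at h1
    exact h1.trans (by linarith)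

/-- the local factor of the mean of the powers is not zero at real points -/
theorem ex_pos (k : ℤ) (v : HeightOneSpectrum (𝓞 K)) (n : ℕ) :
    EX a α n (k : ℂ) v 1 ≠ 0 := by
  have h1 : ∀ h : Fin n → 𝓞 K ⧸ v.asIdeal, ∃ x : ℝ, sl a α v h 1 = x := by
    intro h
    refine ⟨∑' m : ℕ, gtr (mem (red v a) (fun j => Ideal.Quotient.mk v.asIdeal (α j)) h) (m + 1) *
      ((nm v : ℝ)⁻¹) ^ (m + 1) / (m + 1), ?_⟩
    unfold sl
    rw [Complex.ofReal_tsum]
    refine tsum_congr fun m => ?_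
    push_cast
    rw [Complex.cpow_neg, Complex.cpow_one]
  choose x hx using h1
  unfold EX
  refine div_ne_zero ?_ (pow_ne_zero _ (nmC_ne v))
  have h2 : ∑ h : Fin n → 𝓞 K ⧸ v.asIdeal, cexp ((k : ℂ) * sl a α v h 1) =
      ((∑ h : Fin n → 𝓞 K ⧸ v.asIdeal, Real.exp (k * x h) : ℝ) : ℂ) := by
    push_cast
    exact Finset.sum_congr rfl fun h _ => by rw [hx]
  rw [h2]
  have h3 : 0 < ∑ h : Fin n → 𝓞 K ⧸ v.asIdeal, Real.exp (k * x h) :=
    Finset.sum_pos (fun h _ => Real.exp_pos _) Finset.univ_nonempty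
  exact_mod_cast h3.ne'

end moment

end Pool.Agent.W5h26.AO
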