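import Pool.Agent.W5h26.AO.MomB

/-!
# The continuation of the moments: the theorem
-/

set_option autoImplicit false
set_option linter.unusedSectionVars false
set_option maxHeartbeats 400000

open MeasureTheory Filter Topology Complex Set Polynomial
open NumberField IsDedekindDomain Pool.Agent.H921R2.TatePole
open Pool.Agent.R409.RA (fieldQuot finiteQuot)

namespace Pool.Agent.W5h26.AO

open Pool.Agent.W5h26.EP

variable {K : Type} [Field K] [NumberField K] {r n g : ℕ} {a : (𝓞 K)[X]} {α : Fin r → 𝓞 K}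

theorem lt_sl (h : Fin n → 𝓞 K) (v : HeightOneSpectrum (𝓞 K)) (s : ℂ) :
    ∑' m : ℕ, lt (mem a α h) (v, m) s = sl a α v (rho v n h) s := by
  unfold sl lt lam
  simp only
  rw [red_mem]
  rfl

theorem lam_sl (ha : a.Monic) (hd : a.natDegree = 2 * g + 1) (hn : n + r ≤ 2 * g + 1)
    (h : Fin n → 𝓞 K) {s : ℂ} (hs : 3 / 2 < s.re) :
    Lam (mem a α h) s = ∑' v : HeightOneSpectrum (𝓞 K), sl a α v (rho v n h) s := by
  obtain ⟨e1, e2⟩ := mem_monic ha hd hn α h
  unfold Lam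
  rw [(lt_summable e1 e2 hs).tsum_prod]
  exact tsum_congr fun v => lt_sl h v s

theorem hx_diff (ha : a.Monic) (hd : a.natDegree = 2 * g + 1) (hn : n + r ≤ 2 * g + 1) (w : ℂ)
    (v : HeightOneSpectrum (𝓞 K)) {s : ℂ} (hs : 1 / 2 < s.re) :
    DifferentiableAt ℂ (HX a α n w v) s := by
  unfold HX
  have h1 := (hasDeriv_cpow v s).differentiableAt
  exact (ex_diff ha hd hn w v hs).mul ((h1.const_mul _).sub (((h1.pow 2).const_mul _).const_mul _)).cexp

/-- the mean of the powers, as a product -/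
theorem mean_pow (ha : a.Monic) (hd : a.natDegree = 2 * g + 1) (hn : n + r ≤ 2 * g + 1) (w : ℂ)
    {F : ℕ → Finset (Fin n → 𝓞 K)} (hF : IsFolner F) {s : ℂ} (hs : 3 / 2 < s.re) {L : ℂ}
    (hL : HasProd (fun v : HeightOneSpectrum (𝓞 K) => EX a α n w v s) L) :
    Tendsto (fun j => mean (F j) fun h => cexp (w * Lam (mem a α h) s)) atTop (𝓝 L) := by
  have h1 : (fun j => mean (F j) fun h => cexp (w * Lam (mem a α h) s)) =
      fun j => mean (F j) fun h => cexp (w * ∑' v : HeightOneSpectrum (𝓞 K),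
        sl a α v (rho v n h) s) := by
    funext j
    congr 1
    funext h
    rw [lam_sl ha hd hn h hs]
  rw [h1]
  obtain ⟨σ, h2, h3⟩ := exists_between hs
  have hρ := rho_lt (show (1 / 2 : ℝ) < σ by linarith)
  set ρ : ℝ := (2 : ℝ) ^ (-(σ - 1 / 2)) with hρd
  have hρ' : 0 < 1 - ρ := by linarith
  refine mean_exp w (b := fun v => 2 * g * ((1 - ρ)⁻¹ * (nm v : ℝ) ^ (-(σ - 1 / 2))))
    (((nm_summable (K := K) (by linarith)).mul_left _).mul_left _) (fun v h => ?_) (fun T => ?_) hL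
  · rw [sl_eq]
    have h4 : ‖zz v s‖ ≤ ρ := zz_le (by linarith) h3
    refine (ss_bd (tt_bd (α := α) ha hd hn v _) (h4.trans_lt hρ)).trans ?_
    refine mul_le_mul_of_nonneg_left ?_ (by positivity)
    rw [div_eq_inv_mul]
    refine mul_le_mul (inv_anti₀ hρ' (by linarith)) ?_ (norm_nonneg _) (by positivity)
    rw [zz_norm]
    exact Real.rpow_le_rpow_of_exponent_le (nm1 v) (by linarith)
  · exact mean_prod hF T fun v h' => cexp (w * sl a α v h' s)

/-- **The moments.** -/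
theorem moment {y : Fin r → 𝓞 K} (ha : a.Monic) (hd : a.natDegree = 2 * g + 1)
    (hn : n + 2 + r = 2 * g + 1) (hα : Function.Injective α) (hy : ∀ j, a.eval (α j) = y j ^ 2)
    (hy0 : ∀ j, y j ≠ 0) (k : ℤ) : ∃ B : ℂ → ℂ,
    MeromorphicOn B {s | (5 / 6 : ℝ) < s.re} ∧ (∀ s : ℂ, 1 ≤ s.re → AnalyticAt ℂ B s) ∧ B 1 ≠ 0 ∧
    (r = 0 → ∀ s : ℂ, 5 / 6 < s.re → AnalyticAt ℂ B s) ∧
    ∀ s : ℂ, 3 / 2 < s.re → ∀ F : ℕ → Finset (Fin (n + 2) → 𝓞 K), IsFolner F →
      Tendsto (fun j => mean (F j) fun h => cexp (k * Lam (mem a α h) s)) atTop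
        (𝓝 ((s - 1) ^ (k * r - k * (k - 1) / 2) * B s)) := by
  obtain ⟨C, hC1, hC2⟩ := ev_asym ha hd hn hα hy hy0
  obtain ⟨C', hC3⟩ := eq_asymK ha hd hn hα hy hy0
  obtain ⟨c, hc⟩ := Int.even_mul_pred_self k
  have hc2 : k * (k - 1) / 2 = c := by omega
  have hc0 : 0 ≤ c := by
    have : 0 ≤ k * (k - 1) := by
      rcases le_or_gt k 0 with h | h
      · nlinarith
      · nlinarith
    omega
  have hcC : (k : ℂ) * (k - 1) / 2 = c := by
    have : ((k * (k - 1) : ℤ) : ℂ) = ((c + c : ℤ) : ℂ) := by rw [hc]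
    push_cast at this
    rw [this]
    ring
  obtain ⟨V, hV, hV0, hVe⟩ := exists_V K
  have hopen : IsOpen {s : ℂ | (1 / 2 : ℝ) < s.re} := isOpen_lt continuous_const Complex.continuous_re
  have hopen5 : IsOpen {s : ℂ | (5 / 6 : ℝ) < s.re} :=
    isOpen_lt continuous_const Complex.continuous_re
  have hVa : ∀ s : ℂ, 1 / 2 < s.re → AnalyticAt ℂ V s := fun s hs =>
    hV.analyticAt (hopen.mem_nhds hs)
  have hb : ∀ σ : ℝ, 5 / 6 < σ → ∃ u : HeightOneSpectrum (𝓞 K) → ℝ, Summable u ∧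
      ∀ v (s : ℂ), σ < s.re → ‖HX a α (n + 2) (k : ℂ) v s - 1‖ ≤ u v := fun σ hσ =>
    hx_bd (C₁ := max C C') ha hd hn.le k
      (fun v => (hC1 v).trans (mul_le_mul_of_nonneg_right (le_max_left _ _) (by positivity)))
      (fun v => (hC2 v).trans (le_max_left _ _)) (fun v => (hC3 v).trans (le_max_right _ _)) hσ
  have hH := hol_tprod (f := fun v => HX a α (n + 2) (k : ℂ) v)
    (fun v s hs => hx_diff ha hd hn.le k v (by linarith)) hb
  have hHa : ∀ s : ℂ, 5 / 6 < s.re →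
      AnalyticAt ℂ (fun s => ∏' v, HX a α (n + 2) (k : ℂ) v s) s := fun s hs =>
    hH.analyticAt (hopen5.mem_nhds hs)
  have hlin : ∀ s : ℂ, AnalyticAt ℂ (fun s : ℂ => 2 * s - 1) s := fun s => by fun_prop
  have hV2 : ∀ s : ℂ, 5 / 6 < s.re → AnalyticAt ℂ (fun s => V (2 * s - 1) / 2) s := by
    intro s hs
    refine AnalyticAt.div_const ?_
    refine AnalyticAt.comp (g := V) (f := fun s : ℂ => 2 * s - 1) (hVa _ ?_) (hlin s)
    simp only [Complex.sub_re, Complex.mul_re, Complex.re_ofNat, Complex.im_ofNat, zero_mul,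
      sub_zero, Complex.one_re]
    linarith
  have hVc : ∀ s : ℂ, 5 / 6 < s.re → AnalyticAt ℂ (fun s => (V (2 * s - 1) / 2) ^ c) s :=
    fun s hs => (hV2 s hs).zpow_nonneg hc0
  refine ⟨fun s => V s ^ (-(k * r)) * (V (2 * s - 1) / 2) ^ c *
    ∏' v, HX a α (n + 2) (k : ℂ) v s, ?_, ?_, ?_, ?_, ?_⟩
  · intro s hs
    have hs' : (1 / 2 : ℝ) < s.re := by
      have : (5 / 6 : ℝ) < s.re := hs
      linarith
    exact (((hVa s hs').meromorphicAt.zpow _).mul (hVc s hs).meromorphicAt).mul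
      (hHa s hs).meromorphicAt
  · intro s hs
    exact (((hVa s (by linarith)).zpow (hV0 s hs)).mul (hVc s (by linarith))).mul
      (hHa s (by linarith))
  · refine mul_ne_zero (mul_ne_zero (zpow_ne_zero _ (hV0 1 (by simp))) (zpow_ne_zero _ ?_)) ?_
    · refine div_ne_zero ?_ two_ne_zero
      have : (2 : ℂ) * 1 - 1 = 1 := by norm_num
      rw [this]
      exact hV0 1 (by simp)
    · obtain ⟨u, hu, hub⟩ := hb (9 / 10) (by norm_num)
      refine (hasProd_of_bd hu fun v => hub v 1 (by norm_num)).2 fun v => ?_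
      exact mul_ne_zero (ex_pos k v _) (Complex.exp_ne_zero _)
  · intro hr s hs
    subst hr
    simp only [Nat.cast_zero, mul_zero, neg_zero, zpow_zero, one_mul]
    exact (hVc s hs).mul (hHa s hs)
  · intro s hs F hF
    refine mean_pow ha hd hn.le k hF hs ?_
    have hs1 : 1 < s.re := by linarith
    have hs2 : 1 < (2 * s - 1).re := by
      simp only [Complex.sub_re, Complex.mul_re, Complex.re_ofNat, Complex.im_ofNat, zero_mul,
        sub_zero, Complex.one_re]
      linarith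
    have hne : s - 1 ≠ 0 := by
      intro h0
      have := congrArg Complex.re (sub_eq_zero.1 h0)
      rw [Complex.one_re] at this
      linarith
    obtain ⟨σ, h2, h3⟩ := exists_between (show (5 / 6 : ℝ) < s.re by linarith)
    obtain ⟨u, hu, hub⟩ := hb σ h2
    have h4 := (hasProd_of_bd hu fun v => hub v s h3).1
    have h5 := (((pz_sum (K := K) hs1).mul_left (-((k : ℂ) * r))).add
      ((pz_sum (K := K) hs2).mul_left (c : ℂ))).cexp
    have h6 := h4.mul h5
    have e1 : ∀ v : HeightOneSpectrum (𝓞 K), HX a α (n + 2) (k : ℂ) v s *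
        cexp (-((k : ℂ) * r) * (nm v : ℂ) ^ (-s) + (c : ℂ) * (nm v : ℂ) ^ (-(2 * s - 1))) =
        EX a α (n + 2) (k : ℂ) v s := by
      intro v
      have e2 : (nm v : ℂ) ^ (-(2 * s - 1)) = (nm v : ℂ) * ((nm v : ℂ) ^ (-s)) ^ 2 := by
        have : -(2 * s - 1) = 1 + (-s + -s) := by ring
        rw [this, Complex.cpow_add _ _ (nmC_ne v), Complex.cpow_add _ _ (nmC_ne v), Complex.cpow_one]
        ring
      unfold HX
      rw [mul_assoc, ← Complex.exp_add, e2, hcC]
      have : (k : ℂ) * r * (nm v : ℂ) ^ (-s) - c * ((nm v : ℂ) * ((nm v : ℂ) ^ (-s)) ^ 2) +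
          (-((k : ℂ) * r) * (nm v : ℂ) ^ (-s) + c * ((nm v : ℂ) * ((nm v : ℂ) ^ (-s)) ^ 2)) = 0 := by
        ring
      rw [this, Complex.exp_zero, mul_one]
    have h7 := h6.congr_fun fun v => (e1 v).symm
    convert h7 using 1
    have e3 : cexp (-((k : ℂ) * r) * PZ K s + c * PZ K (2 * s - 1)) =
        (V s / (s - 1)) ^ (-(k * r)) * (V (2 * s - 1) / (2 * s - 1 - 1)) ^ c := by
      rw [Complex.exp_add, ← hVe s hs1, ← hVe _ hs2, ← Complex.exp_int_mul, ← Complex.exp_int_mul]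
      push_cast
      rfl
    rw [e3, hc2]
    have e4 : V (2 * s - 1) / (2 * s - 1 - 1) = (V (2 * s - 1) / 2) / (s - 1) := by
      have : (2 : ℂ) * s - 1 - 1 = 2 * (s - 1) := by ring
      rw [this]
      field_simp
    rw [e4, div_zpow (V s), div_zpow (V (2 * s - 1) / 2), sub_eq_add_neg (k * (r : ℤ)),
      zpow_add₀ hne, zpow_neg (s - 1) c, zpow_neg (s - 1) (k * r)]
    have e5 : (s - 1) ^ (k * (r : ℤ)) ≠ 0 := zpow_ne_zero _ hne
    have e6 : (s - 1) ^ c ≠ 0 := zpow_ne_zero _ hne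
    field_simp

end Pool.Agent.W5h26.AO
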