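import Pool.Agent.W5h26.AO.Cont

/-!
# Series over the places and the powers of Frobenius
-/

set_option autoImplicit false
set_option maxHeartbeats 400000

open MeasureTheory Filter Topology Complex Set
open NumberField IsDedekindDomain Pool.Agent.H921R2.TatePole

namespace Pool.Agent.W5h26.AO

open Pool.Agent.W5h26.EP

section

variable {K : Type} [Field K] [NumberField K]

/-- `c log N v N v ^ (-m s)` -/
noncomputable def tm (c : ℝ) (v : HeightOneSpectrum (𝓞 K)) (m : ℕ) (s : ℂ) : ℂ :=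
  (c : ℂ) * (Real.log (nm v) : ℂ) * ((nm v : ℂ) ^ (-s)) ^ m

theorem tm_norm (c : ℝ) (v : HeightOneSpectrum (𝓞 K)) (m : ℕ) (s : ℂ) :
    ‖tm c v m s‖ = |c| * (Real.log (nm v) * (nm v : ℝ) ^ (-(m * s.re))) := by
  unfold tm
  rw [norm_mul, norm_mul, norm_pow, norm_nm_cpow, Complex.norm_real, Complex.norm_real,
    Real.norm_eq_abs, Real.norm_eq_abs, abs_of_nonneg (log_nonneg v), ← Real.rpow_natCast,
    ← Real.rpow_mul (nm_pos v).le, mul_assoc]
  congr 3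
  ring

theorem tm_diff (c : ℝ) (v : HeightOneSpectrum (𝓞 K)) (m : ℕ) (s : ℂ) :
    DifferentiableAt ℂ (tm c v m) s := by
  unfold tm
  exact ((hasDeriv_cpow v s).differentiableAt.pow m).const_mul _

/-- `√N v ^ m N v ^ (-m σ)` -/
theorem sqrt_mul (v : HeightOneSpectrum (𝓞 K)) (m : ℕ) (σ : ℝ) :
    √(nm v : ℝ) ^ m * (nm v : ℝ) ^ (-(m * σ)) = (nm v : ℝ) ^ (-(m * (σ - 1 / 2))) := by
  rw [Real.sqrt_eq_rpow, ← Real.rpow_natCast, ← Real.rpow_mul (nm_pos v).le,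
    ← Real.rpow_add (nm_pos v)]
  congr 1
  ring

/-- the majorant of the terms of index `m + j` -/
noncomputable def gm (τ : ℝ) (j : ℕ) (p : HeightOneSpectrum (𝓞 K) × ℕ) : ℝ :=
  (Real.log (nm p.1) * (nm p.1 : ℝ) ^ (-(j * τ))) * ((2 : ℝ) ^ (-τ)) ^ p.2

/-- the sum over the places and the powers -/
theorem sum_geo {τ : ℝ} (hτ : 0 < τ) {j : ℕ} (hj : 1 < j * τ) :
    Summable (gm (K := K) τ j) := by
  have h1 : (2 : ℝ) ^ (-τ) < 1 := Real.rpow_lt_one_of_one_lt_of_neg (by norm_num) (by linarith)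
  have h2 : Summable fun n : ℕ => ((2 : ℝ) ^ (-τ)) ^ n :=
    summable_geometric_of_lt_one (by positivity) h1
  exact (sum_log (K := K) hj).mul_of_nonneg h2
    (fun v => mul_nonneg (log_nonneg v) (by positivity)) fun n => by positivity

theorem tm_le {c B : ℝ} (v : HeightOneSpectrum (𝓞 K)) (m j : ℕ) {s : ℂ} {σ : ℝ}
    (hσ : 1 / 2 < σ) (hs : σ ≤ s.re) (hc : |c| ≤ B * √(nm v : ℝ) ^ (m + j)) :
    ‖tm c v (m + j) s‖ ≤ B * gm (σ - 1 / 2) j (v, m) := by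
  have hB : 0 ≤ B := by
    have h1 : 0 ≤ B * √(nm v : ℝ) ^ (m + j) := (abs_nonneg c).trans hc
    have h2 : 0 < √(nm v : ℝ) ^ (m + j) := pow_pos (Real.sqrt_pos.2 (nm_pos v)) _
    exact nonneg_of_mul_nonneg_left h1 h2
  rw [tm_norm]
  have h3 : (nm v : ℝ) ^ (-(((m + j : ℕ) : ℝ) * s.re)) ≤ (nm v : ℝ) ^ (-(((m + j : ℕ) : ℝ) * σ)) :=
    nm_rpow_le v (mul_le_mul_of_nonneg_left hs (Nat.cast_nonneg _))
  have h4 : |c| * (Real.log (nm v) * (nm v : ℝ) ^ (-(((m + j : ℕ) : ℝ) * s.re))) ≤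
      (B * √(nm v : ℝ) ^ (m + j)) *
        (Real.log (nm v) * (nm v : ℝ) ^ (-(((m + j : ℕ) : ℝ) * σ))) :=
    mul_le_mul hc (mul_le_mul_of_nonneg_left h3 (log_nonneg v))
      (mul_nonneg (log_nonneg v) (by positivity)) (by positivity)
  refine h4.trans ?_
  have h5 : (B * √(nm v : ℝ) ^ (m + j)) *
        (Real.log (nm v) * (nm v : ℝ) ^ (-(((m + j : ℕ) : ℝ) * σ))) =
      B * (Real.log (nm v) * (nm v : ℝ) ^ (-(((m + j : ℕ) : ℝ) * (σ - 1 / 2)))) := by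
    rw [← sqrt_mul]
    ring
  rw [h5]
  unfold gm
  refine mul_le_mul_of_nonneg_left ?_ hB
  rw [mul_assoc]
  refine mul_le_mul_of_nonneg_left ?_ (log_nonneg v)
  have h6 : (nm v : ℝ) ^ (-(((m + j : ℕ) : ℝ) * (σ - 1 / 2))) =
      (nm v : ℝ) ^ (-((j : ℝ) * (σ - 1 / 2))) * ((nm v : ℝ) ^ (-(σ - 1 / 2))) ^ m := by
    rw [← Real.rpow_natCast, ← Real.rpow_mul (nm_pos v).le, ← Real.rpow_add (nm_pos v)]
    congr 1
    push_cast
    ring
  rw [h6]
  refine mul_le_mul_of_nonneg_left ?_ (by positivity)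
  exact pow_le_pow_left₀ (by positivity) (nm_rpow_le_two v (by linarith)) m

/-- a bounded coefficient -/
theorem tm_le' {c C κ : ℝ} (v : HeightOneSpectrum (𝓞 K)) (m : ℕ) {s : ℂ} {σ : ℝ}
    (hs : σ ≤ s.re) (hc : |c| ≤ C * (nm v : ℝ) ^ (-κ)) :
    ‖tm c v m s‖ ≤ C * (Real.log (nm v) * (nm v : ℝ) ^ (-(κ + m * σ))) := by
  rw [tm_norm]
  have h3 : (nm v : ℝ) ^ (-((m : ℝ) * s.re)) ≤ (nm v : ℝ) ^ (-((m : ℝ) * σ)) :=
    nm_rpow_le v (mul_le_mul_of_nonneg_left hs (Nat.cast_nonneg _))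
  have h4 := mul_le_mul hc (mul_le_mul_of_nonneg_left h3 (log_nonneg v))
      (mul_nonneg (log_nonneg v) (by positivity)) ((abs_nonneg c).trans hc)
  refine h4.trans (le_of_eq ?_)
  rw [neg_add, Real.rpow_add (nm_pos v)]
  ring

/-- **The continuation of the series.** -/
theorem ser_cont {E : HeightOneSpectrum (𝓞 K) → ℕ → ℝ} {B C r : ℝ}
    (h0 : ∀ v m, 1 ≤ m → |E v m| ≤ B * √(nm v : ℝ) ^ m)
    (h1 : ∀ v, |E v 1 + r| ≤ C * (nm v : ℝ) ^ (-(1 / 2) : ℝ))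
    (h2 : ∀ v, |E v 2 + nm v| ≤ C) :
    ∃ M : ℂ → ℂ, MeromorphicOn M {s | (5 / 6 : ℝ) < s.re} ∧
      (∀ s : ℂ, 1 ≤ s.re → s ≠ 1 → AnalyticAt ℂ M s) ∧
      (∃ H : ℂ → ℂ, AnalyticAt ℂ H 1 ∧ ∀ s, M s = (r + 1 / 2) / (s - 1) + H s) ∧
      ∀ s : ℂ, 3 / 2 < s.re → HasSum (fun p : HeightOneSpectrum (𝓞 K) × ℕ =>
        tm (E p.1 (p.2 + 1)) p.1 (p.2 + 1) s) (-M s) := by
  obtain ⟨D, hDm, hDa, ⟨H, hH, hDH⟩, hDs⟩ := exists_D K
  -- the three remainders
  set R1 : ℂ → ℂ := fun s => ∑' v : HeightOneSpectrum (𝓞 K), tm (E v 1 + r) v 1 s with hR1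
  set R2 : ℂ → ℂ := fun s => ∑' v : HeightOneSpectrum (𝓞 K), tm (E v 2 + nm v) v 2 s with hR2
  set R3 : ℂ → ℂ := fun s => ∑' p : HeightOneSpectrum (𝓞 K) × ℕ,
    tm (E p.1 (p.2 + 3)) p.1 (p.2 + 3) s with hR3
  have b1 : ∀ σ : ℝ, 5 / 6 < σ → ∃ u : HeightOneSpectrum (𝓞 K) → ℝ, Summable u ∧
      ∀ v (s : ℂ), σ < s.re → ‖tm (E v 1 + r) v 1 s‖ ≤ u v := fun σ hσ =>
    ⟨_, (sum_log (K := K) (κ := 1 / 2 + (1 : ℕ) * σ) (by push_cast; linarith)).mul_left C,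
      fun v s hs => tm_le' v 1 hs.le (h1 v)⟩
  have b2 : ∀ σ : ℝ, 5 / 6 < σ → ∃ u : HeightOneSpectrum (𝓞 K) → ℝ, Summable u ∧
      ∀ v (s : ℂ), σ < s.re → ‖tm (E v 2 + nm v) v 2 s‖ ≤ u v := fun σ hσ =>
    ⟨_, (sum_log (K := K) (κ := 0 + (2 : ℕ) * σ) (by push_cast; linarith)).mul_left C,
      fun v s hs => tm_le' v 2 hs.le (by rw [neg_zero, Real.rpow_zero, mul_one]; exact h2 v)⟩
  have b3 : ∀ σ : ℝ, 5 / 6 < σ → ∃ u : HeightOneSpectrum (𝓞 K) × ℕ → ℝ, Summable u ∧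
      ∀ p (s : ℂ), σ < s.re → ‖tm (E p.1 (p.2 + 3)) p.1 (p.2 + 3) s‖ ≤ u p := fun σ hσ =>
    ⟨_, (sum_geo (K := K) (τ := σ - 1 / 2) (j := 3) (by linarith) (by push_cast; linarith)).mul_left B,
      fun p s hs => tm_le p.1 p.2 3 (by linarith) hs.le (h0 p.1 _ (by omega))⟩
  have hopen : IsOpen {s : ℂ | (5 / 6 : ℝ) < s.re} := isOpen_lt continuous_const Complex.continuous_re
  have a1 : ∀ s : ℂ, 5 / 6 < s.re → AnalyticAt ℂ R1 s := fun s hs =>
    (hol_tsum (fun v s _ => tm_diff _ v 1 s) b1).analyticAt (hopen.mem_nhds hs)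
  have a2 : ∀ s : ℂ, 5 / 6 < s.re → AnalyticAt ℂ R2 s := fun s hs =>
    (hol_tsum (fun v s _ => tm_diff _ v 2 s) b2).analyticAt (hopen.mem_nhds hs)
  have a3 : ∀ s : ℂ, 5 / 6 < s.re → AnalyticAt ℂ R3 s := fun s hs =>
    (hol_tsum (fun p s _ => tm_diff _ p.1 (p.2 + 3) s) b3).analyticAt (hopen.mem_nhds hs)
  obtain ⟨L, hL⟩ : ∃ L : ℂ → ℂ, ∀ s, L s = 2 * s - 1 := ⟨_, fun _ => rfl⟩
  have hL' : L = fun s => 2 * s - 1 := funext hL
  have hlin : ∀ s : ℂ, AnalyticAt ℂ L s := fun s => by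
    rw [hL']
    exact (analyticAt_const.mul analyticAt_id).sub analyticAt_const
  have hre : ∀ s : ℂ, (L s).re = 2 * s.re - 1 := fun s => by rw [hL]; simp
  refine ⟨fun s => r * D s + D (L s) - (R1 s + R2 s + R3 s), ?_, ?_, ?_, ?_⟩
  · intro s hs
    have hs' : (5 / 6 : ℝ) < s.re := hs
    have m1 : MeromorphicAt D s := hDm s (by show (1 / 2 : ℝ) < s.re; linarith)
    have m2 : MeromorphicAt (D ∘ L) s :=
      (hDm (L s) (by show (1 / 2 : ℝ) < (L s).re; rw [hre]; linarith)).comp_analyticAt (hlin s)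
    exact (((MeromorphicAt.const _ s).mul m1).add m2).sub
      (((a1 s hs').add (a2 s hs')).add (a3 s hs')).meromorphicAt
  · intro s hs hne
    have hs' : (5 / 6 : ℝ) < s.re := by linarith
    have m2 : AnalyticAt ℂ (D ∘ L) s := by
      refine AnalyticAt.comp (hDa (L s) (by rw [hre]; linarith) ?_) (hlin s)
      intro h
      rw [hL] at h
      apply hne
      linear_combination h / 2
    exact ((analyticAt_const.mul (hDa s hs hne)).add m2).sub
      (((a1 s hs').add (a2 s hs')).add (a3 s hs'))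
  · have hs' : (5 / 6 : ℝ) < (1 : ℂ).re := by norm_num
    have m2 : AnalyticAt ℂ (H ∘ L) 1 := by
      have : AnalyticAt ℂ H (L 1) := by
        rw [hL]
        norm_num
        exact hH
      exact AnalyticAt.comp this (hlin 1)
    refine ⟨fun s => r * H s + H (L s) - (R1 s + R2 s + R3 s),
      ((analyticAt_const.mul hH).add m2).sub (((a1 1 hs').add (a2 1 hs')).add (a3 1 hs')), ?_⟩
    intro s
    simp only
    rw [hDH, hDH, hL]
    have e : (2 * s - 1 - 1 : ℂ) = 2 * (s - 1) := by ring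
    rw [e]
    by_cases h : s - 1 = 0
    · simp only [h, mul_zero, div_zero, zero_add]
    · field_simp
      ring
  · intro s hs
    have hs5 : (5 / 6 : ℝ) < s.re := by linarith
    obtain ⟨σ, hσ1, hσ2⟩ := exists_between hs
    -- summability of the whole
    have hsum : Summable fun p : HeightOneSpectrum (𝓞 K) × ℕ =>
        tm (E p.1 (p.2 + 1)) p.1 (p.2 + 1) s :=
      Summable.of_norm_bounded ((sum_geo (K := K) (τ := σ - 1 / 2) (j := 1) (by linarith)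
        (by push_cast; linarith)).mul_left B)
        fun p => tm_le p.1 p.2 1 (by linarith) hσ2.le (h0 p.1 _ (by omega))
    -- the first two terms
    have s1 : HasSum (fun v : HeightOneSpectrum (𝓞 K) => tm (E v 1) v 1 s) (R1 s - r * D s) := by
      obtain ⟨u, hu, hb⟩ := b1 ((5 / 6 + s.re) / 2) (by linarith)
      have e1 : HasSum (fun v : HeightOneSpectrum (𝓞 K) => tm (E v 1 + r) v 1 s) (R1 s) :=
        (Summable.of_norm_bounded hu fun v => hb v s (by linarith)).hasSum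
      refine (e1.sub ((hDs s (by linarith)).mul_left (r : ℂ))).congr_fun fun v => ?_
      unfold tm
      push_cast
      ring
    have s2 : HasSum (fun v : HeightOneSpectrum (𝓞 K) => tm (E v 2) v 2 s) (R2 s - D (L s)) := by
      obtain ⟨u, hu, hb⟩ := b2 ((5 / 6 + s.re) / 2) (by linarith)
      have e1 : HasSum (fun v : HeightOneSpectrum (𝓞 K) => tm (E v 2 + nm v) v 2 s) (R2 s) :=
        (Summable.of_norm_bounded hu fun v => hb v s (by linarith)).hasSum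
      refine (e1.sub (hDs (L s) (by rw [hre]; linarith))).congr_fun fun v => ?_
      have e2 : (nm v : ℂ) ^ (-(L s)) = (nm v : ℂ) * ((nm v : ℂ) ^ (-s)) ^ 2 := by
        rw [hL, sq, ← Complex.cpow_add _ _ (nmC_ne v)]
        nth_rw 2 [← Complex.cpow_one (nm v : ℂ)]
        rw [← Complex.cpow_add _ _ (nmC_ne v)]
        congr 1
        ring
      rw [e2]
      unfold tm
      push_cast
      ring
    have hs3 : Summable fun p : HeightOneSpectrum (𝓞 K) × ℕ =>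
        tm (E p.1 (p.2 + 3)) p.1 (p.2 + 3) s := by
      obtain ⟨u, hu, hb⟩ := b3 ((5 / 6 + s.re) / 2) (by linarith)
      exact Summable.of_norm_bounded hu fun p => hb p s (by linarith)
    have hv : ∀ v : HeightOneSpectrum (𝓞 K), ∑' m : ℕ, tm (E v (m + 1)) v (m + 1) s =
        tm (E v 1) v 1 s + tm (E v 2) v 2 s + ∑' m : ℕ, tm (E v (m + 3)) v (m + 3) s := by
      intro v
      have e1 : Summable fun m : ℕ => tm (E v (m + 1)) v (m + 1) s := hsum.prod_factor v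
      rw [← e1.sum_add_tsum_nat_add 2, Finset.sum_range_succ, Finset.sum_range_one]
    have e3 : HasSum (fun v : HeightOneSpectrum (𝓞 K) => ∑' m : ℕ, tm (E v (m + 3)) v (m + 3) s)
        (R3 s) := by
      rw [hR3]
      exact hs3.hasSum.prod_fiberwise fun v => (hs3.prod_factor v).hasSum
    have e4 := (s1.add s2).add e3
    have e5 : HasSum (fun v : HeightOneSpectrum (𝓞 K) => ∑' m : ℕ, tm (E v (m + 1)) v (m + 1) s)
        (∑' p : HeightOneSpectrum (𝓞 K) × ℕ, tm (E p.1 (p.2 + 1)) p.1 (p.2 + 1) s) :=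
      hsum.hasSum.prod_fiberwise fun v => (hsum.prod_factor v).hasSum
    have e6 := (e5.congr_fun fun v => (hv v).symm).unique e4
    have e7 := hsum.hasSum
    rw [e6] at e7
    convert e7 using 1
    ring

end

end Pool.Agent.W5h26.AO
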