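import Pool.Agent.W5h26.EP.Zeta

/-!
# The sum of `log N v / N v ^ s` over the finite places of a number field
-/

set_option autoImplicit false

open MeasureTheory Filter Topology Complex Set
open NumberField IsDedekindDomain Pool.Agent.H921R2.TatePole

namespace Pool.Agent.W5h26.AO

open Pool.Agent.W5h26.EP

/-! ### Holomorphic series -/

/-- a series of holomorphic functions with locally uniform bounds -/
theorem hol_tsum {ι : Type} {f : ι → ℂ → ℂ} {σ₀ : ℝ}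
    (hf : ∀ i s, σ₀ < s.re → DifferentiableAt ℂ (f i) s)
    (hb : ∀ σ : ℝ, σ₀ < σ → ∃ u : ι → ℝ, Summable u ∧ ∀ i (s : ℂ), σ < s.re → ‖f i s‖ ≤ u i) :
    DifferentiableOn ℂ (fun s => ∑' i, f i s) {s | σ₀ < s.re} := by
  intro s hs
  obtain ⟨σ, h1, h2⟩ := exists_between (show σ₀ < s.re from hs)
  obtain ⟨u, hu, hfu⟩ := hb σ h1
  have hopen : IsOpen {s : ℂ | σ < s.re} := isOpen_lt continuous_const Complex.continuous_re
  have h3 := Complex.differentiableOn_tsum_of_summable_norm (U := {s : ℂ | σ < s.re}) (F := f) hu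
    (fun i z hz => (hf i z (h1.trans hz)).differentiableWithinAt) hopen
    fun i z hz => hfu i z hz
  exact (h3.differentiableAt (hopen.mem_nhds h2)).differentiableWithinAt

/-- the derivative of such a series -/
theorem deriv_tsum {ι : Type} {f : ι → ℂ → ℂ} {σ₀ : ℝ}
    (hf : ∀ i s, σ₀ < s.re → DifferentiableAt ℂ (f i) s)
    (hb : ∀ σ : ℝ, σ₀ < σ → ∃ u : ι → ℝ, Summable u ∧ ∀ i (s : ℂ), σ < s.re → ‖f i s‖ ≤ u i)
    {s : ℂ} (hs : σ₀ < s.re) :
    HasSum (fun i => deriv (f i) s) (deriv (fun s => ∑' i, f i s) s) := by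
  obtain ⟨σ, h1, h2⟩ := exists_between (show σ₀ < s.re from hs)
  obtain ⟨u, hu, hfu⟩ := hb σ h1
  have hopen : IsOpen {s : ℂ | σ < s.re} := isOpen_lt continuous_const Complex.continuous_re
  exact Complex.hasSum_deriv_of_summable_norm (U := {s : ℂ | σ < s.re}) (F := f) hu
    (fun i z hz => (hf i z (h1.trans hz)).differentiableWithinAt) hopen
    (fun i z hz => hfu i z hz) h2

section

variable {K : Type} [Field K] [NumberField K]

theorem nm_pos (v : HeightOneSpectrum (𝓞 K)) : (0 : ℝ) < nm v := by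
  have := nm1 v
  linarith

theorem log_nonneg (v : HeightOneSpectrum (𝓞 K)) : 0 ≤ Real.log (nm v) := Real.log_nonneg (nm1 v)

/-- the sum with logarithms -/
theorem sum_log {κ : ℝ} (hκ : 1 < κ) :
    Summable fun v : HeightOneSpectrum (𝓞 K) => Real.log (nm v) * (nm v : ℝ) ^ (-κ) := by
  obtain ⟨σ, h1, h2⟩ := exists_between hκ
  have hε : 0 < κ - σ := by linarith
  refine Summable.of_nonneg_of_le (fun v => mul_nonneg (log_nonneg v) (by positivity)) (fun v => ?_)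
    ((nm_summable (K := K) h1).mul_left (1 / (κ - σ)))
  have hn := nm_pos v
  have h3 : Real.log (nm v) ≤ (nm v : ℝ) ^ (κ - σ) / (κ - σ) := Real.log_le_rpow_div hn.le hε
  refine (mul_le_mul_of_nonneg_right h3 (by positivity)).trans (le_of_eq ?_)
  have h4 : (nm v : ℝ) ^ (κ - σ) * (nm v : ℝ) ^ (-κ) = (nm v : ℝ) ^ (-σ) := by
    rw [← Real.rpow_add hn]
    congr 1
    ring
  rw [← h4]
  ring

theorem norm_nm_cpow (v : HeightOneSpectrum (𝓞 K)) (s : ℂ) :
    ‖((nm v : ℕ) : ℂ) ^ (-s)‖ = (nm v : ℝ) ^ (-s.re) := by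
  have h : 0 < nm v := by exact_mod_cast nm_pos v
  rw [Complex.norm_natCast_cpow_of_pos h, Complex.neg_re]

theorem nm_rpow_le (v : HeightOneSpectrum (𝓞 K)) {x y : ℝ} (h : x ≤ y) :
    (nm v : ℝ) ^ (-y) ≤ (nm v : ℝ) ^ (-x) :=
  Real.rpow_le_rpow_of_exponent_le (nm1 v) (by linarith)

theorem nm2 (v : HeightOneSpectrum (𝓞 K)) : (2 : ℝ) ≤ nm v := by exact_mod_cast two_le_nm v

theorem nm_rpow_le_two (v : HeightOneSpectrum (𝓞 K)) {x : ℝ} (h : 0 ≤ x) :
    (nm v : ℝ) ^ (-x) ≤ 2 ^ (-x) :=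
  Real.rpow_le_rpow_of_nonpos (by norm_num) (nm2 v) (by linarith)

theorem hasDeriv_cpow (v : HeightOneSpectrum (𝓞 K)) (s : ℂ) :
    HasDerivAt (fun s : ℂ => ((nm v : ℕ) : ℂ) ^ (-s))
      (-((Real.log (nm v) : ℂ) * ((nm v : ℕ) : ℂ) ^ (-s))) s := by
  have h1 := ((hasDerivAt_neg s).const_cpow (c := ((nm v : ℕ) : ℂ)) (Or.inl (nmC_ne v)))
  refine h1.congr_deriv ?_
  rw [Complex.ofReal_log (Nat.cast_nonneg _), Complex.ofReal_natCast]
  ring

/-! ### The logarithmic derivative -/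

theorem term_deriv (v : HeightOneSpectrum (𝓞 K)) {s : ℂ} (hs : 0 < s.re) :
    HasDerivAt (fun s : ℂ => -Complex.log (1 - (nm v : ℂ) ^ (-s)))
      (-((Real.log (nm v) : ℂ) * (nm v : ℂ) ^ (-s) / (1 - (nm v : ℂ) ^ (-s)))) s := by
  have hz : ‖(nm v : ℂ) ^ (-s)‖ < 1 := by
    rw [norm_nm_cpow]
    refine (nm_rpow_le_two v hs.le).trans_lt ?_
    exact Real.rpow_lt_one_of_one_lt_of_neg (by norm_num) (by linarith)
  have h1 := ((hasDeriv_cpow v s).const_sub 1).clog (slit_of_norm hz)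
  refine h1.neg.congr_deriv ?_
  ring

theorem half_bd (v : HeightOneSpectrum (𝓞 K)) {s : ℂ} (hs : 1 < s.re) :
    ‖(nm v : ℂ) ^ (-s)‖ ≤ 1 / 2 := by
  rw [norm_nm_cpow]
  refine (nm_rpow_le_two v (by linarith)).trans ?_
  refine (Real.rpow_le_rpow_of_exponent_le (by norm_num) (show -s.re ≤ -1 by linarith)).trans ?_
  rw [Real.rpow_neg_one]
  norm_num

theorem log_bd {z : ℂ} (hz : ‖z‖ ≤ 1 / 2) : ‖-Complex.log (1 - z)‖ ≤ 3 / 2 * ‖z‖ := by
  rw [norm_neg, sub_eq_add_neg]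
  refine (Complex.norm_log_one_add_half_le_self (z := -z) (by rwa [norm_neg])).trans ?_
  rw [norm_neg]

/-- the derivative of the logarithm of the zeta function -/
theorem zl_deriv {s : ℂ} (hs : 1 < s.re) :
    HasSum (fun v : HeightOneSpectrum (𝓞 K) =>
      (Real.log (nm v) : ℂ) * (nm v : ℂ) ^ (-s) / (1 - (nm v : ℂ) ^ (-s))) (-deriv (Zl K) s) := by
  have h1 := deriv_tsum (ι := HeightOneSpectrum (𝓞 K)) (σ₀ := 1)
    (f := fun v s => -Complex.log (1 - (nm v : ℂ) ^ (-s)))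
    (fun v s hs => (term_deriv v (by linarith)).differentiableAt) (fun σ hσ =>
      ⟨fun v => 3 / 2 * (nm v : ℝ) ^ (-σ), (nm_summable (K := K) hσ).mul_left _, fun v s hs => by
        refine (log_bd (half_bd v (hσ.trans hs))).trans ?_
        rw [norm_nm_cpow]
        exact mul_le_mul_of_nonneg_left (nm_rpow_le v hs.le) (by norm_num)⟩) hs
  have hopen : IsOpen {s : ℂ | 1 < s.re} := isOpen_lt continuous_const Complex.continuous_re
  have h2 : (fun s : ℂ => ∑' v : HeightOneSpectrum (𝓞 K), -Complex.log (1 - (nm v : ℂ) ^ (-s)))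
      =ᶠ[𝓝 s] Zl K := by
    filter_upwards [hopen.mem_nhds hs] with z hz
    exact (zl_sum K hz).tsum_eq
  rw [h2.deriv_eq] at h1
  refine h1.neg.congr_fun fun v => ?_
  rw [(term_deriv v (by linarith)).deriv, neg_neg]

/-- the remainder -/
noncomputable def RK (K : Type) [Field K] [NumberField K] (s : ℂ) : ℂ :=
  ∑' v : HeightOneSpectrum (𝓞 K),
    (Real.log (nm v) : ℂ) * (nm v : ℂ) ^ (-(2 * s)) / (1 - (nm v : ℂ) ^ (-s))

theorem den_bd (v : HeightOneSpectrum (𝓞 K)) {σ : ℝ} (hσ : 0 < σ) {s : ℂ} (hs : σ < s.re) :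
    1 - (2 : ℝ) ^ (-σ) ≤ ‖1 - (nm v : ℂ) ^ (-s)‖ := by
  have h1 := norm_sub_norm_le (1 : ℂ) ((nm v : ℂ) ^ (-s))
  rw [norm_one, norm_nm_cpow] at h1
  have h2 : (nm v : ℝ) ^ (-s.re) ≤ 2 ^ (-σ) := by
    refine (nm_rpow_le v hs.le).trans (nm_rpow_le_two v hσ.le)
  linarith

theorem one_sub_pos {σ : ℝ} (hσ : 0 < σ) : 0 < 1 - (2 : ℝ) ^ (-σ) := by
  have : (2 : ℝ) ^ (-σ) < 1 := Real.rpow_lt_one_of_one_lt_of_neg (by norm_num) (by linarith)
  linarith

theorem rk_bd {σ : ℝ} (hσ : 1 / 2 < σ) : ∃ u : HeightOneSpectrum (𝓞 K) → ℝ, Summable u ∧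
    ∀ v (s : ℂ), σ < s.re →
      ‖(Real.log (nm v) : ℂ) * (nm v : ℂ) ^ (-(2 * s)) / (1 - (nm v : ℂ) ^ (-s))‖ ≤ u v := by
  refine ⟨fun v => (1 - (2 : ℝ) ^ (-σ))⁻¹ * (Real.log (nm v) * (nm v : ℝ) ^ (-(2 * σ))),
    (sum_log (K := K) (by linarith)).mul_left _, fun v s hs => ?_⟩
  have h1 := one_sub_pos (σ := σ) (by linarith)
  have h2 := den_bd v (by linarith) hs
  rw [norm_div, norm_mul, norm_nm_cpow, Complex.norm_real, Real.norm_eq_abs,
    abs_of_nonneg (log_nonneg v), div_eq_inv_mul]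
  have e : (2 * s).re = 2 * s.re := by simp
  rw [e]
  apply mul_le_mul (inv_anti₀ h1 h2) _ (mul_nonneg (log_nonneg v) (by positivity)) (by positivity)
  exact mul_le_mul_of_nonneg_left (nm_rpow_le v (by linarith)) (log_nonneg v)

theorem one_sub_ne (v : HeightOneSpectrum (𝓞 K)) {s : ℂ} (hs : 0 < s.re) :
    1 - (nm v : ℂ) ^ (-s) ≠ 0 := by
  obtain ⟨σ, h1, h2⟩ := exists_between hs
  have := (one_sub_pos h1).trans_le (den_bd v h1 h2)
  exact norm_pos_iff.1 this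

theorem rk_hol : DifferentiableOn ℂ (RK K) {s | (1 / 2 : ℝ) < s.re} := by
  unfold RK
  refine hol_tsum (fun v s hs => ?_) fun σ hσ => rk_bd hσ
  have h2 : DifferentiableAt ℂ (fun s : ℂ => (nm v : ℂ) ^ (-(2 * s))) s := by
    have h3 : HasDerivAt (fun s : ℂ => 2 * s) 2 s := by
      simpa using (hasDerivAt_id s).const_mul (2 : ℂ)
    exact ((hasDeriv_cpow v (2 * s)).comp s h3).differentiableAt
  exact ((differentiableAt_const _).mul h2).div
    ((hasDeriv_cpow v s).differentiableAt.const_sub 1) (one_sub_ne v (by linarith))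

theorem rk_sum {s : ℂ} (hs : 1 / 2 < s.re) : HasSum (fun v : HeightOneSpectrum (𝓞 K) =>
    (Real.log (nm v) : ℂ) * (nm v : ℂ) ^ (-(2 * s)) / (1 - (nm v : ℂ) ^ (-s))) (RK K s) := by
  obtain ⟨σ, h1, h2⟩ := exists_between hs
  obtain ⟨u, hu, hb⟩ := rk_bd (K := K) h1
  exact (Summable.of_norm_bounded hu fun v => hb v s h2).hasSum

/-- the prime sum -/
theorem pk_sum {s : ℂ} (hs : 1 < s.re) : HasSum (fun v : HeightOneSpectrum (𝓞 K) =>
    (Real.log (nm v) : ℂ) * (nm v : ℂ) ^ (-s)) (-deriv (Zl K) s - RK K s) := by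
  refine ((zl_deriv hs).sub (rk_sum (by linarith))).congr_fun fun v => ?_
  have h1 := one_sub_ne v (s := s) (by linarith)
  have h2 : (nm v : ℂ) ^ (-(2 * s)) = (nm v : ℂ) ^ (-s) * (nm v : ℂ) ^ (-s) := by
    rw [← Complex.cpow_add _ _ (nmC_ne v)]
    congr 1
    ring
  rw [h2]
  field_simp

end

end Pool.Agent.W5h26.AO
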